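import Pool.Agent.helper99.EX.Rig

/-! EX-Z2: both signs occur and `κ ≥ 1`: there is a nonempty zero sum (4.5 (Z2)). -/

open Finset Pool.Agent.helper43.Rho Pool.Agent.helper43.Asy Pool.Agent.helper43.Ex

set_option linter.unusedSectionVars false

namespace Pool.Agent.helper99.EX

variable {n m : ℕ} [NeZero n] {A : Finset (ZMod n)} {c : ZMod n} {K L : AddSubgroup (ZMod n)}
  {N : ℕ} {f : ZMod n → ℤ} {q κ : ℕ}

/-- `J` has `κ` elements, is asymmetric and contained in `K`, `|K| = 2 κ + 1`; so every nonzero
element of `K` is in `J` or its negative is. Hence a subset `P` of `c + K` with `p + j ∈ P` for all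
`p ∈ P`, `j ∈ J` (so also `p - j ∈ P`, as `P` is finite: `P + j = P`) is empty or contains
`c + K`. -/
theorem inv_class (R : Rig n m A c K L N f q κ) {P : Finset (ZMod n)}
    (hP : ∀ p ∈ P, ∀ j ∈ A, f j = 0 → p + j ∈ P) {p z : ZMod n} (hp : p ∈ P)
    (hz : z - p ∈ K) : z ∈ P := by
  have hJc : CC (A.filter (fun a => f a = 0)) = sf K := by
    apply Finset.eq_of_subset_of_card_le
    · intro x hx
      rw [mem_sf]
      unfold CC at hx
      rw [Finset.mem_insert, Finset.mem_union, Finset.mem_image] at hx
      rcases hx with rfl | hx | ⟨y, hy, rfl⟩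
      · exact K.zero_mem
      · rw [Finset.mem_filter] at hx
        exact (rig_J R hx.1).1 hx.2
      · rw [Finset.mem_filter] at hy
        exact K.neg_mem ((rig_J R hy.1).1 hy.2)
    · have hA : Asym (A.filter (fun a => f a = 0)) := by
        intro a ha hna
        exact R.asym a (Finset.mem_filter.1 ha).1 (Finset.mem_filter.1 hna).1
      rw [card_CC hA, R.J, R.mu]
  have h1 : z - p ∈ CC (A.filter (fun a => f a = 0)) := by
    rw [hJc]
    exact (mem_sf _).2 hz
  unfold CC at h1
  rw [Finset.mem_insert, Finset.mem_union, Finset.mem_image] at h1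
  rcases h1 with h1 | h1 | ⟨j, hj, hj2⟩
  · rw [sub_eq_zero.1 h1]
    exact hp
  · rw [Finset.mem_filter] at h1
    have h2 := hP p hp _ h1.1 h1.2
    rwa [add_sub_cancel] at h2
  · rw [Finset.mem_filter] at hj
    have h3 : P.image (fun x => x + j) = P := by
      apply Finset.eq_of_subset_of_card_le
      · intro x hx
        rw [Finset.mem_image] at hx
        obtain ⟨y, hy, rfl⟩ := hx
        exact hP y hy j hj.1 hj.2
      · rw [Finset.card_image_of_injective _ (add_left_injective j)]
    have h4 : p ∈ P.image (fun x => x + j) := by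
      rw [h3]
      exact hp
    rw [Finset.mem_image] at h4
    obtain ⟨y, hy, h5⟩ := h4
    have h6 : z = y := by
      have h7 : z = p + -j := by
        rw [hj2]
        abel
      rw [h7, ← h5]
      abel
    rw [h6]
    exact hy

/-- Both signs in class 1. `P = {a ∈ A : f a = 1}`. By `inv_class` some `p ∈ P`, `j ∈ A` with
`f j = 0` have `p + j ∉ P` (otherwise `P` contains `c + K`, in particular `-b` for `b ∈ A`,
`f b = -1`; but `-b ∉ A`). `p + j - 1 • c ∈ K`, so by `rig_cls` `-(p + j) ∈ A` has level `-1`: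
`zero_of_three` for `p, j, -(p + j)` (levels `1, 0, -1`). -/
theorem z2_one (R : Rig n m A c K L N f q κ) {a b : ZMod n} (ha : a ∈ A)
    (hfa : f a = 1) (hb : b ∈ A) (hfb : f b = -1) : (0 : ZMod n) ∈ SigmaStar A := by
  have hma := R.lvl.mem a (R.AL a ha)
  have hmb := R.lvl.mem b (R.AL b hb)
  rw [hfa, one_zsmul] at hma
  rw [hfb, neg_zsmul, one_zsmul, sub_neg_eq_add] at hmb
  by_cases hall : ∀ p ∈ A.filter (fun x => f x = 1), ∀ j ∈ A, f j = 0 →
      p + j ∈ A.filter (fun x => f x = 1)
  · exfalso
    have h1 : -b - a ∈ K := by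
      have h2 : -b - a = -((a - c) + (b + c)) := by abel
      rw [h2]
      exact K.neg_mem (K.add_mem hma hmb)
    have h3 := inv_class R hall (Finset.mem_filter.2 ⟨ha, hfa⟩) h1
    exact R.asym b hb (Finset.mem_filter.1 h3).1
  · push Not at hall
    obtain ⟨p, hp, j, hj, hfj, hnot⟩ := hall
    rw [Finset.mem_filter] at hp
    have hmp := R.lvl.mem p (R.AL p hp.1)
    rw [hp.2, one_zsmul] at hmp
    have hjK : j ∈ K := (rig_J R hj).1 hfj
    have hz : (p + j) - (1 : ℕ) • c ∈ K := by
      rw [one_smul]
      have h4 : p + j - c = (p - c) + j := by abel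
      rw [h4]
      exact K.add_mem hmp hjK
    rcases rig_cls R le_rfl (by have := R.q10; omega) hz with h | h
    · exact absurd (Finset.mem_filter.2 ⟨h.1, by simpa using h.2⟩) hnot
    · have h5 : f (-(p + j)) = -1 := by simpa using h.2
      refine zero_of_three hp.1 hj h.1 ?_ ?_ ?_ (by abel)
      · intro e
        have := hp.2
        rw [e] at this
        omega
      · intro e
        have h6 := hp.2
        rw [e] at h6
        omega
      · intro e
        have h6 := hfj
        rw [e] at h6
        omega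

/-- Class 1 has no element of level `-1` and there is an element of negative level. Let `b ∈ A` have
`f b < 0` with `l0 = -f b` minimal: `l0 ≥ 2`, and no element of `A` has level `-k` with
`1 ≤ k < l0`. `l0 < 2 q` (`top`). If `l0 - 1 ≤ q`: the classes `1` and `l0 - 1` are positive
(`rig_cls_pos`). Choose `x = c + t`, `t ∈ K`, `y = -b - x`, which is in `(l0 - 1) c + K`; both are
in `A`. If `l0 ≠ 2` then `x ≠ y` (levels). If `l0 = 2` choose `t` with `2 t ≠ -b - 2 c`: `t = 0` or
`t` a nonzero element of `K` (`|K| = 2 κ + 1 ≥ 3` is odd, so `2 t = 2 t'` implies `t = t'`).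
If `l0 - 1 > q`: the classes `q` and `l0 - q < q` (`l0 - q ≥ 2`) with `x = q c`, `y = -b - x`.
`zero_of_three` for `x, y, b`. -/
theorem z2_pos (R : Rig n m A c K L N f q κ) (hκ : 1 ≤ κ) (h1 : ∀ a ∈ A, f a ≠ -1)
    (hn : ∃ a ∈ A, f a < 0) : (0 : ZMod n) ∈ SigmaStar A := by
  have hex : ∃ l : ℕ, 1 ≤ l ∧ ∃ b ∈ A, f b = -(l : ℤ) := by
    obtain ⟨a, ha, hfa⟩ := hn
    exact ⟨(f a).natAbs, by omega, a, ha, by omega⟩
  classical
  obtain ⟨l0, hl0, hmin⟩ : ∃ l0 : ℕ, (1 ≤ l0 ∧ ∃ b ∈ A, f b = -(l0 : ℤ)) ∧
      ∀ k : ℕ, 1 ≤ k → k < l0 → ∀ b ∈ A, f b ≠ -(k : ℤ) := by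
    refine ⟨Nat.find hex, Nat.find_spec hex, ?_⟩
    intro k hk1 hk2 b hb hfb
    exact Nat.find_min hex hk2 ⟨hk1, b, hb, hfb⟩
  obtain ⟨hl1, b, hb, hfb⟩ := hl0
  have hl2 : 2 ≤ l0 := by
    by_contra hlt
    have h2 : l0 = 1 := by omega
    rw [h2] at hfb
    exact h1 b hb (by simpa using hfb)
  have hl3 : l0 < 2 * q := by
    have := R.top b hb
    omega
  have hq := R.q10
  have hmb := R.lvl.mem b (R.AL b hb)
  rw [hfb, neg_zsmul, natCast_zsmul, sub_neg_eq_add] at hmb
  by_cases hc : l0 - 1 ≤ q
  · -- the classes `1` and `l0 - 1`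
    have key : ∀ t ∈ K, (c + t ∈ A ∧ f (c + t) = 1) ∧
        (-b - (c + t) ∈ A ∧ f (-b - (c + t)) = ((l0 - 1 : ℕ) : ℤ)) := by
      intro t ht
      constructor
      · have h := rig_cls_pos R (k := 1) le_rfl (by omega) (fun a ha => by
          have := h1 a ha
          simpa using this) (z := c + t) (by
            rw [one_smul, add_sub_cancel_left]
            exact ht)
        simpa using h
      · apply rig_cls_pos R (k := l0 - 1) (by omega) hc
        · intro a ha
          exact hmin (l0 - 1) (by omega) (by omega) a ha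
        · have h5 : l0 • c = (l0 - 1) • c + c := by
            have h6 : l0 = (l0 - 1) + 1 := by omega
            nth_rewrite 1 [h6]
            rw [succ_nsmul]
          have h7 : -b - (c + t) - (l0 - 1) • c = -(b + l0 • c) - t := by
            rw [h5]
            abel
          rw [h7]
          exact K.sub_mem (K.neg_mem hmb) ht
    obtain ⟨t, ht, hne⟩ : ∃ t ∈ K, c + t ≠ -b - (c + t) := by
      by_contra hcon
      push Not at hcon
      obtain ⟨t1, ht1, ht1n⟩ : ∃ t1 ∈ K, t1 ≠ 0 := by
        have h8 : 1 < (sf K).card := by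
          rw [R.mu]
          omega
        obtain ⟨u, hu, hu0⟩ := Finset.exists_mem_ne h8 0
        exact ⟨u, (mem_sf _).1 hu, hu0⟩
      have e0 := hcon 0 K.zero_mem
      have e1 := hcon t1 ht1
      have h9 : t1 + t1 = 0 := by
        have h10 : c + c = -b := by
          rw [add_zero] at e0
          exact eq_sub_iff_add_eq.1 e0
        have h11 : (c + t1) + (c + t1) = -b := eq_sub_iff_add_eq.1 e1
        have h12 : t1 + t1 = ((c + t1) + (c + t1)) - (c + c) := by abel
        rw [h12, h10, h11, sub_self]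
      have h13 : (2 * κ + 1) • t1 = 0 := by
        have h14 : (Nat.card K) • (⟨t1, ht1⟩ : K) = 0 := card_nsmul_eq_zero'
        have h15 : Nat.card K = 2 * κ + 1 := by
          rw [← R.mu]
          unfold sf
          rw [Nat.card_eq_fintype_card, ← Fintype.card_coe]
          apply Fintype.card_congr
          exact Equiv.subtypeEquivRight (by simp)
        rw [h15] at h14
        have h16 := congrArg (Subtype.val) h14
        simpa using h16
      have h17 : (2 * κ + 1) • t1 = t1 := by
        rw [add_smul, one_smul, mul_comm, mul_smul, two_smul, h9, smul_zero, zero_add]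
      exact ht1n (h17.symm.trans h13)
    obtain ⟨⟨hx, hfx⟩, hy, hfy⟩ := key t ht
    refine zero_of_three hx hy hb hne ?_ ?_ (by abel)
    · intro e
      rw [e] at hfx
      omega
    · intro e
      rw [e] at hfy
      omega
  · -- the classes `q` and `l0 - q`
    have hx := rig_cls_pos R (k := q) (by omega) le_rfl
      (fun a ha => hmin q (by omega) (by omega) a ha) (z := q • c) (by
        rw [sub_self]
        exact K.zero_mem)
    have hy := rig_cls_pos R (k := l0 - q) (by omega) (by omega)
      (fun a ha => hmin (l0 - q) (by omega) (by omega) a ha) (z := -b - q • c) (by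
        have h5 : l0 • c = (l0 - q) • c + q • c := by
          rw [← add_smul]
          congr 1
          omega
        have h7 : -b - q • c - (l0 - q) • c = -(b + l0 • c) := by
          rw [h5]
          abel
        rw [h7]
        exact K.neg_mem hmb)
    refine zero_of_three hx.1 hy.1 hb ?_ ?_ ?_ (by abel)
    · intro e
      have h8 := hx.2
      rw [e, hy.2] at h8
      omega
    · intro e
      have h8 := hx.2
      rw [e] at h8
      omega
    · intro e
      have h8 := hy.2
      rw [e] at h8
      omega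

/-- Cases: `z2_one`; no level `-1`: `z2_pos`; no level `1`: `z2_pos` for `rig_neg R`. -/
theorem z2 (R : Rig n m A c K L N f q κ) (hκ : 1 ≤ κ) (hp : ∃ a ∈ A, 0 < f a)
    (hn : ∃ a ∈ A, f a < 0) : (0 : ZMod n) ∈ SigmaStar A := by
  by_cases h1 : ∃ a ∈ A, f a = 1
  · by_cases h2 : ∃ b ∈ A, f b = -1
    · obtain ⟨a, ha, hfa⟩ := h1
      obtain ⟨b, hb, hfb⟩ := h2
      exact z2_one R ha hfa hb hfb
    · push Not at h2
      exact z2_pos R hκ h2 hn
  · push Not at h1
    refine z2_pos (rig_neg R) hκ ?_ ?_
    · intro a ha e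
      exact h1 a ha (by simpa using e)
    · obtain ⟨a, ha, hfa⟩ := hp
      exact ⟨a, ha, by simpa using hfa⟩

end Pool.Agent.helper99.EX
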