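import Pool.Agent.helper99.EX.Z3a

/-! EX-Z3: `κ = 0` (`K` trivial), both signs, `N + 2 ≤ S`: there is a nonempty zero sum
(4.5 (Z3)). -/

open Finset Pool.Agent.helper43.Rho Pool.Agent.helper43.Asy Pool.Agent.helper43.Ex

set_option linter.unusedSectionVars false

namespace Pool.Agent.helper99.EX

variable {n m : ℕ} [NeZero n] {A : Finset (ZMod n)} {c : ZMod n} {K L : AddSubgroup (ZMod n)}
  {N : ℕ} {f : ZMod n → ℤ} {q : ℕ}

/-- One negative element `b` of level `-s`, `s ≤ 2` (`s ≥ 1`), all other elements are positive;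
`N + 2 ≤ S = sp + s`, `S < N + q`. `r = sp - N ≥ 0` (`r ≥ 2 - s`). `∑_{a ∈ A, f a > 0} a = sp • c =
r • c` (`N • c = 0`). If `r = 0` this is a nonempty zero sum. Otherwise `r < q`; if `r` is a level:
remove `r • c` from the positive elements (`sp > r`, so something remains: `sp - r = N ≥ 1`; the set
is nonempty because its level sum is `N > 0`). If `-r` is a level: `r = s` and the sum of all
elements of `A` is `(sp - s) • c = N • c = 0`. -/
theorem z3_small (R : Rig n m A c K L N f q 0) (hS : (N : ℤ) + 2 ≤ sp f A + sn f A)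
    {b : ZMod n} (hb : b ∈ A) (hfb : f b = -1 ∨ f b = -2)
    (hpos : ∀ a ∈ A, a ≠ b → 0 < f a) : (0 : ZMod n) ∈ SigmaStar A := by
  have hNc : (N : ℤ) • c = 0 := z3_K R ((R.lvl.ord (N : ℤ)).2 dvd_rfl)
  have hfb0 : f b < 0 := by
    rcases hfb with h | h
    · rw [h]; norm_num
    · rw [h]; norm_num
  -- the sums of the levels
  have hsn : sn f A = -f b := by
    unfold sn
    rw [Finset.sum_eq_single b]
    · exact max_eq_left (by omega)
    · intro a ha hab
      exact max_eq_right (by have := hpos a ha hab; omega)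
    · intro h
      exact absurd hb h
  have hsp : sp f A = ∑ a ∈ A.erase b, f a := by
    unfold sp
    rw [← Finset.add_sum_erase A _ hb, max_eq_right (by omega), zero_add]
    refine Finset.sum_congr rfl fun a ha => ?_
    obtain ⟨h1, h2⟩ := Finset.mem_erase.1 ha
    exact max_eq_left (hpos a h2 h1).le
  have hsum : ∑ a ∈ A.erase b, a = (sp f A) • c := by
    rw [hsp, Finset.sum_smul]
    refine Finset.sum_congr rfl fun a ha => ?_
    exact z3_eq R (Finset.mem_erase.1 ha).2
  have hSlt := R.Slt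
  obtain ⟨r, hr⟩ : ∃ r : ℕ, sp f A = N + r := by
    refine ⟨(sp f A - N).toNat, ?_⟩
    rw [Int.toNat_of_nonneg]
    · ring
    · rcases hfb with h | h
      · omega
      · omega
  have hrc : (sp f A) • c = (r : ℤ) • c := by
    rw [hr, add_zsmul, hNc, zero_add]
  have hrq : r < q := by omega
  have hcard : (A.erase b).card = m - 1 := by
    rw [Finset.card_erase_of_mem hb, R.card]
  have hm := R.hm
  rcases Nat.eq_zero_or_pos r with h0 | h0
  · refine mem_SigmaStar.2 ⟨A.erase b, Finset.erase_subset b A, ?_, ?_⟩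
    · rw [← Finset.card_pos, hcard]
      omega
    · rw [hsum, hrc, h0, Nat.cast_zero, zero_zsmul]
  · rcases z3_cls R h0 hrq.le with ⟨h1, h2⟩ | ⟨h1, h2⟩
    · have hxb : (r : ℤ) • c ≠ b := by
        intro h
        rw [h] at h2
        omega
      have hxP : (r : ℤ) • c ∈ A.erase b := Finset.mem_erase.2 ⟨hxb, h1⟩
      refine mem_SigmaStar.2 ⟨(A.erase b).erase ((r : ℤ) • c),
        (Finset.erase_subset _ _).trans (Finset.erase_subset b A), ?_, ?_⟩
      · rw [← Finset.card_pos, Finset.card_erase_of_mem hxP, hcard]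
        omega
      · have h3 := Finset.add_sum_erase (A.erase b) (fun a : ZMod n => a) hxP
        rw [hsum, hrc] at h3
        exact add_eq_left.1 h3
    · have hyb : (-(r : ℤ)) • c = b := by
        by_contra h
        have := hpos _ h1 h
        omega
      refine mem_SigmaStar.2 ⟨A, Finset.Subset.refl A, ⟨b, hb⟩, ?_⟩
      have h3 := Finset.add_sum_erase A (fun a : ZMod n => a) hb
      rw [← h3, hsum, hrc]
      show b + (r : ℤ) • c = 0
      rw [← hyb, neg_zsmul, neg_add_cancel]

/-- no element has level `0` -/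
private theorem Z3_ne_zero (R : Rig n m A c K L N f q 0) {a : ZMod n} (ha : a ∈ A) :
    f a ≠ 0 := by
  intro h
  have h1 : a ∈ A.filter (fun a => f a = 0) := Finset.mem_filter.2 ⟨ha, h⟩
  have h2 := Finset.card_pos.2 ⟨a, h1⟩
  have h3 := R.J
  omega

private theorem Z3_aux (R : Rig n m A c K L N f q 0) (hn : ∃ a ∈ A, f a < 0)
    (hS : (N : ℤ) + 2 ≤ sp f A + sn f A) (h1 : (1 : ℤ) • c ∈ A) (hf1 : f ((1 : ℤ) • c) = 1) :
    (0 : ZMod n) ∈ SigmaStar A := by
  by_contra h0
  rcases z3_signs R h0 h1 hf1 with h | h | h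
  · obtain ⟨a, ha, hfa⟩ := hn
    have := h a ha
    omega
  · obtain ⟨b, hb, hfb⟩ := hn
    have hb2 := h b hb hfb
    refine h0 (z3_small R hS hb (Or.inr hb2) ?_)
    intro a ha hab
    by_contra hneg
    have h3 := Z3_ne_zero R ha
    have h4 : f a < 0 := by omega
    have h5 := h a ha h4
    apply hab
    rw [z3_eq R ha, z3_eq R hb, h5, hb2]
  · refine h0 (z3_small (rig_neg R) ?_ h1 (Or.inl ?_) ?_)
    · rw [sp_neg, sn_neg]
      omega
    · show -f ((1 : ℤ) • c) = -1
      rw [hf1]
    · intro a ha hab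
      show 0 < -f a
      have h3 := Z3_ne_zero R ha
      by_contra hneg
      have h4 : 0 < f a := by omega
      have h5 := h a ha h4
      apply hab
      rw [z3_eq R ha, h5]

/-- Suppose not. After `rig_neg` we may suppose that `1` is a level (`z3_cls` for `k = 1`).
`z3_signs`: the first case contradicts `hn`; in the second case the negative elements all are
`-2 • c` (one element): `z3_small` with `f b = -2`. In the third case the only positive element is
`1 • c`: `z3_small` for `rig_neg R`, `f b = -1` there. -/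
theorem z3 (R : Rig n m A c K L N f q 0) (hp : ∃ a ∈ A, 0 < f a) (hn : ∃ a ∈ A, f a < 0)
    (hS : (N : ℤ) + 2 ≤ sp f A + sn f A) : (0 : ZMod n) ∈ SigmaStar A := by
  have hq := R.q10
  rcases z3_cls R le_rfl (by omega : 1 ≤ q) with ⟨h1, h2⟩ | ⟨h1, h2⟩
  · have h1' : (1 : ℤ) • c ∈ A := by simpa using h1
    have h2' : f ((1 : ℤ) • c) = 1 := by simpa using h2
    exact Z3_aux R hn hS h1' h2'
  · have e : (-((1 : ℕ) : ℤ)) • c = (1 : ℤ) • (-c) := by simp
    rw [e] at h1 h2
    refine Z3_aux (rig_neg R) ?_ ?_ h1 ?_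
    · obtain ⟨a, ha, hfa⟩ := hp
      exact ⟨a, ha, by show -f a < 0; omega⟩
    · rw [sp_neg, sn_neg]
      omega
    · show -f ((1 : ℤ) • (-c)) = 1
      rw [h2]
      norm_num

end Pool.Agent.helper99.EX
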