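import Pool.Agent.helper99.EX.Cna
import Pool.Agent.helper99.EX.Z2
import Pool.Agent.helper99.EX.Z3

/-! EX-Cnb: the number of nonempty sums of a rigid set (4.6). `J = A.filter (f = 0)`,
`S = sp f A + sn f A`. -/

open Finset Pool.Agent.helper43.Rho Pool.Agent.helper43.Asy Pool.Agent.helper43.Ex

set_option linter.unusedSectionVars false

namespace Pool.Agent.helper99.EX

variable {n m : ℕ} [NeZero n] {A : Finset (ZMod n)} {c : ZMod n} {K L : AddSubgroup (ZMod n)}
  {N : ℕ} {f : ZMod n → ℤ} {q κ : ℕ}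

/-- all the levels `a, ..., b - 1` are full, the level `b` contains `T` -/
private theorem Cnb_sum (h : Lvl c K L N f) {Y : Finset (ZMod n)} {a b : ℤ} (hab : a ≤ b)
    (hN : b - a < N) (hfull : ∀ j, a ≤ j → j < b → ∀ t ∈ K, j • c + t ∈ Y)
    {T : Finset (ZMod n)} (hT : ∀ t ∈ T, t ∈ K ∧ b • c + t ∈ Y) :
    (b - a) * (sf K).card + T.card ≤ Y.card := by
  classical
  have h1 := card_levels h (a := a) (b := b) hN (Y := Y)
    (Z := fun j => if j = b then T else sf K) (by
      intro j hj1 hj2 t ht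
      by_cases hjb : j = b
      · simp only [hjb, if_true] at ht
        rw [hjb]
        exact hT t ht
      · simp only [hjb, if_false] at ht
        exact ⟨(mem_sf t).1 ht, hfull j hj1 (lt_of_le_of_ne hj2 hjb) t ((mem_sf t).1 ht)⟩)
  have hb : b ∈ Finset.Icc a b := Finset.mem_Icc.2 ⟨hab, le_refl b⟩
  rw [← Finset.add_sum_erase _ _ hb] at h1
  have h2 : ∑ j ∈ (Finset.Icc a b).erase b, (if j = b then T else sf K).card =
      ((b - a).toNat) * (sf K).card := by
    rw [Finset.sum_congr rfl (g := fun _ => (sf K).card) (fun j hj => by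
      rw [if_neg (Finset.mem_erase.1 hj).1]), Finset.sum_const, smul_eq_mul,
      Finset.card_erase_of_mem hb, Int.card_Icc]
    congr 1
    omega
  rw [h2] at h1
  simp only [if_true] at h1
  have h3 : ((b - a).toNat : ℤ) = b - a := Int.toNat_of_nonneg (by omega)
  calc (b - a) * ((sf K).card : ℤ) + T.card
      = (((T.card + (b - a).toNat * (sf K).card : ℕ)) : ℤ) := by
        push_cast
        rw [h3]
        ring
    _ ≤ Y.card := by exact_mod_cast h1

/-- the elements of `SS J` are in `K` -/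
private theorem Cnb_J (R : Rig n m A c K L N f q κ) {s : ZMod n}
    (hs : s ∈ SS (A.filter (fun a => f a = 0))) : s ∈ K := by
  refine SS_subset_subgroup ?_ s hs
  intro a ha
  rw [Finset.mem_filter] at ha
  exact (rig_J R ha.1).1 ha.2

/-- the translate of `SS J` on the top level -/
private theorem Cnb_T (R : Rig n m A c K L N f q κ) {z : ZMod n} {b : ℤ} {Y : Finset (ZMod n)}
    (hz : z - b • c ∈ K) (hY : ∀ s ∈ SS (A.filter (fun a => f a = 0)), z + s ∈ Y) :
    ∀ t ∈ (SS (A.filter (fun a => f a = 0))).image (fun s => (z - b • c) + s),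
      t ∈ K ∧ b • c + t ∈ Y := by
  intro t ht
  obtain ⟨s, hs, rfl⟩ := Finset.mem_image.1 ht
  refine ⟨K.add_mem hz (Cnb_J R hs), ?_⟩
  have e : b • c + ((z - b • c) + s) = z + s := by abel
  rw [e]
  exact hY s hs

private theorem Cnb_SS (R : Rig n m A c K L N f q κ) (hS : sp f A + sn f A = N) :
    (2 * κ + 1 : ℤ) * (N - 1) + (SS (A.filter (fun a => f a = 0))).card ≤ (SS A).card := by
  obtain ⟨z, hz, hz2, -⟩ := top_level R
  have hN := lvl_N_pos R.lvl
  have h1 := Cnb_sum R.lvl (Y := SS A) (a := -sn f A + 1) (b := sp f A) (by omega) (by omega)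
    (fun j hj1 hj2 t ht => R.win j hj1 (by omega) t ht) (Cnb_T R hz hz2)
  rw [Finset.card_image_of_injective _ (add_right_injective _), R.mu] at h1
  have e : sp f A - (-sn f A + 1) = (N : ℤ) - 1 := by omega
  rw [e] at h1
  push_cast at h1
  linarith

private theorem Cnb_sn {g : ZMod n → ℤ} (hpos : ∀ a ∈ A, 0 ≤ g a) : sn g A = 0 := by
  unfold sn
  refine Finset.sum_eq_zero (fun a ha => ?_)
  have := hpos a ha
  omega

private theorem Cnb_pos (R : Rig n m A c K L N f q κ) (hpos : ∀ a ∈ A, 0 ≤ f a)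
    (hS : sp f A = N) :
    (2 * κ + 1 : ℤ) * (N - 1) + (SS (A.filter (fun a => f a = 0))).card ≤
      (SigmaStar A).card := by
  obtain ⟨z, hz, -, hz3⟩ := top_level R
  have hN := lvl_N_pos R.lvl
  have hsn := Cnb_sn (g := f) hpos
  have h1 := Cnb_sum R.lvl (Y := SigmaStar A) (a := 1) (b := sp f A) (by omega) (by omega)
    (fun j hj1 hj2 t ht => by
      refine mem_SigmaStar_of (R.win j (by omega) (by omega) t ht) ?_
      intro h0
      have h2 : j • c ∈ K := by
        rw [show j • c = (j • c + t) - t by abel, h0, zero_sub]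
        exact K.neg_mem ht
      have h3 := Int.le_of_dvd (by omega) ((R.lvl.ord j).1 h2)
      omega) (Cnb_T R hz (hz3 (by omega)))
  rw [Finset.card_image_of_injective _ (add_right_injective _), R.mu, hS] at h1
  push_cast at h1
  linarith

/-- `S = N`. If `0 ∈ SigmaStar A` then `SigmaStar A = SS A`; `card_levels` for `Y = SS A` on
`[-sn + 1, sp]` (`N` levels). If `0 ∉ SigmaStar A`: by `z2` there is only one sign, after `rig_neg`
`sn = 0`; `card_levels` for `Y = SigmaStar A` on `[1, sp]`: the elements `j • c + t`, `1 ≤ j < N`, are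
not `0` (`R.lvl.ord`), so they are in `SigmaStar A` (`mem_SigmaStar_of`); level `sp`: `top_level`. -/
theorem cnt_eq (R : Rig n m A c K L N f q κ) (hκ : 1 ≤ κ) (hS : sp f A + sn f A = N) :
    (2 * κ + 1 : ℤ) * (N - 1) + (SS (A.filter (fun a => f a = 0))).card ≤ (SigmaStar A).card := by
  by_cases h0 : (0 : ZMod n) ∈ SigmaStar A
  · rw [SigmaStar_eq h0]
    exact Cnb_SS R hS
  · by_cases hp : ∃ a ∈ A, 0 < f a
    · have hn : ∀ a ∈ A, 0 ≤ f a := by
        intro a ha
        by_contra hcon
        exact h0 (z2 R hκ hp ⟨a, ha, by omega⟩)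
      have hsn := Cnb_sn (g := f) hn
      exact Cnb_pos R hn (by omega)
    · have hp' : ∀ a ∈ A, 0 ≤ (fun x => -f x) a := by
        intro a ha
        by_contra hcon
        apply hp
        refine ⟨a, ha, ?_⟩
        simp only at hcon
        omega
      have hsn := Cnb_sn (g := fun x => -f x) hp'
      have h1 := Cnb_pos (rig_neg R) hp' (by
        rw [sn_neg] at hsn
        rw [sp_neg]
        omega)
      simpa using h1

/-- `κ = 0`, `S = N`: `card_levels` for `Y = SS A` on `[-sn + 1, sp]`, one element on each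
level; `card_SS_le_SigmaStar`. -/
theorem cnt_eq0 (R : Rig n m A c K L N f q 0) (hS : sp f A + sn f A = N) :
    N ≤ (SigmaStar A).card + 1 := by
  have h1 := Cnb_SS R hS
  have h2 := card_SS_le_SigmaStar A
  have h3 : 0 < (SS (A.filter (fun a => f a = 0))).card :=
    Finset.card_pos.2 (SS_nonempty _)
  have h4 : (2 * ((0 : ℕ) : ℤ) + 1) * (N - 1) = N - 1 := by norm_num
  rw [h4] at h1
  omega

/-- One sign, `S ≥ N + 1`: `r = sp - N` satisfies `1 ≤ r < q`. `z = ∑_{a ∈ A, 0 < f a} a` is in
`sp • c + K = r • c + K` (`N • c ∈ K`), the class `r` is full and positive, so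
`z ∈ A`, `f z = r` (`rig_cls_pos`); the sum of the positive elements different from `z` is `0`,
and there are such elements because their levels have the sum `sp - r = N > 0`. -/
theorem one_sign (R : Rig n m A c K L N f q κ) (hpos : ∀ a ∈ A, 0 ≤ f a)
    (hS : (N : ℤ) + 1 ≤ sp f A) : (0 : ZMod n) ∈ SigmaStar A := by
  classical
  have hN := lvl_N_pos R.lvl
  have hsn := Cnb_sn (g := f) hpos
  have hlt := R.Slt
  obtain ⟨k, hk⟩ : ∃ k : ℕ, sp f A = N + k := ⟨(sp f A - N).toNat, by omega⟩
  set P : Finset (ZMod n) := A.filter (fun a => 0 < f a) with hP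
  have hPA : P ⊆ A := Finset.filter_subset _ _
  have hsum : ∑ a ∈ P, f a = sp f A := by
    unfold sp
    rw [hP, Finset.sum_filter]
    refine Finset.sum_congr rfl (fun a ha => ?_)
    have := hpos a ha
    split_ifs with h1
    · omega
    · omega
  have hz1 : (∑ a ∈ P, a) - sp f A • c ∈ K := by
    have e : (∑ a ∈ P, a) - sp f A • c = ∑ a ∈ P, (a - f a • c) := by
      rw [Finset.sum_sub_distrib, ← Finset.sum_smul, hsum]
    rw [e]
    exact AddSubgroup.sum_mem _ (fun a ha => R.lvl.mem a (R.AL a (hPA ha)))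
  have hz2 : (∑ a ∈ P, a) - k • c ∈ K := by
    have h1 : ((N : ℤ)) • c ∈ K := (R.lvl.ord _).2 (dvd_refl _)
    have e : (∑ a ∈ P, a) - k • c = ((∑ a ∈ P, a) - sp f A • c) + (N : ℤ) • c := by
      rw [hk, add_zsmul, natCast_zsmul c k]
      abel
    rw [e]
    exact K.add_mem hz1 h1
  obtain ⟨hzA, hzk⟩ := rig_cls_pos R (k := k) (by omega) (by omega) (by
    intro a ha
    have := hpos a ha
    omega) hz2
  have hzP : (∑ a ∈ P, a) ∈ P := Finset.mem_filter.2 ⟨hzA, by rw [hzk]; omega⟩
  refine mem_SigmaStar.2 ⟨P.erase (∑ a ∈ P, a), (Finset.erase_subset _ _).trans hPA, ?_, ?_⟩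
  · by_contra hne
    rw [Finset.not_nonempty_iff_eq_empty] at hne
    have h1 := Finset.add_sum_erase P f hzP
    rw [hne, Finset.sum_empty, hsum, hzk] at h1
    omega
  · have h1 := Finset.add_sum_erase P (fun a => a) hzP
    simpa using h1

/-- `S ≥ N + 1`: `SS A ⊇ L` (`full_mem`, `R.win` has `S - 1 ≥ N` levels). If
`0 ∈ SigmaStar A` then `SigmaStar A = SS A`. Otherwise both signs occur (`one_sign` for `R` and
`rig_neg R`; with `hpos` the sum `sn` is `0`), `κ = 0` by `z2` and `S ≤ N + 1` by `z3`;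
`card_SS_le_SigmaStar`, `|L| = N` (`R.lvl.card`, `R.mu`). -/
theorem cnt_gt (R : Rig n m A c K L N f q κ) (hS : (N : ℤ) + 1 ≤ sp f A + sn f A) :
    (sf L).card ≤ (SigmaStar A).card ∨
      (κ = 0 ∧ sp f A + sn f A = N + 1 ∧ N ≤ (SigmaStar A).card + 1) := by
  have hLS : sf L ⊆ SS A := by
    intro z hz
    exact full_mem R.lvl R.win (by omega) ((mem_sf z).1 hz)
  have hcL := Finset.card_le_card hLS
  by_cases h0 : (0 : ZMod n) ∈ SigmaStar A
  · left
    rw [SigmaStar_eq h0]
    exact hcL
  · right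
    have hn : ∃ a ∈ A, f a < 0 := by
      by_contra hcon
      push Not at hcon
      have hsn := Cnb_sn (g := f) hcon
      exact h0 (one_sign R hcon (by omega))
    have hp : ∃ a ∈ A, 0 < f a := by
      by_contra hcon
      push Not at hcon
      have hp' : ∀ a ∈ A, 0 ≤ (fun x => -f x) a := by
        intro a ha
        have := hcon a ha
        simp only
        omega
      have hsn := Cnb_sn (g := fun x => -f x) hp'
      rw [sn_neg] at hsn
      refine h0 (one_sign (rig_neg R) hp' ?_)
      rw [sp_neg]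
      omega
    have hκ : κ = 0 := by
      by_contra hκ
      exact h0 (z2 R (by omega) hp hn)
    subst hκ
    have hS2 : sp f A + sn f A = N + 1 := by
      by_contra hne
      exact h0 (z3 R hp hn (by omega))
    refine ⟨rfl, hS2, ?_⟩
    have h1 := card_SS_le_SigmaStar A
    have h2 := R.lvl.card
    rw [R.mu] at h2
    omega

end Pool.Agent.helper99.EX
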