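import Pool.Agent.helper99.EX.Nma

/-! EX-Nmb: numbers (section 4, last lines). -/

open Finset Pool.Agent.helper43.Rho Pool.Agent.helper43.Asy Pool.Agent.helper43.Ex

namespace Pool.Agent.helper99.EX

private theorem Nmb_corr1 {n m : ℕ} (h : (m % 3 = 1 ∧ 3 ∣ n) ∨ (m % 5 = 2 ∧ 5 ∣ n) ∨
    m * (m + 1) / 2 ∣ n) : 1 ≤ corr n m := by
  unfold corr
  split_ifs <;> omega

private theorem Nmb_corr2 {n m : ℕ} (h : (m % 9 = 4 ∧ 9 ∣ n) ∨ m * (m + 1) / 2 - 1 ∣ n) :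
    2 ≤ corr n m := by
  unfold corr
  split_ifs <;> omega

private theorem Nmb_corr4 {n m : ℕ} (h : m % 5 = 2 ∧ m * (m + 1) / 2 - 3 ∣ n) :
    4 ≤ corr n m := by
  unfold corr
  rw [if_pos h]

private theorem Nmb_two (m : ℕ) : 2 * (m * (m + 1) / 2) = m * (m + 1) :=
  Nat.two_mul_div_two_of_even (Nat.even_mul_succ_self m)

private theorem Nmb_big {m : ℕ} (hm : 100 ≤ m) : 5050 ≤ m * (m + 1) / 2 := by
  have h1 := Nmb_two m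
  have h2 : 100 * 101 ≤ m * (m + 1) := Nat.mul_le_mul hm (by omega)
  omega

/-- the value of `V - μ S` -/
private theorem Nmb_V {κ μ m S b V : ℕ} (h : κ ≤ m) (hμ : μ = 2 * κ + 1) (hS : St μ (m - κ) = S)
    (hb : (m - κ) % μ = b) (hV : m * (m + 1) / 2 = V) :
    2 * (V : ℤ) = 2 * (μ * (S : ℤ)) + ((b : ℤ) - κ) * ((b : ℤ) - κ - 1) := by
  subst hμ hS hb hV
  have h1 := St_V h
  have h2 : 2 * ((m * (m + 1) / 2 : ℕ) : ℤ) = (m : ℤ) * (m + 1) := by exact_mod_cast Nmb_two m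
  rw [h2, h1]
  push_cast
  ring

private theorem Nmb_k0 (m : ℕ) : m * (m + 1) / 2 = St 1 m := by
  have h := Nmb_V (κ := 0) (μ := 1) (m := m) (Nat.zero_le _) rfl rfl (Nat.mod_one _) rfl
  rw [Nat.sub_zero] at h
  norm_num at h
  exact_mod_cast h

private theorem Nmb_k1 {m : ℕ} (hm : 100 ≤ m) :
    (m % 3 = 1 ∧ m * (m + 1) / 2 = 3 * St 3 (m - 1) + 1) ∨
      m * (m + 1) / 2 = 3 * St 3 (m - 1) := by
  obtain ⟨b, hb⟩ : ∃ b, (m - 1) % 3 = b := ⟨_, rfl⟩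
  obtain ⟨S, hS⟩ : ∃ S, St 3 (m - 1) = S := ⟨_, rfl⟩
  obtain ⟨V, hV⟩ : ∃ V, m * (m + 1) / 2 = V := ⟨_, rfl⟩
  have h := Nmb_V (κ := 1) (μ := 3) (m := m) (by omega) rfl hS hb hV
  rw [hS, hV]
  clear hS hV
  have hb3 : b < 3 := by omega
  interval_cases b <;> norm_num at h <;> omega

private theorem Nmb_k2 {m : ℕ} (hm : 100 ≤ m) :
    (m % 5 = 2 ∧ m * (m + 1) / 2 = 5 * St 5 (m - 2) + 3) ∨
      m * (m + 1) / 2 = 5 * St 5 (m - 2) ∨ m * (m + 1) / 2 = 5 * St 5 (m - 2) + 1 := by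
  obtain ⟨b, hb⟩ : ∃ b, (m - 2) % 5 = b := ⟨_, rfl⟩
  obtain ⟨S, hS⟩ : ∃ S, St 5 (m - 2) = S := ⟨_, rfl⟩
  obtain ⟨V, hV⟩ : ∃ V, m * (m + 1) / 2 = V := ⟨_, rfl⟩
  have h := Nmb_V (κ := 2) (μ := 5) (m := m) (by omega) rfl hS hb hV
  rw [hS, hV]
  clear hS hV
  have hb3 : b < 5 := by omega
  interval_cases b <;> norm_num at h <;> omega

private theorem Nmb_k3 {m : ℕ} (hm : 100 ≤ m) :
    m * (m + 1) / 2 ≤ 7 * St 7 (m - 3) + 6 := by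
  obtain ⟨b, hb⟩ : ∃ b, (m - 3) % 7 = b := ⟨_, rfl⟩
  obtain ⟨S, hS⟩ : ∃ S, St 7 (m - 3) = S := ⟨_, rfl⟩
  obtain ⟨V, hV⟩ : ∃ V, m * (m + 1) / 2 = V := ⟨_, rfl⟩
  have h := Nmb_V (κ := 3) (μ := 7) (m := m) (by omega) rfl hS hb hV
  rw [hS, hV]
  clear hS hV
  have hb3 : b < 7 := by omega
  interval_cases b <;> norm_num at h <;> omega

private theorem Nmb_k4 {m : ℕ} (hm : 100 ≤ m) :
    (m % 9 = 4 ∧ m * (m + 1) / 2 = 9 * St 9 (m - 4) + 10) ∨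
      m * (m + 1) / 2 ≤ 9 * St 9 (m - 4) + 6 := by
  obtain ⟨b, hb⟩ : ∃ b, (m - 4) % 9 = b := ⟨_, rfl⟩
  obtain ⟨S, hS⟩ : ∃ S, St 9 (m - 4) = S := ⟨_, rfl⟩
  obtain ⟨V, hV⟩ : ∃ V, m * (m + 1) / 2 = V := ⟨_, rfl⟩
  have h := Nmb_V (κ := 4) (μ := 9) (m := m) (by omega) rfl hS hb hV
  rw [hS, hV]
  clear hS hV
  have hb3 : b < 9 := by omega
  interval_cases b <;> norm_num at h <;> omega

private theorem Nmb_mu {κ s1 : ℕ} (hκ : 3 ≤ κ)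
    (h1 : min (2 * κ + 1) (κ * (κ + 1) / 2 + 1) ≤ s1) : 2 * κ + 1 ≤ s1 := by
  have h2 : 4 * κ ≤ κ * (κ + 1) := by nlinarith
  have h3 : 2 * κ ≤ κ * (κ + 1) / 2 := by omega
  rw [min_eq_left (by omega)] at h1
  exact h1

/-- The numbers `s1 = |SS J|`, `s2 = |SigmaStar J|`. `κ = 0`: `V = S` and `s1 + s2 ≥ 1`;
`κ = 1`: `V - 3 S = 1` if `m % 3 = 1` (then `corr ≥ 1`, as `3 ∣ n`), `0` otherwise, `s1 + s2 ≥ 3`;
`κ = 2`: `V - 5 S = 3` if `m % 5 = 2` (`corr ≥ 1`), `≤ 1` otherwise, `s1 + s2 ≥ 7`; `κ = 3`: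
`V - 7 S ≤ 6`, `s1 + s2 ≥ 13`; `κ = 4`: `V - 9 S = 10` if `m % 9 = 4` (`corr ≥ 2`), `≤ 6` otherwise,
`s1 + s2 ≥ 17`; `κ ≥ 5`: `s1, s2 ≥ μ` and `hF`. (`St_V`; `fst_le_corr`.) -/
theorem fin_lt {n m κ s1 s2 : ℕ} (hm : 100 ≤ m) (hκ : κ ≤ m) (hd : 2 * κ + 1 ∣ n)
    (hF : Fst n m ≤ (2 * κ + 1) * (1 + St (2 * κ + 1) (m - κ)))
    (h1 : min (2 * κ + 1) (κ * (κ + 1) / 2 + 1) ≤ s1) (h2 : s1 ≤ s2 + 1)
    (h5 : 5 ≤ κ → s1 ≤ s2) :
    Fst n m ≤ (2 * κ + 1) * (St (2 * κ + 1) (m - κ) - 1) + s1 + s2 := by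
  have hF' := fst_le_corr n m
  have hV := Nmb_big hm
  by_cases h5' : 5 ≤ κ
  · have h3 := Nmb_mu (by omega) h1
    have h4 := h5 h5'
    refine hF.trans ?_
    generalize St (2 * κ + 1) (m - κ) = S
    rcases Nat.eq_zero_or_pos S with hS | hS
    · rw [hS]
      omega
    · obtain ⟨S', rfl⟩ : ∃ S', S = S' + 1 := ⟨S - 1, by omega⟩
      rw [Nat.add_sub_cancel]
      have h6 : (2 * κ + 1) * (1 + (S' + 1)) = (2 * κ + 1) * S' + 2 * (2 * κ + 1) := by ring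
      rw [h6]
      omega
  have h6 : κ = 0 ∨ κ = 1 ∨ κ = 2 ∨ κ = 3 ∨ κ = 4 := by omega
  rcases h6 with rfl | rfl | rfl | rfl | rfl
  · have h7 := Nmb_k0 m
    norm_num at h1 ⊢
    omega
  · norm_num at h1 hd ⊢
    rcases Nmb_k1 hm with ⟨h7, h8⟩ | h7
    · have h9 : 1 ≤ corr n m := Nmb_corr1 (Or.inl ⟨h7, hd⟩)
      omega
    · omega
  · norm_num at h1 hd ⊢
    rcases Nmb_k2 hm with ⟨h7, h8⟩ | h7 | h7
    · have h9 : 1 ≤ corr n m := Nmb_corr1 (Or.inr (Or.inl ⟨h7, hd⟩))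
      omega
    · omega
    · omega
  · norm_num at h1 hd ⊢
    have h7 := Nmb_k3 hm
    omega
  · norm_num at h1 hd ⊢
    rcases Nmb_k4 hm with ⟨h7, h8⟩ | h7
    · have h9 : 2 ≤ corr n m := Nmb_corr2 (Or.inl ⟨h7, hd⟩)
      omega
    · omega

/-- `κ ≥ 1`, `|L| = μ N` divides `n`, `S ≤ N`. `κ ≥ 3`: `s1 ≥ μ`, `hL`. `κ = 1, 2`: if
`S + 1 ≤ N`: `V ≤ μ S + s1` (`V ≤ 3 S + 1`, `s1 ≥ 2`; `V ≤ 5 S + 3`, `s1 ≥ 4`). If `N = S`:
`μ N = V - d` with `d ∈ {0, 1}`, or `κ = 2`, `m % 5 = 2`, `d = 3` (`St_V`); `V - d ∣ n`, so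
`corr ≥ d + 1` and `Fst ≤ μ N - 1`. -/
theorem fin_eq {n m κ s1 N : ℕ} (hm : 100 ≤ m) (hκ : 1 ≤ κ) (hκm : κ ≤ m)
    (hd : (2 * κ + 1) * N ∣ n) (hL : Fst n m ≤ (2 * κ + 1) * N)
    (hN : St (2 * κ + 1) (m - κ) ≤ N)
    (h1 : min (2 * κ + 1) (κ * (κ + 1) / 2 + 1) ≤ s1) :
    Fst n m ≤ (2 * κ + 1) * (N - 1) + s1 := by
  have hF' := fst_le_corr n m
  have hV := Nmb_big hm
  by_cases h3' : 3 ≤ κ
  · have h3 := Nmb_mu h3' h1
    refine hL.trans ?_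
    rcases Nat.eq_zero_or_pos N with hN0 | hN0
    · rw [hN0]
      omega
    · obtain ⟨N', rfl⟩ : ∃ N', N = N' + 1 := ⟨N - 1, by omega⟩
      rw [Nat.add_sub_cancel, mul_add, mul_one]
      omega
  have h6 : κ = 1 ∨ κ = 2 := by omega
  rcases h6 with rfl | rfl
  · norm_num at h1 hd hN ⊢
    rcases Nmb_k1 hm with ⟨h7, h8⟩ | h7
    · by_cases h10 : St 3 (m - 1) + 1 ≤ N
      · omega
      · have h9 : 2 ≤ corr n m := Nmb_corr2 (Or.inr (by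
          have h11 : m * (m + 1) / 2 - 1 = 3 * N := by omega
          rw [h11]
          exact hd))
        omega
    · by_cases h10 : St 3 (m - 1) + 1 ≤ N
      · omega
      · have h9 : 1 ≤ corr n m := Nmb_corr1 (Or.inr (Or.inr (by
          have h11 : m * (m + 1) / 2 = 3 * N := by omega
          rw [h11]
          exact hd)))
        omega
  · norm_num at h1 hd hN ⊢
    rcases Nmb_k2 hm with ⟨h7, h8⟩ | h7 | h7
    · by_cases h10 : St 5 (m - 2) + 1 ≤ N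
      · omega
      · have h9 : 4 ≤ corr n m := Nmb_corr4 ⟨h7, by
          have h11 : m * (m + 1) / 2 - 3 = 5 * N := by omega
          rw [h11]
          exact hd⟩
        omega
    · by_cases h10 : St 5 (m - 2) + 1 ≤ N
      · omega
      · have h9 : 1 ≤ corr n m := Nmb_corr1 (Or.inr (Or.inr (by
          have h11 : m * (m + 1) / 2 = 5 * N := by omega
          rw [h11]
          exact hd)))
        omega
    · by_cases h10 : St 5 (m - 2) + 1 ≤ N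
      · omega
      · have h9 : 2 ≤ corr n m := Nmb_corr2 (Or.inr (by
          have h11 : m * (m + 1) / 2 - 1 = 5 * N := by omega
          rw [h11]
          exact hd))
        omega

/-- `κ = 0`, `V ≤ N`: if `V < N` then `Fst ≤ V ≤ N - 1`; if `V = N` then `V ∣ n`, `corr ≥ 1`. -/
theorem fin_eq0 {n m N : ℕ} (hm : 100 ≤ m) (hd : N ∣ n) (hN : m * (m + 1) / 2 ≤ N) :
    Fst n m ≤ N - 1 := by
  have hF' := fst_le_corr n m
  have hV := Nmb_big hm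
  rcases hN.lt_or_eq with h1 | h1
  · omega
  · have h9 : 1 ≤ corr n m := Nmb_corr1 (Or.inr (Or.inr (by rw [h1]; exact hd)))
    omega

/-- `κ = 0`, `V ≤ N + 1`: `N ≥ V + 1`: clear; `N = V`: `corr ≥ 1`; `N = V - 1`: `corr ≥ 2`. -/
theorem fin_gt0 {n m N : ℕ} (hm : 100 ≤ m) (hd : N ∣ n) (hN : m * (m + 1) / 2 ≤ N + 1) :
    Fst n m ≤ N - 1 := by
  have hF' := fst_le_corr n m
  have hV := Nmb_big hm
  rcases (by omega : m * (m + 1) / 2 + 1 ≤ N ∨ m * (m + 1) / 2 = N ∨ m * (m + 1) / 2 - 1 = N) with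
    h1 | h1 | h1
  · omega
  · have h9 : 1 ≤ corr n m := Nmb_corr1 (Or.inr (Or.inr (by rw [h1]; exact hd)))
    omega
  · have h9 : 2 ≤ corr n m := Nmb_corr2 (Or.inr (by rw [h1]; exact hd))
    omega

end Pool.Agent.helper99.EX
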