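import Pool.Agent.helper99.EX.Rg4
import Pool.Agent.helper99.EX.Cnb
import Pool.Agent.helper99.EX.Nmb

/-! EX-T8: Theorem I (section 4 of the paper proof). -/

open Finset Pool.Agent.helper43.Rho Pool.Agent.helper43.Asy Pool.Agent.helper43.Ex

set_option linter.unusedSectionVars false

namespace Pool.Agent.helper99.EX

variable {n m : ℕ} [NeZero n] {A F : Finset (ZMod n)} {c : ZMod n} {K L : AddSubgroup (ZMod n)}
  {N : ℕ} {f : ZMod n → ℤ} {Q : ℕ}

/-- the sums of `J = A ∩ K` -/
theorem rig_SS_J {q κ : ℕ} (R : Rig n m A c K L N f q κ) :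
    min (2 * κ + 1) (κ * (κ + 1) / 2 + 1) ≤ (SS (A.filter (fun a => f a = 0))).card ∧
    (SS (A.filter (fun a => f a = 0))).card ≤
      (SigmaStar (A.filter (fun a => f a = 0))).card + 1 ∧
    (5 ≤ κ → (SS (A.filter (fun a => f a = 0))).card ≤
      (SigmaStar (A.filter (fun a => f a = 0))).card) := by
  obtain ⟨g, hg1, hg2⟩ := exists_gen K
  rw [R.mu] at hg2
  have hJ : Asym (A.filter (fun a => f a = 0)) := R.asym.subset (Finset.filter_subset _ _)
  have hJK : ∀ j ∈ A.filter (fun a => f a = 0), j ∈ K := by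
    intro j hj
    rw [Finset.mem_filter] at hj
    exact (rig_J R hj.1).1 hj.2
  refine ⟨?_, card_SS_le_SigmaStar _, ?_⟩
  · exact card_SS_half rfl hg2 hJ (fun j hj => by rw [hg1]; exact hJK j hj) R.J.ge
  · intro h5
    have h1 := zs_sub hJ hJK (by rw [R.mu]; omega) (by rw [R.mu, R.J]; omega)
    rw [SigmaStar_eq h1]

/-- a rigid set has at least `Fst n m` nonempty sums -/
theorem rig_lower {q κ : ℕ} (R : Rig n m A c K L N f q κ) : Fst n m ≤ (SigmaStar A).card := by
  obtain ⟨h1, h2, h3⟩ := rig_SS_J R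
  have hm := R.hm
  have hκ : κ ≤ m := by
    rw [← R.card, ← R.J]
    exact Finset.card_le_card (Finset.filter_subset _ _)
  have hd : 2 * κ + 1 ∣ n := by
    rw [← R.mu]
    exact card_sf_dvd K
  have hLd : (2 * κ + 1) * N ∣ n := by
    have h := card_sf_dvd L
    rw [R.lvl.card, R.mu, Nat.mul_comm] at h
    exact h
  have hFL : Fst n m ≤ (2 * κ + 1) * N := by
    have h := fst_le_L R.asym R.card R.AL
    rw [R.lvl.card, R.mu, Nat.mul_comm] at h
    exact h
  have hF : Fst n m ≤ (2 * κ + 1) * (1 + St (2 * κ + 1) (m - κ)) := by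
    have h := fst_le_St K m (n := n)
    rw [R.mu] at h
    have e : (2 * κ + 1 - 1) / 2 = κ := by omega
    rw [e] at h
    exact h
  have hN0 := lvl_N_pos R.lvl
  have hSge := R.Sge
  obtain ⟨S, hS⟩ : ∃ S : ℕ, sp f A + sn f A = S := ⟨_, Pool.Agent.helper99.EX.sp_add_sn f A⟩
  obtain ⟨T, hT⟩ : ∃ T, T = St (2 * κ + 1) (m - κ) := ⟨_, rfl⟩
  have hTS : T ≤ S := by
    rw [hS, ← hT] at hSge
    exact_mod_cast hSge
  rcases lt_trichotomy S N with hlt | heq | hgt
  · -- `S < N`
    have h4 := cnt_lt R (by rw [hS]; exact_mod_cast hlt)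
    have h5 := fin_lt hm hκ hd hF h1 h2 h3
    rw [← hT] at h5
    rw [hS] at h4
    refine h5.trans ?_
    have h6 : (2 * κ + 1) * (T - 1) ≤ (2 * κ + 1) * (S - 1) := Nat.mul_le_mul_left _ (by omega)
    have h7 : 1 ≤ S := by
      have := rig_S R
      omega
    have h8 : ((2 * κ + 1) * (S - 1) + (SS (A.filter (fun a => f a = 0))).card +
        (SigmaStar (A.filter (fun a => f a = 0))).card : ℕ) ≤ (SigmaStar A).card := by
      zify [h7]
      exact h4
    omega
  · -- `S = N`
    subst heq
    rcases Nat.eq_zero_or_pos κ with h0 | h0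
    · subst h0
      have h4 := cnt_eq0 R hS
      have h5 : m * (m + 1) / 2 ≤ S := by
        rw [← St_one]
        rw [hT] at hTS
        simpa using hTS
      have h6 := fin_eq0 (n := n) hm (by simpa using hLd) h5
      omega
    · have h4 := cnt_eq R h0 hS
      have h5 := fin_eq hm h0 hκ hLd hFL (by rw [← hT]; exact hTS) h1
      have h8 : ((2 * κ + 1) * (S - 1) + (SS (A.filter (fun a => f a = 0))).card : ℕ) ≤
          (SigmaStar A).card := by
        zify [hN0]
        exact h4
      omega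
  · -- `S > N`
    rcases cnt_gt R (by rw [hS]; exact_mod_cast hgt) with h4 | ⟨h0, h5, h6⟩
    · have h := fst_le_L R.asym R.card R.AL
      exact h.trans h4
    · subst h0
      have h7 : m * (m + 1) / 2 ≤ N + 1 := by
        rw [← St_one]
        rw [hS] at h5
        have h8 : S = N + 1 := by exact_mod_cast h5
        rw [hT] at hTS
        rw [← h8]
        simpa using hTS
      have h8 := fin_gt0 (n := n) hm (by simpa using hLd) h7
      omega

/-- Theorem I -/
theorem lower_reg (h : Reg n m A F c K L N f Q) : Fst n m ≤ (SigmaStar A).card := by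
  by_contra hcon
  push Not at hcon
  obtain ⟨q, κ, R⟩ := rig_of_reg h hcon
  exact absurd (rig_lower R) (by omega)

end Pool.Agent.helper99.EX
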