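import Pool.Agent.helper99.EX.UpK

/-! EX-U: all the upper bounds. -/

open Finset Pool.Agent.helper43.Rho Pool.Agent.helper43.Asy Pool.Agent.helper43.Ex

namespace Pool.Agent.helper99.EX

theorem constr3 {N μ a : ℕ} {J P1 P2 : Finset ℕ} (hN : 2 * a < N) (hμ : 0 < μ) (ha : 1 ≤ a)
    (hJ : ∀ j ∈ J, 1 ≤ j ∧ j < μ) (hJas : ∀ i ∈ J, ∀ j ∈ J, ¬ μ ∣ i + j)
    (hP1 : ∀ C ⊆ J, C.Nonempty → (∑ i ∈ C, i) % μ ∈ P1)
    (hP2 : ∀ C ⊆ J, (∑ i ∈ C, i) % μ ∈ P2) :
    ∃ A : Finset (ZMod (N * μ)), A.card = J.card + a * μ ∧ (∀ a ∈ A, -a ∉ A) ∧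
      (SigmaStar A).card ≤ P1.card + P2.card + (μ * (a * (a + 1) / 2) - 1) * μ := by
  classical
  have hN1 : a < N := by omega
  set S := μ * (a * (a + 1) / 2) with hS
  have hS1 : 1 ≤ S := by
    have h1 : 1 ≤ a * (a + 1) / 2 := by
      have : 1 * 2 ≤ a * (a + 1) := Nat.mul_le_mul ha (by omega)
      omega
    exact Nat.mul_pos hμ h1
  set D := a * ∑ i ∈ Finset.range μ, i with hD
  refine ⟨(T3 N μ a J).image (fun y : ℕ => (y : ZMod (N * μ))), ?_, ?_, ?_⟩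
  · rw [card_image_cast (T3_lt hN1 hJ), card_T3 hN1]
  · exact asym_image (T3_pair hN hJas)
  · have hsub : SigmaStar ((T3 N μ a J).image (fun y : ℕ => (y : ZMod (N * μ)))) ⊆
        ((P1.image (fun p => ((N * p : ℕ) : ZMod (N * μ)))) ∪
          (P2.image (fun p => ((N * (D + p) + S : ℕ) : ZMod (N * μ))))) ∪
        ((Finset.Icc 1 (S - 1) ×ˢ Finset.range μ).image
          (fun q => ((N * q.2 + q.1 : ℕ) : ZMod (N * μ)))) := by
      intro x hx
      obtain ⟨B, hB, hne, rfl⟩ := mem_SigmaStar_image (T3_lt hN1 hJ) hx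
      obtain ⟨w, p, h1, h2, h3, h4⟩ := T3_sum hN1 hB hne
      rw [h1]
      rw [← hS] at h2 h4
      have hmod : ∀ s c : ℕ, N * (s % μ) + c ≡ N * s + c [MOD N * μ] :=
        fun s c => Nat.ModEq.add_right _ (Nat.ModEq.mul_left' N (Nat.mod_modEq _ _))
      rw [Finset.mem_union, Finset.mem_union]
      by_cases hw : w = 0
      · obtain ⟨C, hC, hCne, hp⟩ := h3 hw
        left; left
        rw [Finset.mem_image]
        refine ⟨(∑ i ∈ C, i) % μ, hP1 C hC hCne, ?_⟩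
        rw [ZMod.natCast_eq_natCast_iff, hw, hp]
        exact hmod _ 0
      · by_cases hw2 : w = S
        · obtain ⟨C, hC, hp⟩ := h4 hw2
          left; right
          rw [Finset.mem_image]
          refine ⟨(∑ i ∈ C, i) % μ, hP2 C hC, ?_⟩
          rw [ZMod.natCast_eq_natCast_iff, hw2, hp]
          apply Nat.ModEq.add_right
          apply Nat.ModEq.mul_left'
          exact Nat.ModEq.add_left _ (Nat.mod_modEq _ _)
        · right
          rw [Finset.mem_image]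
          refine ⟨(w, p % μ), ?_, ?_⟩
          · rw [Finset.mem_product, Finset.mem_Icc, Finset.mem_range]
            exact ⟨⟨by omega, by omega⟩, Nat.mod_lt _ hμ⟩
          · rw [ZMod.natCast_eq_natCast_iff]
            exact hmod p w
    refine (Finset.card_le_card hsub).trans ((Finset.card_union_le _ _).trans ?_)
    have h1 : (((P1.image (fun p => ((N * p : ℕ) : ZMod (N * μ)))) ∪
          (P2.image (fun p => ((N * (D + p) + S : ℕ) : ZMod (N * μ)))))).card ≤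
          P1.card + P2.card :=
      (Finset.card_union_le _ _).trans (Nat.add_le_add Finset.card_image_le Finset.card_image_le)
    have h2 : ((Finset.Icc 1 (S - 1) ×ˢ Finset.range μ).image
          (fun q => ((N * q.2 + q.1 : ℕ) : ZMod (N * μ)))).card ≤ (S - 1) * μ := by
      refine Finset.card_image_le.trans ?_
      rw [Finset.card_product, Nat.card_Icc, Finset.card_range, Nat.add_sub_cancel]
    exact Nat.add_le_add h1 h2

theorem up_3 {n m : ℕ} (hm : 4 ≤ m) (hn : 2 * m < n) (h3 : m % 3 = 1) (hd : 3 ∣ n) :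
    ∃ A : Finset (ZMod n), A.card = m ∧ (∀ a ∈ A, -a ∉ A) ∧
      (SigmaStar A).card ≤ m * (m + 1) / 2 - 1 := by
  obtain ⟨N, rfl⟩ := hd
  obtain ⟨a, rfl⟩ : ∃ a, m = 3 * a + 1 := ⟨m / 3, by omega⟩
  rw [mul_comm 3 N]
  obtain ⟨A, h1, h2, h4⟩ := constr3 (N := N) (μ := 3) (a := a) (J := {1}) (P1 := {1})
    (P2 := {0, 1}) (by omega) (by norm_num) (by omega) (by decide) (by decide) (by decide)
    (by decide)
  refine ⟨A, ?_, h2, h4.trans ?_⟩
  · rw [h1]
    simp only [Finset.card_singleton]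
    omega
  · have e1 : (3 * a + 1) * (3 * a + 1 + 1) = 9 * (a * (a + 1)) + 2 := by ring
    obtain ⟨k, hk⟩ := Nat.even_mul_succ_self a
    rw [e1, hk]
    have : 1 ≤ k := by
      have : 1 * 1 ≤ a * (a + 1) := Nat.mul_le_mul (by omega) (by omega)
      omega
    have e2 : ({1} : Finset ℕ).card = 1 := rfl
    have e3 : ({0, 1} : Finset ℕ).card = 2 := rfl
    rw [e2, e3]
    omega

theorem up_5 {n m : ℕ} (hm : 5 ≤ m) (hn : 2 * m < n) (h5 : m % 5 = 2) (hd : 5 ∣ n) :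
    ∃ A : Finset (ZMod n), A.card = m ∧ (∀ a ∈ A, -a ∉ A) ∧
      (SigmaStar A).card ≤ m * (m + 1) / 2 - 1 := by
  obtain ⟨N, rfl⟩ := hd
  obtain ⟨a, rfl⟩ : ∃ a, m = 5 * a + 2 := ⟨m / 5, by omega⟩
  rw [mul_comm 5 N]
  obtain ⟨A, h1, h2, h4⟩ := constr3 (N := N) (μ := 5) (a := a) (J := {1, 2}) (P1 := {1, 2, 3})
    (P2 := {0, 1, 2, 3}) (by omega) (by norm_num) (by omega) (by decide) (by decide) (by decide)
    (by decide)
  have e2 : ({1, 2, 3} : Finset ℕ).card = 3 := rfl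
  have e3 : ({0, 1, 2, 3} : Finset ℕ).card = 4 := rfl
  have e4 : ({1, 2} : Finset ℕ).card = 2 := rfl
  refine ⟨A, ?_, h2, h4.trans ?_⟩
  · rw [h1, e4]
    omega
  · have e1 : (5 * a + 2) * (5 * a + 2 + 1) = 25 * (a * (a + 1)) + 6 := by ring
    obtain ⟨k, hk⟩ := Nat.even_mul_succ_self a
    rw [e1, hk]
    have : 1 ≤ k := by
      have : 1 * 1 ≤ a * (a + 1) := Nat.mul_le_mul (by omega) (by omega)
      omega
    rw [e2, e3]
    omega

theorem up_9 {n m : ℕ} (hm : 5 ≤ m) (hn : 2 * m < n) (h9 : m % 9 = 4) (hd : 9 ∣ n) :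
    ∃ A : Finset (ZMod n), A.card = m ∧ (∀ a ∈ A, -a ∉ A) ∧
      (SigmaStar A).card ≤ m * (m + 1) / 2 - 2 := by
  obtain ⟨N, rfl⟩ := hd
  obtain ⟨a, rfl⟩ : ∃ a, m = 9 * a + 4 := ⟨m / 9, by omega⟩
  rw [mul_comm 9 N]
  obtain ⟨A, h1, h2, h4⟩ := constr3 (N := N) (μ := 9) (a := a) (J := {1, 7, 3, 4})
    (P1 := {1, 2, 3, 4, 5, 6, 7, 8})
    (P2 := {0, 1, 2, 3, 4, 5, 6, 7, 8}) (by omega) (by norm_num) (by omega) (by decide)
    (by decide) (by decide) (by decide)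
  have e2 : ({1, 2, 3, 4, 5, 6, 7, 8} : Finset ℕ).card = 8 := rfl
  have e3 : ({0, 1, 2, 3, 4, 5, 6, 7, 8} : Finset ℕ).card = 9 := rfl
  have e4 : ({1, 7, 3, 4} : Finset ℕ).card = 4 := rfl
  refine ⟨A, ?_, h2, h4.trans ?_⟩
  · rw [h1, e4]
    omega
  · have e1 : (9 * a + 4) * (9 * a + 4 + 1) = 81 * (a * (a + 1)) + 20 := by ring
    obtain ⟨k, hk⟩ := Nat.even_mul_succ_self a
    rw [e1, hk]
    have : 1 ≤ k := by
      have : 1 * 1 ≤ a * (a + 1) := Nat.mul_le_mul (by omega) (by omega)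
      omega
    rw [e2, e3]
    omega

/-- `d = V - 3 = 5 S` divides `n`, `m = 5 a + 2`: the set of `T3` with `N = S`, in the subgroup of
order `d` -/
theorem up_dV3 {n m : ℕ} (hm : 5 ≤ m) (hn : 0 < n) (h5 : m % 5 = 2)
    (hd : m * (m + 1) / 2 - 3 ∣ n) :
    ∃ A : Finset (ZMod n), A.card = m ∧ (∀ a ∈ A, -a ∉ A) ∧
      (SigmaStar A).card ≤ m * (m + 1) / 2 - 4 := by
  obtain ⟨a, rfl⟩ : ∃ a, m = 5 * a + 2 := ⟨m / 5, by omega⟩
  have e1 : (5 * a + 2) * (5 * a + 2 + 1) = 25 * (a * (a + 1)) + 6 := by ring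
  obtain ⟨k, hk⟩ := Nat.even_mul_succ_self a
  have hk1 : 1 ≤ k := by
    have : 1 * 1 ≤ a * (a + 1) := Nat.mul_le_mul (by omega) (by omega)
    omega
  have hS : 5 * (a * (a + 1) / 2) = 5 * k := by
    rw [hk]
    omega
  have hd1 : (5 * a + 2) * (5 * a + 2 + 1) / 2 - 3 = 5 * k * 5 := by
    rw [e1, hk]
    omega
  have hd4 : (5 * a + 2) * (5 * a + 2 + 1) / 2 - 4 = 5 * k * 5 - 1 := by
    rw [e1, hk]
    omega
  rw [hd1] at hd
  rw [hd4]
  have hak : a ≤ k := by nlinarith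
  have e4 : ({1, 2} : Finset ℕ).card = 2 := rfl
  apply up_sub hn hd (T := T3 (5 * k) 5 a {1, 2})
  · exact T3_lt (by omega) (by decide)
  · rw [card_T3 (by omega), e4]
    omega
  · exact T3_pair (by omega) (by decide)
  · intro B hB hne hdv
    obtain ⟨w, p, h1, h2, h3, h4⟩ := T3_sum (by omega) hB hne
    rw [h1] at hdv
    rw [hS] at h2 h4
    have h6 : 5 * k ∣ w := by
      have h7 : 5 * k ∣ 5 * k * p + w := (Dvd.intro _ rfl : 5 * k ∣ 5 * k * 5).trans hdv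
      exact (Nat.dvd_add_right (Dvd.intro _ rfl)).1 h7
    rcases Nat.eq_zero_or_pos w with hw | hw
    · obtain ⟨C, hC, hCne, hp⟩ := h3 hw
      rw [hw, add_zero] at hdv
      have h8 : 5 ∣ p := Nat.dvd_of_mul_dvd_mul_left (by omega) hdv
      rw [hp] at h8
      revert h8
      have : ∀ C ⊆ ({1, 2} : Finset ℕ), C.Nonempty → ¬ 5 ∣ ∑ i ∈ C, i := by decide
      exact this C hC hCne
    · have hw2 : w = 5 * k := le_antisymm h2 (Nat.le_of_dvd hw h6)
      obtain ⟨C, hC, hp⟩ := h4 hw2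
      have h7 : 5 * k * p + w = 5 * k * (p + 1) := by
        rw [hw2]
        ring
      rw [h7] at hdv
      have h8 : 5 ∣ p + 1 := Nat.dvd_of_mul_dvd_mul_left (by omega) hdv
      have e5 : ∑ i ∈ Finset.range 5, i = 10 := rfl
      rw [hp, e5] at h8
      have h9 : 5 ∣ ∑ i ∈ C, i + 1 := by
        have h10 : a * 10 + ∑ i ∈ C, i + 1 = 5 * (2 * a) + (∑ i ∈ C, i + 1) := by ring
        rw [h10] at h8
        exact (Nat.dvd_add_right (Dvd.intro _ rfl)).1 h8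
      revert h9
      have : ∀ C ⊆ ({1, 2} : Finset ℕ), ¬ 5 ∣ ∑ i ∈ C, i + 1 := by decide
      exact this C hC

/-- the upper bound -/
theorem upper {n m : ℕ} (hm : 5 ≤ m) (hn : 2 * m < n) :
    ∃ A : Finset (ZMod n), A.card = m ∧ (∀ a ∈ A, -a ∉ A) ∧ (SigmaStar A).card ≤ Fst n m := by
  have hn0 : 0 < n := by omega
  have h1 : ∃ A : Finset (ZMod n), A.card = m ∧ (∀ a ∈ A, -a ∉ A) ∧
      (SigmaStar A).card ≤ m * (m + 1) / 2 - corr n m := by
    unfold corr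
    split_ifs with h4 h2 h1
    · exact up_dV3 hm hn0 h4.1 h4.2
    · rcases h2 with h2 | h2
      · exact up_9 hm hn h2.1 h2.2
      · exact up_dV1 hm hn0 h2
    · rcases h1 with h1 | h1 | h1
      · exact up_3 (by omega) hn h1.1 h1.2
      · exact up_5 hm hn h1.1 h1.2
      · exact up_dV (by omega) hn0 h1
    · exact up_V hn
  have h2 : ∃ A : Finset (ZMod n), A.card = m ∧ (∀ a ∈ A, -a ∉ A) ∧
      (SigmaStar A).card ≤ FF n m := by
    have hne : {v : ℕ | ∃ h : ℕ, h ∣ n ∧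
        v = h * (1 + ∑ i ∈ Finset.range (m - (h - 1) / 2), (i / h + 1))}.Nonempty :=
      ⟨_, n, dvd_rfl, rfl⟩
    obtain ⟨h, hh, hF⟩ := Nat.sInf_mem hne
    unfold FF
    rw [hF]
    exact upper2 hn hh
  unfold Fst
  rcases min_choice (FF n m) (m * (m + 1) / 2 - corr n m) with h | h
  · rw [h]
    exact h2
  · rw [h]
    exact h1

end Pool.Agent.helper99.EX
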