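import Pool.Agent.helper99.EX.Rig

/-! EX-Cna: the number of nonempty sums of a rigid set (4.6). `J = A.filter (f = 0)`,
`S = sp f A + sn f A`. -/

open Finset Pool.Agent.helper43.Rho Pool.Agent.helper43.Asy Pool.Agent.helper43.Ex

set_option linter.unusedSectionVars false

namespace Pool.Agent.helper99.EX

variable {n m : ℕ} [NeZero n] {A : Finset (ZMod n)} {c : ZMod n} {K L : AddSubgroup (ZMod n)}
  {N : ℕ} {f : ZMod n → ℤ} {q κ : ℕ}

/-- auxiliary: a sum of elements and the sum of the levels -/
private theorem cna_sum_lev {c : ZMod n} {K : AddSubgroup (ZMod n)} {F : Finset (ZMod n)}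
    {f : ZMod n → ℤ} (hf : ∀ x ∈ F, x - f x • c ∈ K) :
    (∑ x ∈ F, x) - (∑ x ∈ F, f x) • c ∈ K := by
  rw [Finset.sum_smul, ← Finset.sum_sub_distrib]
  exact K.sum_mem hf

private theorem cna_sp (f : ZMod n → ℤ) (F : Finset (ZMod n)) :
    sp f F = ∑ x ∈ F.filter (fun a => 0 < f a), f x := by
  unfold sp
  rw [Finset.sum_filter]
  apply Finset.sum_congr rfl
  intro x _
  split_ifs with h
  · exact max_eq_left h.le
  · exact max_eq_right (not_lt.1 h)

/-- The top level: `z = ∑_{a ∈ A, 0 < f a} a` satisfies `z - sp • c ∈ K`, and `z + s ∈ SS A` for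
`s ∈ SS J`; these sums are in `SigmaStar A` if `0 < sp` (the positive part is nonempty). -/
theorem top_level (R : Rig n m A c K L N f q κ) :
    ∃ z, z - sp f A • c ∈ K ∧ (∀ s ∈ SS (A.filter (fun a => f a = 0)), z + s ∈ SS A) ∧
      (0 < sp f A → ∀ s ∈ SS (A.filter (fun a => f a = 0)), z + s ∈ SigmaStar A) := by
  have key : ∀ T ⊆ A.filter (fun a => f a = 0),
      (A.filter (fun a => 0 < f a)) ∪ T ⊆ A ∧
        ∑ b ∈ (A.filter (fun a => 0 < f a)) ∪ T, b
          = (∑ b ∈ A.filter (fun a => 0 < f a), b) + ∑ b ∈ T, b := by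
    intro T hT
    refine ⟨Finset.union_subset (Finset.filter_subset _ _)
      (hT.trans (Finset.filter_subset _ _)), ?_⟩
    apply Finset.sum_union
    rw [Finset.disjoint_left]
    intro x hx hxT
    have h1 := (Finset.mem_filter.1 hx).2
    have h2 := (Finset.mem_filter.1 (hT hxT)).2
    omega
  refine ⟨∑ b ∈ A.filter (fun a => 0 < f a), b, ?_, ?_, ?_⟩
  · rw [cna_sp]
    apply cna_sum_lev
    intro x hx
    exact R.lvl.mem x (R.AL x (Finset.mem_filter.1 hx).1)
  · intro s hs
    obtain ⟨T, hT, rfl⟩ := mem_SS.1 hs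
    obtain ⟨h1, h2⟩ := key T hT
    exact mem_SS.2 ⟨_, h1, h2⟩
  · intro hpos s hs
    obtain ⟨T, hT, rfl⟩ := mem_SS.1 hs
    obtain ⟨h1, h2⟩ := key T hT
    refine mem_SigmaStar.2 ⟨_, h1, ?_, h2⟩
    have h3 : (A.filter (fun a => 0 < f a)).Nonempty := by
      by_contra h
      rw [Finset.not_nonempty_iff_eq_empty] at h
      rw [cna_sp, h, Finset.sum_empty] at hpos
      exact lt_irrefl _ hpos
    exact h3.mono Finset.subset_union_left

/-- `top_level` for `rig_neg R`. -/
theorem bot_level (R : Rig n m A c K L N f q κ) :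
    ∃ z, z - (-sn f A) • c ∈ K ∧ (∀ s ∈ SS (A.filter (fun a => f a = 0)), z + s ∈ SS A) := by
  obtain ⟨z, h1, h2, _⟩ := top_level (rig_neg R)
  have e : A.filter (fun a => -f a = 0) = A.filter (fun a => f a = 0) := by
    apply Finset.filter_congr
    intro x _
    exact neg_eq_zero
  refine ⟨z, ?_, ?_⟩
  · rw [sp_neg, zsmul_neg, ← neg_zsmul] at h1
    exact h1
  · intro s hs
    apply h2
    rw [e]
    exact hs

/-- `S ≥ 2` (class 1 and class 2 are nonempty) -/
theorem rig_S (R : Rig n m A c K L N f q κ) : 2 ≤ sp f A + sn f A := by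
  rw [sp_add_sn]
  have hq := R.q10
  have h2 := R.cls 2 (by omega) (by omega)
  have hne : (A.filter (fun a => (f a).natAbs = 2)).Nonempty := by
    rw [← Finset.card_pos, h2]
    omega
  obtain ⟨x, hx⟩ := hne
  rw [Finset.mem_filter] at hx
  have h3 : (f x).natAbs ≤ ∑ x ∈ A, (f x).natAbs :=
    Finset.single_le_sum (f := fun x => (f x).natAbs) (fun _ _ => Nat.zero_le _) hx.1
  rw [hx.2] at h3
  exact_mod_cast h3

/-- `card_levels` for `Y = SS A` on `[-sn, sp]` (`S + 1 ≤ N` levels): `Z j = sf K` for
`-sn < j < sp` (`R.win`), and on the levels `sp`, `-sn` the translates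
`{(z - j • c) + s : s ∈ SS J}` of `SS J` (`SS J ⊆ K`, `SS_subset_subgroup`). -/
theorem cnt_SS (R : Rig n m A c K L N f q κ) (hS : sp f A + sn f A < N) :
    (2 * κ + 1 : ℤ) * (sp f A + sn f A - 1) + 2 * (SS (A.filter (fun a => f a = 0))).card ≤
      (SS A).card := by
  have hS2 := rig_S R
  obtain ⟨z, hz1, hz2, _⟩ := top_level R
  obtain ⟨w, hw1, hw2⟩ := bot_level R
  have hJK : ∀ x ∈ SS (A.filter (fun a => f a = 0)), x ∈ K := by
    apply SS_subset_subgroup
    intro a ha
    rw [Finset.mem_filter] at ha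
    exact (rig_J R ha.1).1 ha.2
  set J := A.filter (fun a => f a = 0) with hJ
  have hbt : -sn f A < sp f A := by omega
  set Z : ℤ → Finset (ZMod n) := fun j =>
    if j = sp f A then (SS J).image (fun s => (z - sp f A • c) + s)
    else if j = -sn f A then (SS J).image (fun s => (w - (-sn f A) • c) + s)
    else sf K with hZ
  have h1 := card_levels R.lvl (a := -sn f A) (b := sp f A) (by omega) (Y := SS A) (Z := Z) (by
    intro j hj1 hj2 t ht
    by_cases e1 : j = sp f A
    · simp only [hZ, if_pos e1] at ht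
      obtain ⟨s, hs, rfl⟩ := Finset.mem_image.1 ht
      refine ⟨K.add_mem hz1 (hJK s hs), ?_⟩
      have e2 : j • c + ((z - sp f A • c) + s) = z + s := by
        rw [e1]
        abel
      rw [e2]
      exact hz2 s hs
    · by_cases e2 : j = -sn f A
      · simp only [hZ, if_neg e1, if_pos e2] at ht
        obtain ⟨s, hs, rfl⟩ := Finset.mem_image.1 ht
        refine ⟨K.add_mem hw1 (hJK s hs), ?_⟩
        have e3 : j • c + ((w - (-sn f A) • c) + s) = w + s := by
          rw [e2]
          abel
        rw [e3]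
        exact hw2 s hs
      · simp only [hZ, if_neg e1, if_neg e2] at ht
        have ht' := (mem_sf t).1 ht
        exact ⟨ht', R.win j (by omega) (by omega) t ht'⟩)
  have h2 : ∑ j ∈ Finset.Icc (-sn f A) (sp f A), (Z j).card =
      (SS J).card + (SS J).card + (sp f A + sn f A - 1).toNat * (2 * κ + 1) := by
    have e1 : Finset.Icc (-sn f A) (sp f A) =
        insert (sp f A) (insert (-sn f A) (Finset.Icc (-sn f A + 1) (sp f A - 1))) := by
      ext j
      simp only [Finset.mem_Icc, Finset.mem_insert]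
      omega
    rw [e1, Finset.sum_insert, Finset.sum_insert]
    · have c1 : (Z (sp f A)).card = (SS J).card := by
        simp only [hZ, if_true]
        exact Finset.card_image_of_injective _ (add_right_injective _)
      have c2 : (Z (-sn f A)).card = (SS J).card := by
        simp only [hZ, if_neg (ne_of_lt hbt), if_true]
        exact Finset.card_image_of_injective _ (add_right_injective _)
      have c3 : ∑ j ∈ Finset.Icc (-sn f A + 1) (sp f A - 1), (Z j).card =
          (sp f A + sn f A - 1).toNat * (2 * κ + 1) := by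
        rw [Finset.sum_congr rfl (g := fun _ => 2 * κ + 1)]
        · rw [Finset.sum_const, Int.card_Icc, smul_eq_mul]
          congr 2
          ring
        · intro j hj
          rw [Finset.mem_Icc] at hj
          have d1 : j ≠ sp f A := by omega
          have d2 : j ≠ -sn f A := by omega
          simp only [hZ, if_neg d1, if_neg d2]
          exact R.mu
      rw [c1, c2, c3]
      ring
    · rw [Finset.mem_Icc]
      omega
    · rw [Finset.mem_insert, Finset.mem_Icc]
      omega
  rw [h2] at h1
  have h3 : (((SS J).card + (SS J).card + (sp f A + sn f A - 1).toNat * (2 * κ + 1) : ℕ) : ℤ) ≤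
      ((SS A).card : ℤ) := by exact_mod_cast h1
  push_cast at h3
  rw [Int.toNat_of_nonneg (by omega : (0 : ℤ) ≤ sp f A + sn f A - 1)] at h3
  linarith

/-- If `0 ∈ SigmaStar J`, then `SigmaStar J = SS J` and `SigmaStar A = SS A` (`SigmaStar_eq`,
`SigmaStar_mono`). Otherwise `|SigmaStar J| ≤ |SS J| - 1` (`SigmaStar_subset`, `0 ∈ SS J`) and
`card_SS_le_SigmaStar`. Then `cnt_SS`. -/
theorem cnt_lt (R : Rig n m A c K L N f q κ) (hS : sp f A + sn f A < N) :
    (2 * κ + 1 : ℤ) * (sp f A + sn f A - 1) + (SS (A.filter (fun a => f a = 0))).card +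
      (SigmaStar (A.filter (fun a => f a = 0))).card ≤ (SigmaStar A).card := by
  have h1 := cnt_SS R hS
  by_cases h0 : (0 : ZMod n) ∈ SigmaStar (A.filter (fun a => f a = 0))
  · rw [SigmaStar_eq h0, SigmaStar_eq (SigmaStar_mono (Finset.filter_subset _ _) h0)]
    linarith
  · have h2 : (SigmaStar (A.filter (fun a => f a = 0))).card + 1 ≤
        (SS (A.filter (fun a => f a = 0))).card := by
      have h3 : insert 0 (SigmaStar (A.filter (fun a => f a = 0))) ⊆
          SS (A.filter (fun a => f a = 0)) := by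
        intro x hx
        rcases Finset.mem_insert.1 hx with rfl | hx
        · exact zero_mem_SS _
        · exact SigmaStar_subset _ hx
      have h4 := Finset.card_le_card h3
      rwa [Finset.card_insert_of_notMem h0] at h4
    have h5 := card_SS_le_SigmaStar A
    have h6 : ((SigmaStar (A.filter (fun a => f a = 0))).card : ℤ) + 1 ≤
        ((SS (A.filter (fun a => f a = 0))).card : ℤ) := by exact_mod_cast h2
    have h7 : ((SS A).card : ℤ) ≤ ((SigmaStar A).card : ℤ) + 1 := by exact_mod_cast h5
    linarith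

end Pool.Agent.helper99.EX
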