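import Pool.Agent.helper99.EX.RgA

/-! EX-Nma: numbers (section 4, last lines). -/

open Finset Pool.Agent.helper43.Rho Pool.Agent.helper43.Asy Pool.Agent.helper43.Ex

namespace Pool.Agent.helper99.EX

/-- `M = μ a + b`, `b < μ`: `St μ M = μ a (a + 1) / 2 + b (a + 1)` (induction on `M`, or on `a`
and `b`, with `St_succ`; or `St_add_ge`-type sums). -/
theorem two_St {μ : ℕ} (hμ : 0 < μ) (M : ℕ) :
    2 * St μ M = (M / μ + 1) * (μ * (M / μ) + 2 * (M % μ)) := by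
  induction M with
  | zero => simp [St]
  | succ M ih =>
    have hS : St μ (M + 1) = St μ M + (M / μ + 1) := by
      unfold St
      rw [Finset.sum_range_succ]
    rw [hS, mul_add, ih]
    have hb : M % μ < μ := Nat.mod_lt _ hμ
    have hM : μ * (M / μ) + M % μ = M := Nat.div_add_mod M μ
    rcases Nat.lt_or_ge (M % μ + 1) μ with h | h
    · have h1 : (M + 1) / μ = M / μ ∧ (M + 1) % μ = M % μ + 1 := by
        apply (Nat.div_mod_unique hμ).2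
        constructor
        · omega
        · exact h
      rw [h1.1, h1.2]
      ring
    · have h1 : (M + 1) / μ = M / μ + 1 ∧ (M + 1) % μ = 0 := by
        apply (Nat.div_mod_unique hμ).2
        constructor
        · rw [mul_add, mul_one]
          omega
        · exact hμ
      rw [h1.1, h1.2]
      have h2 : μ = M % μ + 1 := by omega
      generalize M / μ = a at *
      generalize M % μ = b at *
      subst h2
      ring

/-- `μ = 2 κ + 1`, `b = (m - κ) % μ`: `m (m + 1) = 2 μ S + (b - κ) (b - κ - 1)` (from `two_St`,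
`m = κ + μ a + b`). -/
theorem St_V {κ m : ℕ} (h : κ ≤ m) :
    ((m : ℤ) * (m + 1)) = 2 * ((2 * κ + 1) * (St (2 * κ + 1) (m - κ) : ℤ)) +
      ((((m - κ) % (2 * κ + 1) : ℕ) : ℤ) - κ) * ((((m - κ) % (2 * κ + 1) : ℕ) : ℤ) - κ - 1) := by
  have h1 := two_St (μ := 2 * κ + 1) (by omega) (m - κ)
  have h2 : (2 * κ + 1) * ((m - κ) / (2 * κ + 1)) + (m - κ) % (2 * κ + 1) = m - κ :=
    Nat.div_add_mod _ _
  have h3 : m = κ + ((2 * κ + 1) * ((m - κ) / (2 * κ + 1)) + (m - κ) % (2 * κ + 1)) := by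
    rw [h2]
    omega
  have h1' : (2 : ℤ) * (St (2 * κ + 1) (m - κ) : ℤ) =
      (((m - κ) / (2 * κ + 1) : ℕ) + 1) * ((2 * κ + 1) * ((m - κ) / (2 * κ + 1) : ℕ) +
        2 * ((m - κ) % (2 * κ + 1) : ℕ)) := by
    exact_mod_cast h1
  have h3' : (m : ℤ) = κ + ((2 * κ + 1) * ((m - κ) / (2 * κ + 1) : ℕ) +
      ((m - κ) % (2 * κ + 1) : ℕ)) := by
    exact_mod_cast h3
  have h4 : 2 * ((2 * (κ : ℤ) + 1) * (St (2 * κ + 1) (m - κ) : ℤ)) =
      (2 * (κ : ℤ) + 1) * (2 * (St (2 * κ + 1) (m - κ) : ℤ)) := by ring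
  rw [h4, h1']
  generalize ((m - κ) / (2 * κ + 1) : ℕ) = a at *
  generalize ((m - κ) % (2 * κ + 1) : ℕ) = b at *
  rw [h3']
  push_cast
  ring

/-- `m (m + 1) / 2 ≤ μ S + μ (κ + 1) / 2`-type bound: `V ≤ μ S + κ (κ + 1) / 2` (`St_V`:
`(b - κ) (b - κ - 1) ≤ κ (κ + 1)` for `0 ≤ b ≤ 2 κ`). -/
theorem V_le {κ m : ℕ} (h : κ ≤ m) :
    m * (m + 1) / 2 ≤ (2 * κ + 1) * St (2 * κ + 1) (m - κ) + κ * (κ + 1) / 2 := by
  have h1 := St_V h
  have hb : (m - κ) % (2 * κ + 1) < 2 * κ + 1 := Nat.mod_lt _ (by omega)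
  generalize ((m - κ) % (2 * κ + 1) : ℕ) = b at h1 hb
  have h2 : ((b : ℤ) - κ) * ((b : ℤ) - κ - 1) ≤ κ * (κ + 1) := by
    have hb' : (b : ℤ) ≤ 2 * κ := by exact_mod_cast Nat.lt_succ_iff.1 hb
    have hb0 : (0 : ℤ) ≤ b := Int.natCast_nonneg _
    nlinarith [mul_nonneg hb0 (sub_nonneg.2 hb')]
  have h3 : m * (m + 1) ≤ 2 * ((2 * κ + 1) * St (2 * κ + 1) (m - κ)) + κ * (κ + 1) := by
    have h4 : ((m : ℤ) * (m + 1)) ≤
        2 * ((2 * κ + 1) * (St (2 * κ + 1) (m - κ) : ℤ)) + κ * (κ + 1) := by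
      rw [h1]
      linarith
    exact_mod_cast h4
  omega

/-- `μ = 2 κ + 2` even: `m (m + 1) + (m - κ - μ) ≤ 2 μ S + κ (κ + 1)` (with `m - κ = μ a + b`:
`2 μ S - m (m + 1) = μ a + 2 μ b - (κ + b) (κ + b + 1) ≥ μ a - κ (κ + 1)`, `b ≤ 2 κ + 1`). -/
theorem even_V {κ m : ℕ} (h : κ ≤ m) :
    m * (m + 1) + (m - κ - (2 * κ + 2)) ≤
      2 * ((2 * κ + 2) * St (2 * κ + 2) (m - κ)) + κ * (κ + 1) := by
  have h1 := two_St (μ := 2 * κ + 2) (by omega) (m - κ)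
  have h2 : (2 * κ + 2) * ((m - κ) / (2 * κ + 2)) + (m - κ) % (2 * κ + 2) = m - κ :=
    Nat.div_add_mod _ _
  have h3 : m = κ + ((2 * κ + 2) * ((m - κ) / (2 * κ + 2)) + (m - κ) % (2 * κ + 2)) := by
    rw [h2]
    omega
  have hb : (m - κ) % (2 * κ + 2) < 2 * κ + 2 := Nat.mod_lt _ (by omega)
  have h4 : 2 * ((2 * κ + 2) * St (2 * κ + 2) (m - κ)) =
      (2 * κ + 2) * (2 * St (2 * κ + 2) (m - κ)) := by ring
  have h5 : m - κ - (2 * κ + 2) ≤ (2 * κ + 2) * ((m - κ) / (2 * κ + 2)) +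
      (m - κ) % (2 * κ + 2) := by omega
  rw [h4, h1]
  refine le_trans (Nat.add_le_add_left h5 _) ?_
  clear h4 h1 h5 h2
  generalize ((m - κ) / (2 * κ + 2) : ℕ) = a at *
  generalize ((m - κ) % (2 * κ + 2) : ℕ) = b at *
  rw [h3]
  have hb' : (b : ℤ) ≤ 2 * κ + 1 := by exact_mod_cast Nat.lt_succ_iff.1 hb
  have hb0 : (0 : ℤ) ≤ b := Int.natCast_nonneg _
  have h6 := mul_nonneg hb0 (sub_nonneg.2 hb')
  zify
  nlinarith

/-- `St 1 m = m (m + 1) / 2` -/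
theorem St_one (m : ℕ) : St 1 m = m * (m + 1) / 2 := by
  have h1 := two_St (μ := 1) (by omega) m
  rw [Nat.div_one, Nat.mod_one, mul_zero, add_zero, one_mul, mul_comm (m + 1)] at h1
  omega

end Pool.Agent.helper99.EX
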