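import Pool.Agent.helper99.EX.Zs1
import Pool.Agent.helper99.EX.Nma

/-! EX-T6: 4.3 of the paper proof: `|K|` is odd and the sum of the levels is nearly minimal. -/

open Finset Pool.Agent.helper43.Rho Pool.Agent.helper43.Asy Pool.Agent.helper43.Ex

set_option linter.unusedSectionVars false

namespace Pool.Agent.helper99.EX

variable {n m : ℕ} [NeZero n] {A F : Finset (ZMod n)} {c : ZMod n} {K L : AddSubgroup (ZMod n)}
  {N : ℕ} {f : ZMod n → ℤ} {Q : ℕ}

/-- the elements outside `K` -/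
theorem out_card (R : Reg n m A F c K L N f Q) :
    m - ((sf K).card - 1) / 2 ≤ (A.filter (fun a => f a ≠ 0)).card ∧
    (A.filter (fun a => f a = 0)).card ≤ ((sf K).card - 1) / 2 ∧
    (A.filter (fun a => f a = 0)).card + (A.filter (fun a => f a ≠ 0)).card = m := by
  have h1 := Finset.card_filter_add_card_filter_not (s := A) (fun a => f a = 0)
  rw [R.card] at h1
  have h2 : (A.filter (fun a => f a = 0)).card ≤ ((sf K).card - 1) / 2 := by
    apply card_inK (R.asym.subset (Finset.filter_subset _ _))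
    intro a ha
    rw [Finset.mem_filter] at ha
    exact (f_zero_iff R.lvl (R.AL a ha.1)).1 ha.2
  refine ⟨?_, h2, h1⟩
  have h3 : (A.filter (fun a => ¬ f a = 0)).card = (A.filter (fun a => f a ≠ 0)).card := rfl
  omega

/-- the sum of the levels of `A` is the sum over the elements outside `K` -/
theorem sum_out (f : ZMod n → ℤ) (A : Finset (ZMod n)) :
    sp f A + sn f A = ((∑ x ∈ A.filter (fun a => f a ≠ 0), (f x).natAbs : ℕ) : ℤ) := by
  rw [Pool.Agent.helper99.EX.sp_add_sn]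
  congr 1
  symm
  apply Finset.sum_subset (Finset.filter_subset _ _)
  intro x hx hx2
  rw [Finset.mem_filter] at hx2
  have : f x = 0 := by
    by_contra h
    exact hx2 ⟨hx, h⟩
  rw [this]
  rfl

theorem St_le_S (R : Reg n m A F c K L N f Q) :
    (St (sf K).card (m - ((sf K).card - 1) / 2) : ℤ) ≤ sp f A + sn f A := by
  rw [sum_out]
  have h1 := (out_card R).1
  have h2 := sum_lev_ge R.lvl (R.asym.subset (Finset.filter_subset (fun a => f a ≠ 0) A))
    (fun a ha => R.AL a (Finset.mem_filter.1 ha).1) (fun a ha => (Finset.mem_filter.1 ha).2)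
  exact_mod_cast (St_mono h1).trans h2

/-- the two cases of 4.3 -/
theorem two_cases (R : Reg n m A F c K L N f Q) (hlt : (SigmaStar A).card < Fst n m) :
    ((sf K).card * N ≤ Fst n m ∧ sp f A + sn f A < N + ((8 * (Q / 50) : ℕ) : ℤ)) ∨
    (((sf K).card : ℤ) * (sp f A + sn f A - 2 * (Q / 50 : ℕ) + 1) ≤ Fst n m ∧
      sp f A + sn f A < N + ((8 * (Q / 50) : ℕ) : ℤ)) := by
  have h0 := (reg_s0 R).1
  have hQ := reg_Q30 R
  have hFA : (F ∩ A).card = F.card := by
    rw [Finset.inter_eq_left.2 R.FA]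
  have hw := win R hlt (Finset.Subset.refl A) (s := Q / 50) (by rw [hFA]; omega) (by omega)
  have hSS := card_SS_le_SigmaStar A
  obtain ⟨s, hs⟩ : ∃ s, s = Q / 50 := ⟨_, rfl⟩
  rw [← hs] at hw h0 ⊢
  rcases le_or_gt (N : ℤ) (sp f A - s - (-sn f A + s) + 1) with h1 | h1
  · left
    have h2 : sf L ⊆ SS A := fun z hz => full_mem R.lvl hw h1 ((mem_sf z).1 hz)
    have h3 := Finset.card_le_card h2
    rw [R.lvl.card] at h3
    have h4 := fst_le_L (n := n) R.asym R.card R.AL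
    rw [R.lvl.card] at h4
    have h5 : (0 : ZMod n) ∉ SigmaStar A := by
      intro h5
      have h6 := SigmaStar_eq h5
      rw [h6] at hlt
      omega
    constructor
    · rw [Nat.mul_comm]
      omega
    · by_contra h6
      exact h5 (z1 R hlt (by rw [← hs]; omega))
  · right
    have h2 := card_full R.lvl hw
    rw [min_eq_right (by omega)] at h2
    constructor
    · have h3 : sp f A - s - (-sn f A + s) + 1 = sp f A + sn f A - 2 * (s : ℤ) + 1 := by ring
      rw [h3, mul_comm] at h2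
      have h4 : ((SS A).card : ℤ) ≤ Fst n m := by
        have : (SS A).card ≤ Fst n m := by omega
        exact_mod_cast this
      exact h2.trans h4
    · push_cast
      omega

private theorem ct_num {μ Q : ℕ} (hQ : 10 ^ 30 ≤ Q) :
    50 * (μ * (Q / 50)) ≤ μ * Q ∧ 10 ^ 28 ≤ Q / 50 := by
  constructor
  · calc 50 * (μ * (Q / 50)) = μ * (50 * (Q / 50)) := by ring
      _ ≤ μ * Q := Nat.mul_le_mul_left _ (Nat.mul_div_le Q 50)
  · omega

/-- `|K|` is odd: otherwise `μ St ≥ V + m / 4` (`even_V`) -/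
theorem K_odd (R : Reg n m A F c K L N f Q) (hlt : (SigmaStar A).card < Fst n m) :
    (sf K).card % 2 = 1 := by
  by_contra hodd
  obtain ⟨κ, hκ⟩ : ∃ κ, (sf K).card = 2 * κ + 2 := ⟨(sf K).card / 2 - 1, by
    have := sf_card_pos K
    omega⟩
  have hk : ((sf K).card - 1) / 2 = κ := by omega
  have hS := St_le_S R
  rw [hk, hκ] at hS
  have hmu := R.mu
  have hm := reg_m30 R
  have hev := even_V (κ := κ) (m := m) (by omega)
  obtain ⟨T, hT⟩ : ∃ T, T = St (2 * κ + 2) (m - κ) := ⟨_, rfl⟩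
  rw [← hT] at hev hS
  have hV := fst_le_V n m
  have hQ := reg_Q30 R
  have hq := (reg_Q R).2.1
  obtain ⟨hs1, hs2⟩ := ct_num (μ := (sf K).card) hQ
  obtain ⟨s, hs⟩ : ∃ s, s = Q / 50 := ⟨_, rfl⟩
  have hκκ : κ * (κ + 1) ≤ 10 ^ 6 * (10 ^ 6 + 1) := Nat.mul_le_mul (by omega) (by omega)
  have hC := two_cases R hlt
  rw [← hs] at hC hs1 hs2
  have hmain : (2 * κ + 2) * T ≤ Fst n m + 8 * ((2 * κ + 2) * s) := by
    rw [hκ] at hC
    rcases hC with ⟨h1, h2⟩ | ⟨h1, h2⟩
    · have h3 : T ≤ N + 8 * s := by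
        push_cast at h2
        omega
      calc (2 * κ + 2) * T ≤ (2 * κ + 2) * (N + 8 * s) := Nat.mul_le_mul_left _ h3
        _ = (2 * κ + 2) * N + 8 * ((2 * κ + 2) * s) := by ring
        _ ≤ _ := by omega
    · have h3 : ((2 * κ + 2 : ℕ) : ℤ) * ((T : ℤ) - 2 * s + 1) ≤ Fst n m := by
        refine le_trans ?_ h1
        apply mul_le_mul_of_nonneg_left _ (by positivity)
        omega
      have h4 : ((2 * κ + 2 : ℕ) : ℤ) * (T : ℤ) ≤ Fst n m + 8 * (((2 * κ + 2 : ℕ) : ℤ) * s) := by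
        have h5 : (0 : ℤ) ≤ ((2 * κ + 2 : ℕ) : ℤ) * s := by positivity
        have h6 : (0 : ℤ) ≤ ((2 * κ + 2 : ℕ) : ℤ) := by positivity
        nlinarith
      exact_mod_cast h4
  rw [hκ] at hs1 hq
  omega

/-- the sum of the levels is at most `St + 9 s0` -/
theorem ct1 (R : Reg n m A F c K L N f Q) (hlt : (SigmaStar A).card < Fst n m) :
    sp f A + sn f A ≤
      St (sf K).card (m - ((sf K).card - 1) / 2) + ((9 * (Q / 50) : ℕ) : ℤ) ∧
    sp f A + sn f A < N + ((8 * (Q / 50) : ℕ) : ℤ) := by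
  have hodd := K_odd R hlt
  obtain ⟨κ, hκ⟩ : ∃ κ, (sf K).card = 2 * κ + 1 := ⟨(sf K).card / 2, by omega⟩
  have hk : ((sf K).card - 1) / 2 = κ := by omega
  rw [hk, hκ]
  have hmu := R.mu
  have hm := reg_m30 R
  have hVle := V_le (κ := κ) (m := m) (by omega)
  obtain ⟨T, hT⟩ : ∃ T, T = St (2 * κ + 1) (m - κ) := ⟨_, rfl⟩
  have hFs : Fst n m ≤ (2 * κ + 1) * (1 + T) := by
    have := fst_le_St K m (n := n)
    rw [hk, hκ, ← hT] at this
    exact this
  rw [← hT] at hVle ⊢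
  have hV := fst_le_V n m
  have hQ := reg_Q30 R
  obtain ⟨hs1, hs2⟩ := ct_num (μ := (sf K).card) hQ
  obtain ⟨s, hs⟩ : ∃ s, s = Q / 50 := ⟨_, rfl⟩
  have hκκ : κ * (κ + 1) ≤ 10 ^ 6 * (10 ^ 6 + 1) := Nat.mul_le_mul (by omega) (by omega)
  have hC := two_cases R hlt
  rw [← hs] at hC hs1 hs2 ⊢
  rw [hκ] at hC
  rcases hC with ⟨h1, h2⟩ | ⟨h1, h2⟩
  · refine ⟨?_, h2⟩
    have h3 : (2 * κ + 1) * N ≤ (2 * κ + 1) * (T + s) := by
      have h4 : s ≤ (2 * κ + 1) * s := Nat.le_mul_of_pos_left s (by omega)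
      rw [Nat.mul_add]
      omega
    have h5 : N ≤ T + s := Nat.le_of_mul_le_mul_left h3 (by omega)
    push_cast at h2 ⊢
    omega
  · refine ⟨?_, h2⟩
    have h3 : ((2 * κ + 1 : ℕ) : ℤ) * (sp f A + sn f A - 2 * (s : ℤ) + 1) ≤
        ((2 * κ + 1 : ℕ) : ℤ) * (1 + T) := by
      refine h1.trans ?_
      exact_mod_cast hFs
    have h4 := le_of_mul_le_mul_left h3 (by positivity)
    push_cast
    omega

end Pool.Agent.helper99.EX
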