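import Pool.Agent.helper43.Ex.RL

/-! EX-TA: levels, basic facts (section 3 and 4 of /team-store/2e436f_exact_helper43.md).
`Lvl c K L N f` (see `helper43/Ex/Defs`): `L = ⟨c⟩ + K` is the union of the `N` cosets `j c + K`
(levels), `f a` is the level of `a ∈ L` of least absolute value. `Full c K Y a b`: all elements of
the levels `a, ..., b` are in `Y`. -/

open Finset Pool.Agent.helper43.Rho Pool.Agent.helper43.Asy Pool.Agent.helper43.Ex

set_option linter.unusedSectionVars false

namespace Pool.Agent.helper99.EX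

variable {G : Type*} [AddCommGroup G] [DecidableEq G] [Fintype G]
variable {c : G} {K L : AddSubgroup G} {N : ℕ} {f : G → ℤ}

/-- `|L| = N |K|` is positive (`sf_card_pos`) -/
theorem lvl_N_pos (h : Lvl c K L N f) : 0 < N := by
  rcases Nat.eq_zero_or_pos N with h0 | h0
  · have h1 := h.card
    rw [h0, zero_mul] at h1
    have h2 := sf_card_pos L
    omega
  · exact h0

/-- `(i - j) c = t - s ∈ K`, so `N ∣ i - j` -/
theorem lev_inj (h : Lvl c K L N f) {i j : ℤ} {s t : G} (hs : s ∈ K) (ht : t ∈ K)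
    (hij : |i - j| < N) (e : i • c + s = j • c + t) : i = j ∧ s = t := by
  have h1 : (i - j) • c = t - s := by
    rw [sub_zsmul, ← sub_eq_add_neg, sub_eq_sub_iff_add_eq_add, e]
    abel
  have h2 : (i - j) • c ∈ K := by
    rw [h1]
    exact K.sub_mem ht hs
  have h3 : i = j := by
    have h4 := Int.eq_zero_of_abs_lt_dvd ((h.ord _).1 h2) hij
    omega
  subst h3
  exact ⟨rfl, add_left_cancel e⟩

/-- the level of an element is the only one of absolute value `< N / 2` -/
theorem lev_unique (h : Lvl c K L N f) {a : G} (ha : a ∈ L) {j : ℤ} (hj : a - j • c ∈ K)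
    (hj2 : 2 * |j| < N) : f a = j := by
  have h1 := h.mem a ha
  have h2 := h.small a ha
  refine (lev_inj h (i := f a) (j := j) (s := a - f a • c) (t := a - j • c) h1 hj ?_ ?_).1
  · have h3 := abs_sub (f a) j
    omega
  · abel

theorem f_zero_iff (h : Lvl c K L N f) {a : G} (ha : a ∈ L) : f a = 0 ↔ a ∈ K := by
  have hN := lvl_N_pos h
  constructor
  · intro h0
    have h1 := h.mem a ha
    rw [h0] at h1
    simpa using h1
  · intro hK
    apply lev_unique h ha
    · simpa using hK
    · simpa using hN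

theorem mem_L (h : Lvl c K L N f) (j : ℤ) {t : G} (ht : t ∈ K) : j • c + t ∈ L :=
  L.add_mem (L.zsmul_mem h.cL j) (h.KL ht)

/-- elements of at most `N` consecutive levels: `Z j ⊆ K` is the part on the level `j`
(`lev_inj`; `Finset.card_sigma`, `Finset.card_le_card_of_injOn` on `(Icc a b).sigma Z`) -/
theorem card_levels (h : Lvl c K L N f) {a b : ℤ} (hab : b - a < N) {Y : Finset G}
    {Z : ℤ → Finset G} (hZ : ∀ j, a ≤ j → j ≤ b → ∀ t ∈ Z j, t ∈ K ∧ j • c + t ∈ Y) :
    ∑ j ∈ Finset.Icc a b, (Z j).card ≤ Y.card := by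
  rw [← Finset.card_sigma]
  apply Finset.card_le_card_of_injOn (fun p => p.1 • c + p.2)
  · rintro ⟨j, t⟩ hp
    simp only [Finset.coe_sigma, Set.mem_sigma_iff, Finset.mem_coe, Finset.mem_Icc] at hp
    exact (hZ j hp.1.1 hp.1.2 t hp.2).2
  · rintro ⟨j, t⟩ hp ⟨j', t'⟩ hp' e
    simp only [Finset.coe_sigma, Set.mem_sigma_iff, Finset.mem_coe, Finset.mem_Icc] at hp hp'
    simp only at e
    have h1 := (hZ j hp.1.1 hp.1.2 t hp.2).1
    have h2 := (hZ j' hp'.1.1 hp'.1.2 t' hp'.2).1
    obtain ⟨h3, h4⟩ := lev_inj h h1 h2 (by rw [abs_lt]; constructor <;> omega) e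
    subst h3
    subst h4
    rfl

theorem card_full (h : Lvl c K L N f) {Y : Finset G} {a b : ℤ} (hY : Full c K Y a b) :
    min (N : ℤ) (b - a + 1) * (sf K).card ≤ Y.card := by
  have hN := lvl_N_pos h
  rcases le_or_gt (b - a + 1) 0 with h0 | h0
  · have h1 : min (N : ℤ) (b - a + 1) ≤ 0 := (min_le_right _ _).trans h0
    have h2 : min (N : ℤ) (b - a + 1) * (sf K).card ≤ 0 :=
      mul_nonpos_of_nonpos_of_nonneg h1 (by positivity)
    exact h2.trans (by positivity)
  · obtain ⟨w, hw⟩ : ∃ w : ℤ, w = min (N : ℤ) (b - a + 1) := ⟨_, rfl⟩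
    have hw1 : 1 ≤ w := by omega
    have hw2 : w ≤ N := by omega
    have hw3 : w ≤ b - a + 1 := by omega
    have h1 := card_levels h (a := a) (b := a + w - 1) (by omega) (Y := Y) (Z := fun _ => sf K)
      (fun j hj1 hj2 t ht => ⟨(mem_sf t).1 ht, hY j hj1 (by omega) t ((mem_sf t).1 ht)⟩)
    rw [Finset.sum_const, Int.card_Icc, smul_eq_mul] at h1
    rw [← hw]
    have h2 : ((a + w - 1 + 1 - a).toNat : ℤ) = w := by
      rw [Int.toNat_of_nonneg (by omega)]
      ring
    calc w * ((sf K).card : ℤ) = (((a + w - 1 + 1 - a).toNat * (sf K).card : ℕ) : ℤ) := by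
          push_cast
          rw [h2]
      _ ≤ Y.card := by exact_mod_cast h1

/-- a window of at least `N` levels is everything: move the level of `z` by a multiple of `N` into
`[a, b]`, `N c ∈ K` -/
theorem full_mem (h : Lvl c K L N f) {Y : Finset G} {a b : ℤ} (hY : Full c K Y a b)
    (hN : (N : ℤ) ≤ b - a + 1) {z : G} (hz : z ∈ L) : z ∈ Y := by
  have hN0 : (0 : ℤ) < N := by exact_mod_cast lvl_N_pos h
  obtain ⟨r, hr⟩ : ∃ r : ℤ, r = (f z - a) % N := ⟨_, rfl⟩
  have h1 := Int.emod_nonneg (f z - a) (ne_of_gt hN0)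
  have h2 := Int.emod_lt_of_pos (f z - a) hN0
  have h3 := Int.emod_add_mul_ediv (f z - a) N
  obtain ⟨k, hk⟩ : ∃ k : ℤ, k = (f z - a) / N := ⟨_, rfl⟩
  rw [← hr, ← hk] at h3
  rw [← hr] at h1 h2
  have h4 : f z = a + r + N * k := by omega
  have h5 : ((N : ℤ) * k) • c ∈ K := (h.ord _).2 (Dvd.intro _ rfl)
  have h6 := h.mem z hz
  have h7 : z = (a + r) • c + ((z - f z • c) + ((N : ℤ) * k) • c) := by
    rw [h4, add_zsmul c (a + r)]
    abel
  rw [h7]
  exact hY (a + r) (by omega) (by omega) _ (K.add_mem h6 h5)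

theorem class_le {E : Finset G} {k : ℤ} (hE : ∀ x ∈ E, x - k • c ∈ K) :
    E.card ≤ (sf K).card := by
  apply Finset.card_le_card_of_injOn (fun x => x - k • c)
  · intro x hx
    exact (mem_sf _).2 (hE x hx)
  · intro x _ y _ e
    exact sub_left_injective e

/-- a class with `|K|` elements is the whole coset -/
theorem class_full {E : Finset G} {k : ℤ} (hE : ∀ x ∈ E, x - k • c ∈ K)
    (hc : (sf K).card ≤ E.card) {t : G} (ht : t ∈ K) : k • c + t ∈ E := by
  have h1 : E.image (fun x => x - k • c) = sf K := by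
    apply Finset.eq_of_subset_of_card_le
    · intro y hy
      rw [Finset.mem_image] at hy
      obtain ⟨x, hx, rfl⟩ := hy
      exact (mem_sf _).2 (hE x hx)
    · rw [Finset.card_image_of_injective _ (fun x y e => sub_left_injective e)]
      exact hc
  have h2 : t ∈ E.image (fun x => x - k • c) := by
    rw [h1]
    exact (mem_sf t).2 ht
  rw [Finset.mem_image] at h2
  obtain ⟨x, hx, e⟩ := h2
  have h3 : k • c + t = x := by
    rw [← e]
    abel
  rw [h3]
  exact hx

/-- an asymmetric subset of `K` has at most `(|K| - 1) / 2` elements (`card_CC`) -/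
theorem card_inK {A : Finset G} (hA : Asym A) (hK : ∀ a ∈ A, a ∈ K) :
    A.card ≤ ((sf K).card - 1) / 2 := by
  have h1 : CC A ⊆ sf K := by
    intro x hx
    rw [mem_sf]
    unfold CC at hx
    rw [Finset.mem_insert, Finset.mem_union, Finset.mem_image] at hx
    rcases hx with rfl | hx | ⟨y, hy, rfl⟩
    · exact K.zero_mem
    · exact hK x hx
    · exact K.neg_mem (hK y hy)
  have h2 := Finset.card_le_card h1
  rw [card_CC hA] at h2
  omega

/-- the class `|f| = k` of an asymmetric set has at most `|K|` elements -/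
theorem fib (h : Lvl c K L N f) {A : Finset G} (hA : Asym A) (hAL : ∀ a ∈ A, a ∈ L) (k : ℕ) :
    (A.filter (fun a => (f a).natAbs = k)).card ≤ (sf K).card := by
  set B := A.filter (fun a => (f a).natAbs = k) with hB
  set φ : G → G := fun x => if 0 < f x then x else -x with hφ
  have h1 : (B.image φ).card = B.card := by
    apply Finset.card_image_of_injOn
    intro x hx y hy e
    have hxA : x ∈ A := (Finset.mem_filter.1 hx).1
    have hyA : y ∈ A := (Finset.mem_filter.1 hy).1
    simp only [hφ] at e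
    split_ifs at e with h1 h2 h2
    · exact e
    · exfalso
      apply hA y hyA
      rw [← e]
      exact hxA
    · exfalso
      apply hA x hxA
      rw [e]
      exact hyA
    · exact neg_injective e
  rw [← h1]
  apply class_le (c := c) (k := (k : ℤ))
  intro y hy
  rw [Finset.mem_image] at hy
  obtain ⟨x, hx, rfl⟩ := hy
  have hxA : x ∈ A := (Finset.mem_filter.1 hx).1
  have hxk : (f x).natAbs = k := (Finset.mem_filter.1 hx).2
  have h2 := h.mem x (hAL x hxA)
  simp only [hφ]
  split_ifs with h3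
  · have h4 : f x = k := by omega
    rw [h4] at h2
    exact h2
  · have h4 : f x = -k := by omega
    rw [h4] at h2
    have h5 : -x - (k : ℤ) • c = -(x - (-(k : ℤ)) • c) := by
      rw [neg_zsmul]
      abel
    rw [h5]
    exact K.neg_mem h2

/-- change of the sign of `c` and `f` -/
theorem lvl_neg (h : Lvl c K L N f) : Lvl (-c) K L N (fun x => -f x) where
  cL := L.neg_mem h.cL
  KL := h.KL
  card := h.card
  ord := by
    intro j
    rw [zsmul_neg, AddSubgroup.neg_mem_iff]
    exact h.ord j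
  mem := by
    intro a ha
    have h1 := h.mem a ha
    rw [neg_zsmul, zsmul_neg, neg_neg]
    exact h1
  small := by
    intro a ha
    rw [abs_neg]
    exact h.small a ha

theorem full_neg {Y : Finset G} {a b : ℤ} (hY : Full c K Y a b) : Full (-c) K Y (-b) (-a) := by
  intro j h1 h2 t ht
  have h3 := hY (-j) (by omega) (by omega) t ht
  rw [zsmul_neg]
  rw [neg_zsmul] at h3
  exact h3

theorem sp_neg (f : G → ℤ) (F : Finset G) : sp (fun x => -f x) F = sn f F := rfl

theorem sn_neg (f : G → ℤ) (F : Finset G) : sn (fun x => -f x) F = sp f F := by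
  unfold sn sp
  simp

theorem sp_add_sn (f : G → ℤ) (F : Finset G) :
    sp f F + sn f F = ((∑ x ∈ F, (f x).natAbs : ℕ) : ℤ) := by
  unfold sp sn
  rw [← Finset.sum_add_distrib, Nat.cast_sum]
  apply Finset.sum_congr rfl
  intro x _
  omega

theorem sp_sub_sn (f : G → ℤ) (F : Finset G) : sp f F - sn f F = ∑ x ∈ F, f x := by
  unfold sp sn
  rw [← Finset.sum_sub_distrib]
  apply Finset.sum_congr rfl
  intro x _
  omega

theorem sp_nonneg (f : G → ℤ) (F : Finset G) : 0 ≤ sp f F :=
  Finset.sum_nonneg fun _ _ => le_max_right _ _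

theorem sn_nonneg (f : G → ℤ) (F : Finset G) : 0 ≤ sn f F :=
  Finset.sum_nonneg fun _ _ => le_max_right _ _

theorem sp_mono (f : G → ℤ) {F F' : Finset G} (h : F ⊆ F') : sp f F ≤ sp f F' :=
  Finset.sum_le_sum_of_subset_of_nonneg h fun _ _ _ => le_max_right _ _

theorem sn_mono (f : G → ℤ) {F F' : Finset G} (h : F ⊆ F') : sn f F ≤ sn f F' :=
  Finset.sum_le_sum_of_subset_of_nonneg h fun _ _ _ => le_max_right _ _

theorem sp_sdiff (f : G → ℤ) {F A : Finset G} (h : F ⊆ A) : sp f F + sp f (A \ F) = sp f A := by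
  unfold sp
  rw [add_comm]
  exact Finset.sum_sdiff h

theorem sn_sdiff (f : G → ℤ) {F A : Finset G} (h : F ⊆ A) : sn f F + sn f (A \ F) = sn f A := by
  unfold sn
  rw [add_comm]
  exact Finset.sum_sdiff h

end Pool.Agent.helper99.EX
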