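import Pool.Agent.helper99.EX.RgA

/-! EX-T2: the rigid structure (section 4.4 of the paper proof). -/

open Finset Pool.Agent.helper43.Rho Pool.Agent.helper43.Asy Pool.Agent.helper43.Ex

set_option linter.unusedSectionVars false

namespace Pool.Agent.helper99.EX

/-- The rigid structure: `|K| = 2 κ + 1`, `A ∩ K` has `κ` elements, the classes `1, ..., q` of `A`
are full (`|K|` elements), all levels are `< 2 q`, and the levels `-sn + 1, ..., sp - 1` of `SS A`
are full. -/
structure Rig (n m : ℕ) [NeZero n] (A : Finset (ZMod n)) (c : ZMod n)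
    (K L : AddSubgroup (ZMod n)) (N : ℕ) (f : ZMod n → ℤ) (q κ : ℕ) : Prop where
  hm : 100 ≤ m
  hn : 2 * m < n
  asym : Asym A
  card : A.card = m
  lvl : Lvl c K L N f
  AL : ∀ a ∈ A, a ∈ L
  mu : (sf K).card = 2 * κ + 1
  J : (A.filter (fun a => f a = 0)).card = κ
  q10 : 10 ≤ q
  cls : ∀ k : ℕ, 1 ≤ k → k ≤ q → (A.filter (fun a => (f a).natAbs = k)).card = 2 * κ + 1
  top : ∀ a ∈ A, (f a).natAbs < 2 * q
  Sge : (St (2 * κ + 1) (m - κ) : ℤ) ≤ sp f A + sn f A
  Slt : sp f A + sn f A < N + q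
  win : Full c K (SS A) (-sn f A + 1) (sp f A - 1)

variable {n m : ℕ} [NeZero n] {A : Finset (ZMod n)} {c : ZMod n} {K L : AddSubgroup (ZMod n)}
  {N : ℕ} {f : ZMod n → ℤ} {q κ : ℕ}

theorem rig_neg (R : Rig n m A c K L N f q κ) :
    Rig n m A (-c) K L N (fun x => -f x) q κ where
  hm := R.hm
  hn := R.hn
  asym := R.asym
  card := R.card
  lvl := lvl_neg R.lvl
  AL := R.AL
  mu := R.mu
  J := by
    have h := R.J
    simpa using h
  q10 := R.q10
  cls := by
    intro k h1 h2
    have h := R.cls k h1 h2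
    simpa using h
  top := by
    intro a ha
    have h := R.top a ha
    simpa using h
  Sge := by
    have h := R.Sge
    rw [sp_neg, sn_neg]
    omega
  Slt := by
    have h := R.Slt
    rw [sp_neg, sn_neg]
    omega
  win := by
    have h := full_neg R.win
    rw [sp_neg, sn_neg]
    have e1 : -(sp f A - 1) = -sp f A + 1 := by ring
    have e2 : -(-sn f A + 1) = sn f A - 1 := by ring
    rw [e1, e2] at h
    exact h

/-- a full class: every element of `k c + K` is in `A` (level `k`) or its negative is (level `-k`)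
-/
theorem rig_cls (R : Rig n m A c K L N f q κ) {k : ℕ} (h1 : 1 ≤ k) (h2 : k ≤ q) {z : ZMod n}
    (hz : z - k • c ∈ K) : (z ∈ A ∧ f z = k) ∨ (-z ∈ A ∧ f (-z) = -k) :=
  R.lvl.class_full R.asym R.AL h1 ((R.cls k h1 h2).trans R.mu.symm) hz

/-- The same if every element of `A` of level `-k` is excluded: then every `z ∈ k c + K` is in `A`,
of level `k`. -/
theorem rig_cls_pos (R : Rig n m A c K L N f q κ) {k : ℕ} (h1 : 1 ≤ k) (h2 : k ≤ q)
    (hk : ∀ a ∈ A, f a ≠ -k) {z : ZMod n} (hz : z - k • c ∈ K) : z ∈ A ∧ f z = k := by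
  rcases rig_cls R h1 h2 hz with h | h
  · exact h
  · exact absurd h.2 (hk _ h.1)

/-- the elements of level `0` are the elements of `K` -/
theorem rig_J (R : Rig n m A c K L N f q κ) {a : ZMod n} (ha : a ∈ A) : f a = 0 ↔ a ∈ K :=
  f_zero_iff R.lvl (R.AL a ha)

/-- three different elements with sum zero -/
theorem zero_of_three {x y z : ZMod n} (hx : x ∈ A) (hy : y ∈ A) (hz : z ∈ A) (hxy : x ≠ y)
    (hxz : x ≠ z) (hyz : y ≠ z) (h : x + y + z = 0) : (0 : ZMod n) ∈ SigmaStar A := by
  refine mem_SigmaStar.2 ⟨{x, y, z}, ?_, ⟨x, by simp⟩, ?_⟩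
  · intro a ha
    simp only [Finset.mem_insert, Finset.mem_singleton] at ha
    rcases ha with rfl | rfl | rfl
    · exact hx
    · exact hy
    · exact hz
  · rw [Finset.sum_insert (by simp [hxy, hxz]), Finset.sum_insert (by simp [hyz]),
      Finset.sum_singleton, ← add_assoc]
    exact h

end Pool.Agent.helper99.EX
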