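import Pool.Agent.helper99.EX.Ct1
import Pool.Agent.helper99.EX.Rig

/-! EX-T7: 4.4 of the paper proof: a set of `Reg` with few sums is rigid. -/

open Finset Pool.Agent.helper43.Rho Pool.Agent.helper43.Asy Pool.Agent.helper43.Ex

set_option linter.unusedSectionVars false

namespace Pool.Agent.helper99.EX

variable {n m : ℕ} [NeZero n] {A F : Finset (ZMod n)} {c : ZMod n} {K L : AddSubgroup (ZMod n)}
  {N : ℕ} {f : ZMod n → ℤ} {Q : ℕ}

/-- single elements of the full classes `1, ..., q` (after the change of signs): the levels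
`1, ..., q` of `SS (A.image (nrm f))` are full; `Full.of_nrm`. -/
theorem full_singles (hL : Lvl c K L N f) (hA : Asym A) (hAL : ∀ a ∈ A, a ∈ L) {q : ℕ}
    (hq : ∀ k : ℕ, 1 ≤ k → k ≤ q → (A.filter (fun a => (f a).natAbs = k)).card = (sf K).card) :
    Full c K (SS A) (-sn f A + 1) (-sn f A + q) := by
  classical
  apply Full.of_nrm hA (fun x hx => hL.mem x (hAL x hx))
  intro j h1 h2 t ht
  obtain ⟨k, hk⟩ : ∃ k : ℕ, j = k := ⟨j.toNat, by omega⟩
  subst hk
  have h3 : ((k : ℤ) • c + t) - k • c ∈ K := by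
    rw [natCast_zsmul]
    simpa using ht
  have hmem : (k : ℤ) • c + t ∈ A.image (nrm f) := by
    rcases hL.class_full hA hAL (by omega) (hq k (by omega) (by omega)) h3 with h | h
    · rw [Finset.mem_image]
      refine ⟨_, h.1, ?_⟩
      unfold nrm
      rw [if_neg (by rw [h.2]; omega)]
    · rw [Finset.mem_image]
      refine ⟨_, h.1, ?_⟩
      unfold nrm
      rw [if_pos (by rw [h.2]; omega), neg_neg]
  rw [mem_SS]
  exact ⟨{(k : ℤ) • c + t}, by simpa using hmem, by simp⟩

theorem rig_of_reg (R : Reg n m A F c K L N f Q) (hlt : (SigmaStar A).card < Fst n m) :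
    ∃ q κ, Rig n m A c K L N f q κ := by
  classical
  have hodd := K_odd R hlt
  obtain ⟨κ, hκ⟩ : ∃ κ, (sf K).card = 2 * κ + 1 := ⟨(sf K).card / 2, by omega⟩
  have hk : ((sf K).card - 1) / 2 = κ := by omega
  obtain ⟨hc1, hc2⟩ := ct1 R hlt
  obtain ⟨ho1, ho2, ho3⟩ := out_card R
  have hStS := St_le_S R
  rw [hk] at hc1 ho1 ho2 hStS
  rw [hκ] at hc1 hStS
  have hmu := R.mu
  have hm := reg_m30 R
  have hQ := reg_Q30 R
  obtain ⟨hq1, hq2, _⟩ := reg_Q R
  rw [hκ] at hq1 hq2 hmu
  obtain ⟨s, hs⟩ : ∃ s, s = Q / 50 := ⟨_, rfl⟩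
  rw [← hs] at hc1 hc2
  obtain ⟨B, hB⟩ : ∃ B, B = A.filter (fun a => f a ≠ 0) := ⟨_, rfl⟩
  have hsum := sum_out f A
  rw [← hB] at ho1 ho3 hsum
  obtain ⟨S, hS⟩ : ∃ S, S = ∑ x ∈ B, (f x).natAbs := ⟨_, rfl⟩
  rw [← hS] at hsum
  obtain ⟨T, hT⟩ : ∃ T, T = St (2 * κ + 1) (m - κ) := ⟨_, rfl⟩
  rw [← hT] at hc1 hStS
  have hBA : B ⊆ A := by rw [hB]; exact Finset.filter_subset _ _
  have hBasym := R.asym.subset hBA
  have hB1 : ∀ a ∈ B, 1 ≤ (f a).natAbs := by
    intro a ha
    rw [hB, Finset.mem_filter] at ha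
    have := ha.2
    omega
  have hBfib : ∀ k, (B.filter (fun a => (f a).natAbs = k)).card ≤ 2 * κ + 1 := by
    intro k
    rw [← hκ]
    exact fib R.lvl hBasym (fun a ha => R.AL a (hBA ha)) k
  have hμ0 : 0 < 2 * κ + 1 := by omega
  -- the quotient
  obtain ⟨q, hq⟩ : ∃ q, q = (m - κ) / (2 * κ + 1) := ⟨_, rfl⟩
  have hqlow : Q ≤ q + s := by
    have h1 : (2 * κ + 1) * (Q - s) ≤ m - κ := by
      have h2 : (2 * κ + 1) * 1000 ≤ (2 * κ + 1) * s := Nat.mul_le_mul_left _ (by omega)
      have h3 : (2 * κ + 1) * Q ≤ (2 * κ + 1) * (50 * s + 49) := Nat.mul_le_mul_left _ (by omega)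
      have h4 : (2 * κ + 1) * (50 * s + 49) = 50 * ((2 * κ + 1) * s) + 49 * (2 * κ + 1) := by ring
      rw [Nat.mul_sub]
      omega
    have h2 : Q - s ≤ q := by
      rw [hq, Nat.le_div_iff_mul_le hμ0, Nat.mul_comm]
      exact h1
    omega
  have hs50 : 50 * s ≤ Q := by omega
  have hqup : q ≤ 2 * Q := by
    have h1 : q * (2 * κ + 1) ≤ m - κ := by
      rw [hq]
      exact Nat.div_mul_le_self _ _
    have h2 : (2 * κ + 1) * q ≤ (2 * κ + 1) * (2 * Q) := by
      have h3 : (2 * κ + 1) * (2 * Q) = 2 * ((2 * κ + 1) * Q) := by ring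
      rw [h3]
      rw [Nat.mul_comm] at h1
      omega
    exact Nat.le_of_mul_le_mul_left h2 hμ0
  have hTsucc : ∀ x, St (2 * κ + 1) (m - κ + x) ≥ T + x * (q + 1) := by
    intro x
    rw [hT, hq]
    exact St_add_ge _ _ _
  -- `|A ∩ K| = κ`
  have hBc : B.card = m - κ := by
    by_contra hne
    have h1 : m - κ + 1 ≤ B.card := by omega
    have h2 := rl hμ0 hB1 hBfib
    have h3 := hTsucc 1
    have h4 := (St_mono (μ := 2 * κ + 1) h1).trans h2
    rw [← hS] at h4
    have h5 : (S : ℤ) ≤ (T : ℤ) + ((9 * s : ℕ) : ℤ) := by rw [← hsum]; exact hc1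
    push_cast at h5
    omega
  have hJ : (A.filter (fun a => f a = 0)).card = κ := by omega
  -- the classes up to `q - 10 s` are full
  have hcls : ∀ k : ℕ, 1 ≤ k → k ≤ q - 10 * s →
      (A.filter (fun a => (f a).natAbs = k)).card = 2 * κ + 1 := by
    intro k h1 h2
    have h3 : A.filter (fun a => (f a).natAbs = k) = B.filter (fun a => (f a).natAbs = k) := by
      ext x
      rw [hB, Finset.mem_filter, Finset.mem_filter, Finset.mem_filter]
      constructor
      · rintro ⟨h4, h5⟩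
        exact ⟨⟨h4, by omega⟩, h5⟩
      · rintro ⟨⟨h4, _⟩, h5⟩
        exact ⟨h4, h5⟩
    rw [h3]
    apply le_antisymm (hBfib k)
    by_contra hlt2
    have h4 := rl2 hμ0 hB1 hBfib h1 (by omega)
    rw [hBc, ← hT, ← hq, ← hS] at h4
    have h5 : (S : ℤ) ≤ (T : ℤ) + ((9 * s : ℕ) : ℤ) := by rw [← hsum]; exact hc1
    push_cast at h5
    omega
  -- the top level
  have htop : ∀ a ∈ A, (f a).natAbs ≤ q + 1 + 9 * s := by
    intro a ha
    rcases Nat.eq_zero_or_pos (f a).natAbs with h0 | h0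
    · omega
    · have haB : a ∈ B := by
        rw [hB, Finset.mem_filter]
        exact ⟨ha, by omega⟩
      have h1 := rl3 hμ0 hB1 hBfib haB
      rw [← hS, hBc] at h1
      have h2 : T ≤ St (2 * κ + 1) (m - κ - 1) + (q + 1) := by
        have h3 := St_succ (2 * κ + 1) (m - κ - 1)
        have h4 : m - κ - 1 + 1 = m - κ := by omega
        rw [h4, ← hT] at h3
        have h5 : (m - κ - 1) / (2 * κ + 1) ≤ q := by
          rw [hq]
          exact Nat.div_le_div_right (by omega)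
        omega
      have h5 : (S : ℤ) ≤ (T : ℤ) + ((9 * s : ℕ) : ℤ) := by rw [← hsum]; exact hc1
      push_cast at h5
      omega
  -- the window
  have hsing := full_singles R.lvl R.asym R.AL (q := q - 10 * s) (fun k h1 h2 => by
    rw [hκ]
    exact hcls k h1 h2)
  have hrefl := hsing.refl (fun x hx => R.lvl.mem x (R.AL x hx))
  rw [← Pool.Agent.helper99.EX.sp_sub_sn] at hrefl
  have hFA : (F ∩ A).card = F.card := by
    rw [Finset.inter_eq_left.2 R.FA]
  have h0 := (reg_s0 R).1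
  have hw := win R hlt (Finset.Subset.refl A) (s := Q / 50) (by rw [hFA]; omega) (by omega)
  rw [← hs] at hw
  have hwin : Full c K (SS A) (-sn f A + 1) (sp f A - 1) := by
    have h1 := hsing.join hw (by omega)
    exact (h1.join hrefl (by omega)).sub le_rfl (by omega)
  refine ⟨q - 10 * s, κ, ?_⟩
  exact {
    hm := by omega
    hn := R.hn
    asym := R.asym
    card := R.card
    lvl := R.lvl
    AL := R.AL
    mu := hκ
    J := hJ
    q10 := by omega
    cls := hcls
    top := by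
      intro a ha
      have := htop a ha
      omega
    Sge := by
      rw [← hT]
      exact hStS
    Slt := by
      push_cast at hc2 ⊢
      omega
    win := hwin }

end Pool.Agent.helper99.EX
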