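import Pool.Agent.helper43.Ex.Lv
import Pool.Agent.helper43.Ex.Bfb
import Pool.Agent.helper43.Ex.RdA
import Pool.Agent.helper99.EX.LvA

/-! EX-T1: numerical consequences of `Reg` (`μ = (sf K).card`). -/

open Finset Pool.Agent.helper43.Rho Pool.Agent.helper43.Asy Pool.Agent.helper43.Ex

set_option linter.unusedSectionVars false

namespace Pool.Agent.helper99.EX

variable {n m : ℕ} [NeZero n] {A F : Finset (ZMod n)} {c : ZMod n} {K L : AddSubgroup (ZMod n)}
  {N : ℕ} {f : ZMod n → ℤ} {Q : ℕ}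

/-- the levels of `F` are in `[1, Q]`, each is used at most `μ` times (`fib`) -/
theorem reg_F_le (R : Reg n m A F c K L N f Q) : F.card ≤ (sf K).card * Q := by
  have h1 : F.card ≤ (sf K).card * (Finset.Icc 1 Q).card := by
    apply Finset.card_le_mul_card_image_of_maps_to (f := fun x => (f x).natAbs)
    · intro x hx
      rw [Finset.mem_Icc]
      have h0 := R.F0 x hx
      have h2 := R.FQ x hx
      have h3 : ((f x).natAbs : ℤ) = |f x| := Int.natCast_natAbs _
      omega
    · intro k _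
      exact (Finset.card_le_card (Finset.filter_subset_filter _ R.FA)).trans
        (fib R.lvl R.asym R.AL k)
  rwa [Nat.card_Icc, Nat.add_sub_cancel] at h1

theorem reg_F_m (R : Reg n m A F c K L N f Q) : F.card ≤ m := by
  rw [← R.card]
  exact Finset.card_le_card R.FA

theorem reg_Q (R : Reg n m A F c K L N f Q) :
    4 * m ≤ 5 * ((sf K).card * Q) ∧ 999 * ((sf K).card * Q) ≤ 1000 * m ∧ 2 ^ 270 ≤ Q := by
  have h1 := reg_F_le R
  have h2 := reg_F_m R
  have h3 := R.F4
  have h4 := R.hole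
  have h5 := R.mu
  have h6 := R.m0
  refine ⟨by omega, by omega, ?_⟩
  by_contra hQ
  have h9 : 2 ^ 300 = 2 ^ 270 * 2 ^ 30 := by rw [← pow_add]
  rw [h9] at h6
  generalize (2 : ℕ) ^ 270 = P at h6 hQ
  have h7 : (sf K).card * Q ≤ 10 ^ 6 * P := Nat.mul_le_mul h5 (by omega)
  have h10 : 1 ≤ P := by omega
  norm_num at h6 h7
  omega

theorem fst_le_V (n m : ℕ) : Fst n m ≤ m * (m + 1) / 2 := by
  unfold Fst
  exact (min_le_right _ _).trans (Nat.sub_le _ _)

theorem fst_le_corr (n m : ℕ) : Fst n m ≤ m * (m + 1) / 2 - corr n m := min_le_right _ _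

theorem fst_le_St (K : AddSubgroup (ZMod n)) (m : ℕ) :
    Fst n m ≤ (sf K).card * (1 + St (sf K).card (m - ((sf K).card - 1) / 2)) :=
  (min_le_left _ _).trans (FF_le (card_sf_dvd K))

theorem fst_le_L {A : Finset (ZMod n)} (hA : Asym A) (hm : A.card = m)
    {L : AddSubgroup (ZMod n)} (hL : ∀ a ∈ A, a ∈ L) : Fst n m ≤ (sf L).card :=
  (min_le_left _ _).trans (FF_le_card hA hm hL)

/-- `Reg` for `(-c, -f)` -/
theorem reg_neg (R : Reg n m A F c K L N f Q) : Reg n m A F (-c) K L N (fun x => -f x) Q where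
  m0 := R.m0
  hn := R.hn
  asym := R.asym
  card := R.card
  lvl := lvl_neg R.lvl
  AL := R.AL
  FA := R.FA
  F0 := fun x hx => neg_ne_zero.2 (R.F0 x hx)
  FQ := fun x hx => by rw [abs_neg]; exact R.FQ x hx
  mu := R.mu
  hole := R.hole
  F4 := R.F4

/-- a nonempty part of the sum of the levels: `|B| (|B| + 1) ≤ 2 μ ∑_{x ∈ B} |f x|` if `B ⊆ A` has
no element of level `0` (`rl`, `two_St_ge`) -/
theorem sum_lev_ge (h : Lvl c K L N f) (hA : Asym A) (hAL : ∀ a ∈ A, a ∈ L)
    (hA0 : ∀ a ∈ A, f a ≠ 0) :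
    St (sf K).card A.card ≤ ∑ x ∈ A, (f x).natAbs := by
  apply rl (sf_card_pos K)
  · intro a ha
    have := hA0 a ha
    omega
  · intro k
    exact fib h hA hAL k

end Pool.Agent.helper99.EX
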