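import Pool.Agent.helper99.EX.Win

/-! EX-T4: more numerical consequences of `Reg`; elements of small level. -/

open Finset Pool.Agent.helper43.Rho Pool.Agent.helper43.Asy Pool.Agent.helper43.Ex

set_option linter.unusedSectionVars false

namespace Pool.Agent.helper99.EX

variable {n m : ℕ} [NeZero n] {A F : Finset (ZMod n)} {c : ZMod n} {K L : AddSubgroup (ZMod n)}
  {N : ℕ} {f : ZMod n → ℤ} {Q : ℕ}

theorem big_270 {Q : ℕ} (h : 2 ^ 270 ≤ Q) : 10 ^ 30 ≤ Q := by
  have h1 : (10 : ℕ) ^ 30 ≤ 2 ^ 100 := by norm_num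
  have h2 : (2 : ℕ) ^ 100 ≤ 2 ^ 270 := Nat.pow_le_pow_right (by norm_num) (by norm_num)
  omega

theorem reg_Q30 (R : Reg n m A F c K L N f Q) : 10 ^ 30 ≤ Q := big_270 (reg_Q R).2.2

theorem reg_m30 (R : Reg n m A F c K L N f Q) : 10 ^ 29 ≤ m := by
  have h1 := reg_Q30 R
  have h2 := (reg_Q R).2.1
  have h3 := sf_card_pos K
  have h4 : Q ≤ (sf K).card * Q := Nat.le_mul_of_pos_left Q h3
  omega

/-- `2 m + 1 ≤ |L| = N μ` -/
theorem reg_L (R : Reg n m A F c K L N f Q) : 2 * m + 1 ≤ N * (sf K).card := by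
  rw [← R.lvl.card]
  have h1 := asym_card_subgroup R.asym L R.AL
  rw [← card_sf, R.card] at h1
  omega

theorem reg_N (R : Reg n m A F c K L N f Q) : Q ≤ N := by
  have h1 := reg_L R
  have h2 := (reg_Q R).2.1
  have h3 := sf_card_pos K
  have h4 : (sf K).card * Q ≤ (sf K).card * N := by
    rw [Nat.mul_comm _ N]
    omega
  exact Nat.le_of_mul_le_mul_left h4 h3

/-- `μ Q / 1000 + 30 μ + 2 ≤ μ s0`-type inequality, `s0 = Q / 50` -/
theorem reg_s0 (R : Reg n m A F c K L N f Q) :
    2 * ((sf K).card * Q) + 30 * (sf K).card + 2 ≤ (sf K).card * (Q / 50) + 2 * F.card ∧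
    2 * ((sf K).card * Q) + 30 * (sf K).card + 4 * (Q / 50) + 2 ≤
      (sf K).card * (5 * (Q / 50)) + 2 * F.card := by
  have h1 := R.hole
  have h2 := reg_Q30 R
  have h3 := sf_card_pos K
  obtain ⟨s, hs⟩ : ∃ s, s = Q / 50 := ⟨_, rfl⟩
  rw [← hs]
  have h4 : Q ≤ 50 * s + 49 := by omega
  have h5 : (sf K).card * Q ≤ (sf K).card * (50 * s + 49) := Nat.mul_le_mul_left _ h4
  have h6 : (sf K).card * (50 * s + 49) = 50 * ((sf K).card * s) + 49 * (sf K).card := by ring
  have h7 : (sf K).card * (5 * s) = 5 * ((sf K).card * s) := by ring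
  have h8 : s ≤ (sf K).card * s := Nat.le_mul_of_pos_left s h3
  have h9 : (sf K).card * 1000 ≤ (sf K).card * s := Nat.mul_le_mul_left _ (by omega)
  rw [h7]
  constructor <;> omega

/-- a subset `B` of `F` with few missing elements has an element of small level: otherwise
`|B| ≤ μ (Q - t)`. -/
theorem exists_small (R : Reg n m A F c K L N f Q) {B : Finset (ZMod n)} (hB : B ⊆ F) {t : ℕ}
    (ht : t ≤ Q) (h : (sf K).card * (Q - t) < B.card) : ∃ a ∈ B, (f a).natAbs ≤ t := by
  by_contra hcon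
  push Not at hcon
  have h1 : B.card ≤ (sf K).card * (Finset.Icc (t + 1) Q).card := by
    apply Finset.card_le_mul_card_image_of_maps_to (f := fun x => (f x).natAbs)
    · intro x hx
      rw [Finset.mem_Icc]
      have h0 := hcon x hx
      have h2 := R.FQ x (hB hx)
      have h3 : ((f x).natAbs : ℤ) = |f x| := Int.natCast_natAbs _
      omega
    · intro k _
      exact (Finset.card_le_card (Finset.filter_subset_filter _ (hB.trans R.FA))).trans
        (fib R.lvl R.asym R.AL k)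
  rw [Nat.card_Icc] at h1
  have h2 : Q + 1 - (t + 1) = Q - t := by omega
  rw [h2] at h1
  omega

end Pool.Agent.helper99.EX
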