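import Pool.Agent.helper99.EX.UpV

/-! EX-U: full classes `j + K`, `1 ≤ j ≤ a`, and a few elements of `K`, `|K| = μ`. -/

open Finset Pool.Agent.helper43.Rho Pool.Agent.helper43.Asy

namespace Pool.Agent.helper99.EX

/-- the elements outside the subgroup -/
def OO (N μ a : ℕ) : Finset ℕ :=
  (Finset.Icc 1 a ×ˢ Finset.range μ).image (fun p => p.1 + N * p.2)

/-- the whole set -/
def T3 (N μ a : ℕ) (J : Finset ℕ) : Finset ℕ := J.image (fun i => N * i) ∪ OO N μ a

theorem mem_OO {N μ a x : ℕ} :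
    x ∈ OO N μ a ↔ ∃ j i, 1 ≤ j ∧ j ≤ a ∧ i < μ ∧ j + N * i = x := by
  unfold OO
  simp only [Finset.mem_image, Finset.mem_product, Finset.mem_Icc, Finset.mem_range, Prod.exists]
  constructor
  · rintro ⟨j, i, ⟨⟨h1, h2⟩, h3⟩, h4⟩
    exact ⟨j, i, h1, h2, h3, h4⟩
  · rintro ⟨j, i, h1, h2, h3, h4⟩
    exact ⟨j, i, ⟨⟨h1, h2⟩, h3⟩, h4⟩

theorem OO_mod {N μ a x : ℕ} (hN : a < N) (hx : x ∈ OO N μ a) : 1 ≤ x % N ∧ x % N ≤ a := by
  rw [mem_OO] at hx
  obtain ⟨j, i, h1, h2, _, rfl⟩ := hx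
  rw [Nat.add_mul_mod_self_left, Nat.mod_eq_of_lt (by omega)]
  exact ⟨h1, h2⟩

theorem OO_injOn {N μ a : ℕ} (hN : a < N) :
    Set.InjOn (fun p : ℕ × ℕ => p.1 + N * p.2)
      ((Finset.Icc 1 a ×ˢ Finset.range μ : Finset (ℕ × ℕ)) : Set (ℕ × ℕ)) := by
  rintro ⟨j, i⟩ h1 ⟨j', i'⟩ h2 h3
  simp only [Finset.coe_product, Set.mem_prod, Finset.mem_coe, Finset.mem_Icc,
    Finset.mem_range] at h1 h2
  simp only at h3
  have h4 : (j + N * i) % N = (j' + N * i') % N := by rw [h3]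
  rw [Nat.add_mul_mod_self_left, Nat.add_mul_mod_self_left, Nat.mod_eq_of_lt (by omega),
    Nat.mod_eq_of_lt (by omega)] at h4
  subst h4
  have h5 : N * i = N * i' := by omega
  have h6 := Nat.eq_of_mul_eq_mul_left (by omega) h5
  subst h6
  rfl

theorem card_OO {N μ a : ℕ} (hN : a < N) : (OO N μ a).card = a * μ := by
  unfold OO
  rw [Finset.card_image_of_injOn (OO_injOn hN), Finset.card_product, Nat.card_Icc,
    Finset.card_range, Nat.add_sub_cancel]

theorem sum_OO_mod {N μ a : ℕ} (hN : a < N) :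
    ∑ x ∈ OO N μ a, x % N = μ * (a * (a + 1) / 2) := by
  unfold OO
  rw [Finset.sum_image (OO_injOn hN), Finset.sum_product, ← sum_Icc_id_mul, Finset.mul_sum]
  apply Finset.sum_congr rfl
  intro j hj
  rw [Finset.mem_Icc] at hj
  have h1 : ∀ i ∈ Finset.range μ, (j + N * i) % N = j := by
    intro i _
    rw [Nat.add_mul_mod_self_left, Nat.mod_eq_of_lt (by omega)]
  rw [Finset.sum_congr rfl h1]
  simp

theorem sum_OO_div {N μ a : ℕ} (hN : a < N) :
    ∑ x ∈ OO N μ a, x / N = a * ∑ i ∈ Finset.range μ, i := by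
  unfold OO
  rw [Finset.sum_image (OO_injOn hN), Finset.sum_product]
  have h0 : ∀ j ∈ Finset.Icc 1 a,
      ∑ i ∈ Finset.range μ, (j + N * i) / N = ∑ i ∈ Finset.range μ, i := by
    intro j hj
    rw [Finset.mem_Icc] at hj
    apply Finset.sum_congr rfl
    intro i _
    rw [Nat.add_mul_div_left _ _ (by omega), Nat.div_eq_of_lt (by omega), zero_add]
  rw [Finset.sum_congr rfl h0]
  simp

variable {N μ a : ℕ} {J : Finset ℕ}

theorem T3_disj (hN : a < N) : Disjoint (J.image (fun i => N * i)) (OO N μ a) := by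
  rw [Finset.disjoint_left]
  intro x h1 h2
  have h3 := OO_mod hN h2
  rw [Finset.mem_image] at h1
  obtain ⟨i, _, rfl⟩ := h1
  rw [Nat.mul_mod_right] at h3
  omega

theorem card_T3 (hN : a < N) : (T3 N μ a J).card = J.card + a * μ := by
  unfold T3
  rw [Finset.card_union_of_disjoint (T3_disj hN), card_OO hN, Finset.card_image_of_injective]
  intro x y hxy
  exact Nat.eq_of_mul_eq_mul_left (by omega) hxy

theorem T3_lt (hN : a < N) (hJ : ∀ j ∈ J, 1 ≤ j ∧ j < μ) : ∀ x ∈ T3 N μ a J, x < N * μ := by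
  intro x hx
  unfold T3 at hx
  rw [Finset.mem_union, Finset.mem_image, mem_OO] at hx
  rcases hx with ⟨i, hi, rfl⟩ | ⟨j, i, h1, h2, h3, rfl⟩
  · exact Nat.mul_lt_mul_of_pos_left (hJ i hi).2 (by omega)
  · have h4 : N * (i + 1) ≤ N * μ := Nat.mul_le_mul_left _ (by omega)
    have h5 : N * (i + 1) = N * i + N := by ring
    omega

theorem T3_mod (hN : a < N) : ∀ x ∈ T3 N μ a J, x % N ≤ a := by
  intro x hx
  unfold T3 at hx
  rw [Finset.mem_union, Finset.mem_image] at hx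
  rcases hx with ⟨i, hi, rfl⟩ | hx
  · rw [Nat.mul_mod_right]
    omega
  · exact (OO_mod hN hx).2

theorem T3_pair (hN : 2 * a < N) (hJas : ∀ i ∈ J, ∀ j ∈ J, ¬ μ ∣ i + j) :
    ∀ x ∈ T3 N μ a J, ∀ y ∈ T3 N μ a J, ¬ N * μ ∣ x + y := by
  intro x hx y hy hd
  have hx1 := T3_mod (by omega) x hx
  have hy1 := T3_mod (by omega) y hy
  have h1 : N ∣ x + y := (Dvd.intro _ rfl : N ∣ N * μ).trans hd
  have h2 : (x % N + y % N) % N = 0 := by
    rw [← Nat.add_mod]
    exact Nat.mod_eq_zero_of_dvd h1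
  rw [Nat.mod_eq_of_lt (by omega)] at h2
  unfold T3 at hx hy
  rw [Finset.mem_union, Finset.mem_image] at hx hy
  rcases hx with ⟨i, hi, rfl⟩ | hx
  · rcases hy with ⟨j, hj, rfl⟩ | hy
    · rw [← mul_add] at hd
      exact hJas i hi j hj (Nat.dvd_of_mul_dvd_mul_left (by omega) hd)
    · have := (OO_mod (by omega) hy).1
      omega
  · have := (OO_mod (by omega) hx).1
    omega

/-- the sum of a nonempty subset is `N p + w`, `w ≤ S`, and the cases `w = 0`, `w = S` -/
theorem T3_sum (hN : a < N) {B : Finset ℕ} (hB : B ⊆ T3 N μ a J)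
    (hne : B.Nonempty) :
    ∃ w p, ∑ y ∈ B, y = N * p + w ∧ w ≤ μ * (a * (a + 1) / 2) ∧
      (w = 0 → ∃ C ⊆ J, C.Nonempty ∧ p = ∑ i ∈ C, i) ∧
      (w = μ * (a * (a + 1) / 2) → ∃ C ⊆ J, p = a * (∑ i ∈ Finset.range μ, i) + ∑ i ∈ C, i) := by
  classical
  have hN0 : 0 < N := by omega
  set f : ℕ → ℕ := fun i => N * i with hf
  have hinj : Function.Injective f := fun x y hxy => Nat.eq_of_mul_eq_mul_left hN0 hxy
  set C := J.filter (fun i => N * i ∈ B) with hC
  set O := B ∩ OO N μ a with hO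
  have hBB : B = C.image f ∪ O := by
    ext x
    rw [Finset.mem_union, Finset.mem_image, hO, Finset.mem_inter]
    constructor
    · intro hx
      have h1 := hB hx
      unfold T3 at h1
      rw [Finset.mem_union, Finset.mem_image] at h1
      rcases h1 with ⟨i, hi, rfl⟩ | h1
      · left
        exact ⟨i, Finset.mem_filter.2 ⟨hi, hx⟩, rfl⟩
      · right
        exact ⟨hx, h1⟩
    · rintro (⟨i, hi, rfl⟩ | h)
      · exact (Finset.mem_filter.1 hi).2
      · exact h.1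
  have hCJ : C ⊆ J := Finset.filter_subset _ _
  have hdis : Disjoint (C.image f) O := by
    rw [Finset.disjoint_left]
    intro x h1 h2
    exact Finset.disjoint_left.1 (T3_disj (J := J) (μ := μ) hN)
      (Finset.image_subset_image hCJ h1) (Finset.mem_inter.1 h2).2
  have hOO : O ⊆ OO N μ a := Finset.inter_subset_right
  refine ⟨∑ y ∈ O, y % N, ∑ y ∈ O, y / N + ∑ i ∈ C, i, ?_, ?_, ?_, ?_⟩
  · rw [hBB, Finset.sum_union hdis, Finset.sum_image (fun a _ b _ hab => hinj hab)]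
    have h1 : ∑ y ∈ O, y = N * ∑ y ∈ O, y / N + ∑ y ∈ O, y % N := by
      rw [Finset.mul_sum, ← Finset.sum_add_distrib]
      exact Finset.sum_congr rfl fun y _ => (Nat.div_add_mod y N).symm
    rw [h1, hf, ← Finset.mul_sum]
    ring
  · rw [← sum_OO_mod hN]
    exact Finset.sum_le_sum_of_subset hOO
  · intro hw
    have h1 : O = ∅ := by
      by_contra h
      obtain ⟨x, hx⟩ := Finset.nonempty_iff_ne_empty.2 h
      have h2 := (OO_mod hN (hOO hx)).1
      have h3 := Finset.single_le_sum (f := fun y : ℕ => y % N) (fun _ _ => Nat.zero_le _) hx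
      omega
    refine ⟨C, hCJ, ?_, ?_⟩
    · rw [h1, Finset.union_empty] at hBB
      rw [hBB] at hne
      exact Finset.image_nonempty.1 hne
    · rw [h1]
      simp
  · intro hw
    have h1 : O = OO N μ a := by
      by_contra h
      have h2 : O ⊂ OO N μ a := lt_of_le_of_ne hOO h
      obtain ⟨x, hx, hx2⟩ := Finset.exists_of_ssubset h2
      have h3 : ∑ y ∈ insert x O, y % N ≤ ∑ y ∈ OO N μ a, y % N :=
        Finset.sum_le_sum_of_subset (Finset.insert_subset hx hOO)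
      rw [Finset.sum_insert hx2, sum_OO_mod hN] at h3
      have h4 := (OO_mod hN hx).1
      omega
    refine ⟨C, hCJ, ?_⟩
    rw [h1, sum_OO_div hN]

end Pool.Agent.helper99.EX
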