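import Pool.Agent.helper43.Ex.Defs
import Pool.Agent.helper43.Asy.UpB

/-! EX-U: upper bounds, sets given by natural numbers. -/

open Finset Pool.Agent.helper43.Rho Pool.Agent.helper43.Asy

namespace Pool.Agent.helper99.EX

theorem injOn_cast {n : ℕ} {T : Finset ℕ} (hT : ∀ x ∈ T, x < n) :
    Set.InjOn (fun x : ℕ => (x : ZMod n)) (T : Set ℕ) := by
  intro a ha b hb hab
  have hab' : (a : ZMod n) = (b : ZMod n) := hab
  rw [ZMod.natCast_eq_natCast_iff'] at hab'
  rwa [Nat.mod_eq_of_lt (hT a ha), Nat.mod_eq_of_lt (hT b hb)] at hab'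

/-- sums of the nonempty subsets of the image of a set of natural numbers -/
theorem mem_SigmaStar_image {n : ℕ} {T : Finset ℕ} (hT : ∀ x ∈ T, x < n) {x : ZMod n}
    (hx : x ∈ SigmaStar (T.image (fun y : ℕ => (y : ZMod n)))) :
    ∃ B ⊆ T, B.Nonempty ∧ x = ((∑ y ∈ B, y : ℕ) : ZMod n) := by
  classical
  rw [mem_SigmaStar] at hx
  obtain ⟨B, hB, hne, rfl⟩ := hx
  set B' : Finset ℕ := T.filter (fun x : ℕ => (x : ZMod n) ∈ B) with hB'
  have hB'sub : B' ⊆ T := Finset.filter_subset _ _
  have hBB : B = B'.image (fun x : ℕ => (x : ZMod n)) := by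
    ext b
    constructor
    · intro hb
      have h1 := hB hb
      rw [Finset.mem_image] at h1
      obtain ⟨y, hy, rfl⟩ := h1
      exact Finset.mem_image_of_mem _ (Finset.mem_filter.2 ⟨hy, hb⟩)
    · intro hb
      rw [Finset.mem_image] at hb
      obtain ⟨y, hy, rfl⟩ := hb
      exact (Finset.mem_filter.1 hy).2
  refine ⟨B', hB'sub, ?_, ?_⟩
  · rw [hBB] at hne
    exact Finset.image_nonempty.1 hne
  · rw [hBB, Finset.sum_image (fun a ha b hb hab => injOn_cast hT (hB'sub ha) (hB'sub hb) hab),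
      Nat.cast_sum]

theorem asym_image {n : ℕ} {T : Finset ℕ} (h : ∀ x ∈ T, ∀ y ∈ T, ¬ n ∣ x + y) :
    ∀ a ∈ T.image (fun y : ℕ => (y : ZMod n)), -a ∉ T.image (fun y : ℕ => (y : ZMod n)) := by
  intro a ha hna
  rw [Finset.mem_image] at ha hna
  obtain ⟨x, hx, rfl⟩ := ha
  obtain ⟨y, hy, hxy⟩ := hna
  have h1 : ((x + y : ℕ) : ZMod n) = 0 := by
    push_cast
    rw [hxy]
    ring
  rw [ZMod.natCast_eq_zero_iff] at h1
  exact h x hx y hy h1

theorem card_image_cast {n : ℕ} {T : Finset ℕ} (hT : ∀ x ∈ T, x < n) :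
    (T.image (fun y : ℕ => (y : ZMod n))).card = T.card :=
  Finset.card_image_of_injOn (injOn_cast hT)

theorem sum_Icc_id_mul (m : ℕ) : ∑ y ∈ Finset.Icc 1 m, y = m * (m + 1) / 2 := by
  have h : ∀ m : ℕ, (∑ y ∈ Finset.Icc 1 m, y) * 2 = m * (m + 1) := by
    intro m
    induction m with
    | zero => simp
    | succ m ih =>
      rw [Finset.sum_Icc_succ_top (by omega), add_mul, ih]
      ring
  have := h m
  omega

/-- `A = {1, ..., m}` -/
theorem up_V {n m : ℕ} (hn : 2 * m < n) :
    ∃ A : Finset (ZMod n), A.card = m ∧ (∀ a ∈ A, -a ∉ A) ∧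
      (SigmaStar A).card ≤ m * (m + 1) / 2 := by
  classical
  have hT : ∀ x ∈ Finset.Icc 1 m, x < n := by
    intro x hx
    rw [Finset.mem_Icc] at hx
    omega
  refine ⟨(Finset.Icc 1 m).image (fun y : ℕ => (y : ZMod n)), ?_, ?_, ?_⟩
  · rw [card_image_cast hT, Nat.card_Icc]
    omega
  · apply asym_image
    intro x hx y hy hd
    rw [Finset.mem_Icc] at hx hy
    have := Nat.le_of_dvd (by omega) hd
    omega
  · have hsub : SigmaStar ((Finset.Icc 1 m).image (fun y : ℕ => (y : ZMod n))) ⊆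
        (Finset.Icc 1 (m * (m + 1) / 2)).image (fun y : ℕ => (y : ZMod n)) := by
      intro x hx
      obtain ⟨B, hB, hne, rfl⟩ := mem_SigmaStar_image hT hx
      apply Finset.mem_image_of_mem (fun y : ℕ => (y : ZMod n))
      rw [Finset.mem_Icc]
      constructor
      · obtain ⟨b, hb⟩ := hne
        have h1 := Finset.mem_Icc.1 (hB hb)
        exact h1.1.trans (Finset.single_le_sum (f := fun y : ℕ => y) (fun _ _ => Nat.zero_le _) hb)
      · rw [← sum_Icc_id_mul]
        exact Finset.sum_le_sum_of_subset hB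
    refine (Finset.card_le_card hsub).trans (Finset.card_image_le.trans ?_)
    rw [Nat.card_Icc]
    omega

/-- a set without zero sums in the subgroup of order `d` -/
theorem up_sub {n m d : ℕ} (hn : 0 < n) (hd : d ∣ n) {T : Finset ℕ} (hT : ∀ x ∈ T, x < d)
    (hc : T.card = m) (has : ∀ x ∈ T, ∀ y ∈ T, ¬ d ∣ x + y)
    (hz : ∀ B ⊆ T, B.Nonempty → ¬ d ∣ ∑ y ∈ B, y) :
    ∃ A : Finset (ZMod n), A.card = m ∧ (∀ a ∈ A, -a ∉ A) ∧ (SigmaStar A).card ≤ d - 1 := by
  classical
  obtain ⟨e, rfl⟩ := hd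
  have he : 0 < e := Nat.pos_of_mul_pos_left hn
  have hd0 : 0 < d := Nat.pos_of_mul_pos_right hn
  have hinj : Function.Injective (fun y : ℕ => e * y) := fun a b hab =>
    Nat.eq_of_mul_eq_mul_left he hab
  set T' := T.image (fun y => e * y) with hT'
  have hTn : ∀ x ∈ T', x < d * e := by
    intro x hx
    rw [hT', Finset.mem_image] at hx
    obtain ⟨y, hy, rfl⟩ := hx
    rw [mul_comm d e]
    exact Nat.mul_lt_mul_of_pos_left (hT y hy) he
  refine ⟨T'.image (fun y : ℕ => (y : ZMod (d * e))), ?_, ?_, ?_⟩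
  · rw [card_image_cast hTn, hT', Finset.card_image_of_injective _ hinj, hc]
  · apply asym_image
    intro x hx y hy hdv
    rw [hT', Finset.mem_image] at hx hy
    obtain ⟨x, hx, rfl⟩ := hx
    obtain ⟨y, hy, rfl⟩ := hy
    rw [← mul_add, mul_comm d e] at hdv
    exact has x hx y hy (Nat.dvd_of_mul_dvd_mul_left he hdv)
  · have hsub : SigmaStar (T'.image (fun y : ℕ => (y : ZMod (d * e)))) ⊆
        (Finset.Icc 1 (d - 1)).image (fun y : ℕ => ((e * y : ℕ) : ZMod (d * e))) := by
      intro x hx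
      obtain ⟨B, hB, hne, rfl⟩ := mem_SigmaStar_image hTn hx
      set B' := T.filter (fun y => e * y ∈ B) with hB'
      have hBB : B = B'.image (fun y => e * y) := by
        ext b
        constructor
        · intro hb
          have h1 := hB hb
          rw [hT', Finset.mem_image] at h1
          obtain ⟨y, hy, rfl⟩ := h1
          exact Finset.mem_image_of_mem _ (Finset.mem_filter.2 ⟨hy, hb⟩)
        · intro hb
          rw [Finset.mem_image] at hb
          obtain ⟨y, hy, rfl⟩ := hb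
          exact (Finset.mem_filter.1 hy).2
      have hne' : B'.Nonempty := by
        rw [hBB] at hne
        exact Finset.image_nonempty.1 hne
      have hs : ∑ y ∈ B, y = e * ∑ y ∈ B', y := by
        rw [hBB, Finset.sum_image (fun a _ b _ hab => hinj hab), Finset.mul_sum]
      have hnd := hz B' (Finset.filter_subset _ _) hne'
      rw [Finset.mem_image]
      refine ⟨(∑ y ∈ B', y) % d, ?_, ?_⟩
      · rw [Finset.mem_Icc]
        have h1 := Nat.mod_lt (∑ y ∈ B', y) hd0
        have h2 : (∑ y ∈ B', y) % d ≠ 0 := fun h => hnd (Nat.dvd_of_mod_eq_zero h)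
        omega
      · rw [hs, ZMod.natCast_eq_natCast_iff, mul_comm d e]
        exact Nat.ModEq.mul_left' e (Nat.mod_modEq _ _)
    refine (Finset.card_le_card hsub).trans (Finset.card_image_le.trans ?_)
    rw [Nat.card_Icc]
    omega

end Pool.Agent.helper99.EX
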