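import Pool.Agent.helper99.EX.UpN

/-! EX-U: upper bounds `V - 1` if `V ∣ n`, `V - 2` if `V - 1 ∣ n`. -/

open Finset Pool.Agent.helper43.Rho Pool.Agent.helper43.Asy

namespace Pool.Agent.helper99.EX

private theorem two_V (m : ℕ) : 2 * (m * (m + 1) / 2) = m * (m + 1) := by
  obtain ⟨k, hk⟩ := Nat.even_mul_succ_self m
  omega

/-- `(n / d) {-1, 2, ..., m}`, `d = V` -/
theorem up_dV {n m : ℕ} (hm : 4 ≤ m) (hn : 0 < n) (hd : m * (m + 1) / 2 ∣ n) :
    ∃ A : Finset (ZMod n), A.card = m ∧ (∀ a ∈ A, -a ∉ A) ∧
      (SigmaStar A).card ≤ m * (m + 1) / 2 - 1 := by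
  classical
  set d := m * (m + 1) / 2 with hdd
  have h2 : 2 * d = m * (m + 1) := two_V m
  have hdm : 2 * m < d := by nlinarith
  have hsum : ∑ y ∈ Finset.Icc 2 m, y = d - 1 := by
    have h1 := sum_Icc_id_mul m
    have h3 : Finset.Icc 1 m = insert 1 (Finset.Icc 2 m) := by
      ext x
      simp only [Finset.mem_Icc, Finset.mem_insert]
      omega
    rw [h3, Finset.sum_insert (by simp)] at h1
    omega
  set T : Finset ℕ := insert (d - 1) (Finset.Icc 2 m) with hT
  have hnot : d - 1 ∉ Finset.Icc 2 m := by
    rw [Finset.mem_Icc]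
    omega
  have hlt : ∀ x ∈ T, x < d := by
    intro x hx
    rw [hT, Finset.mem_insert, Finset.mem_Icc] at hx
    omega
  apply up_sub hn hd hlt
  · rw [hT, Finset.card_insert_of_notMem hnot, Nat.card_Icc]
    omega
  · intro x hx y hy hxy
    rw [hT, Finset.mem_insert, Finset.mem_Icc] at hx hy
    obtain ⟨k, hk⟩ := hxy
    have hk1 : k ≠ 0 := by
      rintro rfl
      omega
    have hk2 : k < 2 := by
      by_contra hk2
      have : d * 2 ≤ d * k := Nat.mul_le_mul_left d (by omega)
      omega
    have : k = 1 := by omega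
    subst this
    omega
  · intro B hB hne hdv
    have hle : ∀ C ⊆ Finset.Icc 2 m, ∑ y ∈ C, y ≤ d - 1 := by
      intro C hC
      rw [← hsum]
      exact Finset.sum_le_sum_of_subset hC
    have hge : ∀ C ⊆ Finset.Icc 2 m, C.Nonempty → 2 ≤ ∑ y ∈ C, y := by
      intro C hC hCne
      obtain ⟨b, hb⟩ := hCne
      have h1 := Finset.mem_Icc.1 (hC hb)
      exact h1.1.trans (Finset.single_le_sum (f := fun y : ℕ => y) (fun _ _ => Nat.zero_le _) hb)
    by_cases hb : d - 1 ∈ B
    · have hC : B.erase (d - 1) ⊆ Finset.Icc 2 m := by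
        intro x hx
        rw [Finset.mem_erase] at hx
        have h1 := hB hx.2
        rw [hT, Finset.mem_insert] at h1
        rcases h1 with h1 | h1
        · exact absurd h1 hx.1
        · exact h1
      have h3 : _ + ∑ y ∈ B.erase _, y = ∑ y ∈ B, y := Finset.add_sum_erase B (fun y : ℕ => y) hb
      have h4 := hle _ hC
      obtain ⟨k, hk⟩ := hdv
      rcases (B.erase (d - 1)).eq_empty_or_nonempty with h0 | h0
      · rw [h0] at h3
        simp only [Finset.sum_empty] at h3
        rw [hk] at h3
        rcases Nat.eq_zero_or_pos k with hk0 | hk0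
        · subst hk0; omega
        · have : d * 1 ≤ d * k := Nat.mul_le_mul_left d hk0
          omega
      · have h5 := hge _ hC h0
        rw [hk] at h3
        have hk2 : k < 2 := by
          by_contra hk2
          have : d * 2 ≤ d * k := Nat.mul_le_mul_left d (by omega)
          omega
        have hk1 : 1 < k := by
          by_contra hk1
          have : d * k ≤ d * 1 := Nat.mul_le_mul_left d (by omega)
          omega
        omega
    · have hC : B ⊆ Finset.Icc 2 m := by
        intro x hx
        have h1 := hB hx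
        rw [hT, Finset.mem_insert] at h1
        rcases h1 with h1 | h1
        · exact absurd (h1 ▸ hx) hb
        · exact h1
      have h4 := hle _ hC
      have h5 := hge _ hC hne
      have := Nat.le_of_dvd (by omega) hdv
      omega

/-- `(n / d) {1, -2, 3, ..., m}`, `d = V - 1` -/
theorem up_dV1 {n m : ℕ} (hm : 5 ≤ m) (hn : 0 < n) (hd : m * (m + 1) / 2 - 1 ∣ n) :
    ∃ A : Finset (ZMod n), A.card = m ∧ (∀ a ∈ A, -a ∉ A) ∧
      (SigmaStar A).card ≤ m * (m + 1) / 2 - 2 := by
  classical
  set d := m * (m + 1) / 2 - 1 with hdd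
  have h2 : 2 * (d + 1) = m * (m + 1) := by
    have h3 := two_V m
    have h4 : 1 ≤ m * (m + 1) / 2 := by
      by_contra h
      have : 1 ≤ m * (m + 1) := Nat.mul_pos (by omega) (by omega)
      omega
    omega
  have hdm : 2 * m < d := by nlinarith
  have e1 : m * (m + 1) / 2 - 2 = d - 1 := by omega
  rw [e1]
  set T0 : Finset ℕ := insert 1 (Finset.Icc 3 m) with hT0
  have hn1 : 1 ∉ Finset.Icc 3 m := by simp
  have hsum : ∑ y ∈ T0, y = d - 1 := by
    have h1 := sum_Icc_id_mul m
    have h3 : Finset.Icc 1 m = insert 2 T0 := by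
      ext x
      simp only [hT0, Finset.mem_Icc, Finset.mem_insert]
      omega
    have h4 : 2 ∉ T0 := by simp [hT0]
    rw [h3, Finset.sum_insert h4] at h1
    omega
  set T : Finset ℕ := insert (d - 2) T0 with hT
  have memT0 : ∀ x, x ∈ T0 ↔ x = 1 ∨ (3 ≤ x ∧ x ≤ m) := by
    intro x
    rw [hT0, Finset.mem_insert, Finset.mem_Icc]
  have hnot : d - 2 ∉ T0 := by
    rw [memT0]
    omega
  have memT : ∀ x, x ∈ T ↔ x = d - 2 ∨ x = 1 ∨ (3 ≤ x ∧ x ≤ m) := by
    intro x
    rw [hT, Finset.mem_insert, memT0]
  have hlt : ∀ x ∈ T, x < d := by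
    intro x hx
    rw [memT] at hx
    omega
  apply up_sub hn hd hlt
  · rw [hT, Finset.card_insert_of_notMem hnot, hT0, Finset.card_insert_of_notMem hn1, Nat.card_Icc]
    omega
  · intro x hx y hy hxy
    rw [memT] at hx hy
    obtain ⟨k, hk⟩ := hxy
    have hk1 : k ≠ 0 := by
      rintro rfl
      omega
    have hk2 : k < 2 := by
      by_contra hk2
      have : d * 2 ≤ d * k := Nat.mul_le_mul_left d (by omega)
      omega
    have : k = 1 := by omega
    subst this
    omega
  · intro B hB hne hdv
    have hle : ∀ C ⊆ T0, ∑ y ∈ C, y ≤ d - 1 := by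
      intro C hC
      rw [← hsum]
      exact Finset.sum_le_sum_of_subset hC
    have hge : ∀ C ⊆ T0, C.Nonempty → ∑ y ∈ C, y = 1 ∨ 3 ≤ ∑ y ∈ C, y := by
      intro C hC hCne
      by_cases h : ∃ b ∈ C, 3 ≤ b
      · obtain ⟨b, hb, hb3⟩ := h
        right
        exact hb3.trans (Finset.single_le_sum (f := fun y : ℕ => y) (fun _ _ => Nat.zero_le _) hb)
      · push Not at h
        have h1 : C = {1} := by
          apply (Finset.Nonempty.subset_singleton_iff hCne).1
          intro x hx
          have h3 := (memT0 x).1 (hC hx)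
          have h4 := h x hx
          rw [Finset.mem_singleton]
          omega
        left
        rw [h1]
        simp
    by_cases hb : d - 2 ∈ B
    · have hC : B.erase (d - 2) ⊆ T0 := by
        intro x hx
        rw [Finset.mem_erase] at hx
        have h1 := hB hx.2
        rw [hT, Finset.mem_insert] at h1
        rcases h1 with h1 | h1
        · exact absurd h1 hx.1
        · exact h1
      have h3 : _ + ∑ y ∈ B.erase _, y = ∑ y ∈ B, y := Finset.add_sum_erase B (fun y : ℕ => y) hb
      have h4 := hle _ hC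
      obtain ⟨k, hk⟩ := hdv
      rcases (B.erase (d - 2)).eq_empty_or_nonempty with h0 | h0
      · rw [h0] at h3
        simp only [Finset.sum_empty] at h3
        rw [hk] at h3
        rcases Nat.eq_zero_or_pos k with hk0 | hk0
        · subst hk0; omega
        · have : d * 1 ≤ d * k := Nat.mul_le_mul_left d hk0
          omega
      · have h5 := hge _ hC h0
        rw [hk] at h3
        have hk2 : k < 2 := by
          by_contra hk2
          have : d * 2 ≤ d * k := Nat.mul_le_mul_left d (by omega)
          omega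
        rcases (by omega : k = 0 ∨ k = 1) with hk1 | hk1
        · subst hk1; omega
        · subst hk1; omega
    · have hC : B ⊆ T0 := by
        intro x hx
        have h1 := hB hx
        rw [hT, Finset.mem_insert] at h1
        rcases h1 with h1 | h1
        · exact absurd (h1 ▸ hx) hb
        · exact h1
      have h4 := hle _ hC
      have h5 := hge _ hC hne
      have := Nat.le_of_dvd (by omega) hdv
      omega

end Pool.Agent.helper99.EX
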