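import Pool.Agent.helper43.Ex.Wj
import Pool.Agent.helper99.EX.RgA

/-! EX-T3: windows of `SS A'`, `A' ⊆ A` (4.1 of the paper proof). -/

open Finset Pool.Agent.helper43.Rho Pool.Agent.helper43.Asy Pool.Agent.helper43.Ex

set_option linter.unusedSectionVars false

namespace Pool.Agent.helper99.EX

variable {n m : ℕ} [NeZero n] {A F : Finset (ZMod n)} {c : ZMod n} {K L : AddSubgroup (ZMod n)}
  {N : ℕ} {f : ZMod n → ℤ} {Q : ℕ}

private theorem win_num {m μ P x t S V : ℕ} (hm : 100 ≤ m) (h1 : 2 * P + 30 * μ ≤ t + 2 * x)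
    (h2 : 8 * t ≤ P) (h3 : 4 * m ≤ 5 * P) (h4 : 999 * P ≤ 1000 * m) (h5 : x * (x + 1) ≤ 2 * S)
    (hV : 2 * V ≤ m * (m + 1)) : 2 * t ≤ S ∧ V < 2 * (S - 2 * t + μ) := by
  have hx : 3 * m ≤ 4 * x := by omega
  have h6 : 9 * (m * m) ≤ 16 * (x * x) := by nlinarith
  have h7 : x * x ≤ 2 * S := by nlinarith
  have h8 : 100 * m ≤ m * m := Nat.mul_le_mul_right m hm
  have h9 : m * (m + 1) = m * m + m := by ring
  rw [h9] at hV
  constructor
  · omega
  · omega

/-- `bulk` for `F ∩ A'`, then `Full.union_all`; the number of sums is less than `V + 1`, the double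
of a window is larger. -/
theorem win (R : Reg n m A F c K L N f Q) (hlt : (SigmaStar A).card < Fst n m)
    {A' : Finset (ZMod n)} (hA' : A' ⊆ A) {s : ℕ}
    (h1 : 2 * ((sf K).card * Q) + 30 * (sf K).card ≤ (sf K).card * s + 2 * (F ∩ A').card)
    (h8 : 8 * s ≤ Q) : Full c K (SS A') (-sn f A' + s) (sp f A' - s) := by
  classical
  obtain ⟨F', hF'⟩ : ∃ F', F' = F ∩ A' := ⟨_, rfl⟩
  rw [← hF'] at h1
  have hF'F : F' ⊆ F := by rw [hF']; exact Finset.inter_subset_left
  have hF'A : F' ⊆ A' := by rw [hF']; exact Finset.inter_subset_right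
  have hb : Full c K (SS F') (-sn f F' + s) (sp f F' - s) := by
    apply bulk (R.asym.subset (hF'F.trans R.FA)) (Q := Q)
    · intro x hx
      exact R.lvl.mem x (R.AL x (R.FA (hF'F hx)))
    · intro x hx
      exact R.F0 x (hF'F hx)
    · intro x hx
      exact R.FQ x (hF'F hx)
    · exact h1
    · exact h8
  obtain ⟨S, hS⟩ : ∃ S, S = ∑ x ∈ F', (f x).natAbs := ⟨_, rfl⟩
  have hS2 : sp f F' + sn f F' = (S : ℤ) := by
    rw [hS]
    exact Pool.Agent.helper99.EX.sp_add_sn f F'
  have hSt : St (sf K).card F'.card ≤ S := by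
    rw [hS]
    exact sum_lev_ge R.lvl (R.asym.subset (hF'F.trans R.FA))
      (fun a ha => R.AL a (R.FA (hF'F ha))) (fun a ha => R.F0 a (hF'F ha))
  have hμ := sf_card_pos K
  have h2 := two_St_ge hμ F'.card
  have h3 : F'.card * (F'.card + 1) ≤ 2 * ((sf K).card * S) :=
    h2.trans (Nat.mul_le_mul_left 2 (Nat.mul_le_mul_left _ hSt))
  obtain ⟨hq1, hq2, _⟩ := reg_Q R
  have h4 : 8 * ((sf K).card * s) ≤ (sf K).card * Q := by
    calc 8 * ((sf K).card * s) = (sf K).card * (8 * s) := by ring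
      _ ≤ (sf K).card * Q := Nat.mul_le_mul_left _ h8
  have hm : 100 ≤ m := by
    have := R.m0
    have h : (100 : ℕ) ≤ 2 ^ 300 := by
      calc (100 : ℕ) ≤ 2 ^ 7 := by norm_num
        _ ≤ 2 ^ 300 := Nat.pow_le_pow_right (by norm_num) (by norm_num)
    omega
  have hV : 2 * Fst n m ≤ m * (m + 1) := by
    have := fst_le_V n m
    omega
  obtain ⟨h5, h6⟩ := win_num hm h1 h4 hq1 hq2 h3 hV
  have h7 : 2 * s ≤ S := by
    have h9 : (sf K).card * (2 * s) ≤ (sf K).card * S := by
      calc (sf K).card * (2 * s) = 2 * ((sf K).card * s) := by ring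
        _ ≤ _ := h5
    exact Nat.le_of_mul_le_mul_left h9 hμ
  have h10 : (SS A').card < 2 * ((S - 2 * s + 1) * (sf K).card) := by
    have h11 : (S - 2 * s + 1) * (sf K).card =
        (sf K).card * S - 2 * ((sf K).card * s) + (sf K).card := by
      rw [add_mul, one_mul, Nat.mul_comm, Nat.mul_sub]
      congr 2
      ring
    rw [h11]
    have h12 := Finset.card_le_card (SS_mono hA')
    have h13 := card_SS_le_SigmaStar A
    omega
  have h14 := Full.union_all grow_SS R.lvl hF'A (fun x hx => R.AL x (hA' hx)) hb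
    (len := S - 2 * s + 1) (by push_cast [h7]; omega) h10
  have h15 := Pool.Agent.helper99.EX.sp_sdiff f hF'A
  have h16 := Pool.Agent.helper99.EX.sn_sdiff f hF'A
  have e1 : -sn f F' + s - sn f (A' \ F') = -sn f A' + s := by omega
  have e2 : sp f F' - s + sp f (A' \ F') = sp f A' - s := by omega
  rw [e1, e2] at h14
  exact h14

end Pool.Agent.helper99.EX
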