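import Pool.Agent.helper99.EX.Rig

/-! EX-Z3a: `κ = 0` (`K` trivial), both signs, `N + 2 ≤ S`: there is a nonempty zero sum
(4.5 (Z3)). -/

open Finset Pool.Agent.helper43.Rho Pool.Agent.helper43.Asy Pool.Agent.helper43.Ex

set_option linter.unusedSectionVars false

namespace Pool.Agent.helper99.EX

variable {n m : ℕ} [NeZero n] {A : Finset (ZMod n)} {c : ZMod n} {K L : AddSubgroup (ZMod n)}
  {N : ℕ} {f : ZMod n → ℤ} {q : ℕ}

/-- `K = ⊥` as `|K| = 1` -/
theorem z3_K (R : Rig n m A c K L N f q 0) {x : ZMod n} (hx : x ∈ K) : x = 0 := by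
  have h1 : (sf K).card = 1 := by rw [R.mu]
  obtain ⟨y, hy⟩ := Finset.card_eq_one.1 h1
  have hx' : x ∈ sf K := (mem_sf x).2 hx
  have h0' : (0 : ZMod n) ∈ sf K := (mem_sf 0).2 K.zero_mem
  rw [hy, Finset.mem_singleton] at hx' h0'
  rw [hx', h0']

/-- every element is `f a • c` -/
theorem z3_eq (R : Rig n m A c K L N f q 0) {a : ZMod n} (ha : a ∈ A) : a = f a • c := by
  have h := z3_K R (R.lvl.mem a (R.AL a ha))
  exact sub_eq_zero.1 h

/-- for `1 ≤ k ≤ q` exactly one of `k c`, `-(k c)` is in `A`, with level `k`, `-k` -/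
theorem z3_cls (R : Rig n m A c K L N f q 0) {k : ℕ} (h1 : 1 ≤ k) (h2 : k ≤ q) :
    ((k : ℤ) • c ∈ A ∧ f ((k : ℤ) • c) = k) ∨ ((-(k : ℤ)) • c ∈ A ∧ f ((-(k : ℤ)) • c) = -k) := by
  have hz : (k : ℤ) • c - k • c ∈ K := by
    rw [natCast_zsmul, sub_self]
    exact K.zero_mem
  rcases rig_cls R h1 h2 hz with h | h
  · exact Or.inl h
  · right
    rw [neg_smul]
    exact h

/-- If `x, y, z ∈ A` have different levels with sum `0` then `x + y + z = 0`:
`zero_of_three`. -/
theorem z3_three (R : Rig n m A c K L N f q 0) {x y z : ZMod n} (hx : x ∈ A) (hy : y ∈ A)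
    (hz : z ∈ A) (hxy : f x ≠ f y) (hxz : f x ≠ f z) (hyz : f y ≠ f z)
    (h : f x + f y + f z = 0) : (0 : ZMod n) ∈ SigmaStar A := by
  refine zero_of_three hx hy hz (fun e => hxy (by rw [e])) (fun e => hxz (by rw [e]))
    (fun e => hyz (by rw [e])) ?_
  rw [z3_eq R hx, z3_eq R hy, z3_eq R hz, ← add_smul, ← add_smul, h, zero_smul]

private theorem z3a_four (R : Rig n m A c K L N f q 0) {x y z w : ZMod n} (hx : x ∈ A)
    (hy : y ∈ A) (hz : z ∈ A) (hw : w ∈ A) (hxy : f x ≠ f y) (hxz : f x ≠ f z) (hxw : f x ≠ f w)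
    (hyz : f y ≠ f z) (hyw : f y ≠ f w) (hzw : f z ≠ f w)
    (h : f x + f y + f z + f w = 0) : (0 : ZMod n) ∈ SigmaStar A := by
  have hxy' : x ≠ y := fun e => hxy (by rw [e])
  have hxz' : x ≠ z := fun e => hxz (by rw [e])
  have hxw' : x ≠ w := fun e => hxw (by rw [e])
  have hyz' : y ≠ z := fun e => hyz (by rw [e])
  have hyw' : y ≠ w := fun e => hyw (by rw [e])
  have hzw' : z ≠ w := fun e => hzw (by rw [e])
  have hs : x + y + z + w = 0 := by
    rw [z3_eq R hx, z3_eq R hy, z3_eq R hz, z3_eq R hw, ← add_smul, ← add_smul, ← add_smul, h,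
      zero_smul]
  refine mem_SigmaStar.2 ⟨{x, y, z, w}, ?_, ⟨x, by simp⟩, ?_⟩
  · intro a ha
    simp only [Finset.mem_insert, Finset.mem_singleton] at ha
    rcases ha with rfl | rfl | rfl | rfl
    · exact hx
    · exact hy
    · exact hz
    · exact hw
  · rw [Finset.sum_insert (by simp [hxy', hxz', hxw']), Finset.sum_insert (by simp [hyz', hyw']),
      Finset.sum_insert (by simp [hzw']), Finset.sum_singleton, ← hs]
    abel

/-- the combinatorial core, for the set `P` of the levels -/
private theorem z3a_core {P : ℤ → Prop} {q : ℕ} (q10 : 10 ≤ q) (hP1 : P 1)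
    (hcl : ∀ k : ℕ, 1 ≤ k → k ≤ q → P k ∨ P (-k))
    (has : ∀ j : ℤ, P j → P (-j) → False)
    (htop : ∀ j : ℤ, P j → j.natAbs < 2 * q)
    (h3 : ∀ i j l : ℤ, P i → P j → P l → i ≠ j → i ≠ l → j ≠ l → i + j + l = 0 → False)
    (h4 : ∀ i j l t : ℤ, P i → P j → P l → P t → i ≠ j → i ≠ l → i ≠ t → j ≠ l → j ≠ t → l ≠ t →
      i + j + l + t = 0 → False) :
    (∀ j, P j → 0 < j) ∨ (∀ j, P j → j < 0 → j = -2) ∨ (∀ j, P j → 0 < j → j = 1) := by
  have h0 : ¬ P 0 := fun h => has 0 h (by simpa using h)
  -- integer forms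
  have hc : ∀ k : ℤ, 1 ≤ k → k ≤ q → P k ∨ P (-k) := by
    intro k h1 h2
    have h := hcl k.toNat (by omega) (by omega)
    have e : ((k.toNat : ℕ) : ℤ) = k := by omega
    rw [e] at h
    exact h
  by_cases hP2 : P 2
  · left
    have hall : ∀ k : ℕ, 2 ≤ k → k ≤ q → P (k : ℤ) := by
      intro k hk
      induction k, hk using Nat.le_induction with
      | base => intro _; exact_mod_cast hP2
      | succ k hk ih =>
        intro hk2
        have hk' := ih (by omega)
        rcases hc ((k + 1 : ℕ) : ℤ) (by omega) (by omega) with h | h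
        · exact h
        · exact (h3 1 k (-((k + 1 : ℕ) : ℤ)) hP1 hk' h (by omega) (by omega) (by omega)
            (by push_cast; ring)).elim
    have hall' : ∀ k : ℤ, 1 ≤ k → k ≤ q → P k := by
      intro k h1 h2
      rcases eq_or_lt_of_le h1 with h | h
      · rw [← h]; exact hP1
      · have h := hall k.toNat (by omega) (by omega)
        have e : ((k.toNat : ℕ) : ℤ) = k := by omega
        rw [e] at h
        exact h
    intro j hj
    by_contra hn
    have hj0 : j ≠ 0 := fun e => h0 (e ▸ hj)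
    have ht := htop j hj
    by_cases hjq : -j ≤ q
    · exact has j hj (hall' (-j) (by omega) hjq)
    · exact h3 q (-j - q) j (hall' q (by omega) le_rfl) (hall' (-j - q) (by omega) (by omega)) hj
        (by omega) (by omega) (by omega) (by ring)
  · right
    have hPm2 : P (-2) := by
      rcases hc 2 (by norm_num) (by omega) with h | h
      · exact absurd h hP2
      · exact h
    by_cases hP3 : P 3
    · left
      have hall : ∀ k : ℕ, 3 ≤ k → k ≤ q → P (k : ℤ) := by
        intro k hk
        induction k, hk using Nat.le_induction with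
        | base => intro _; exact_mod_cast hP3
        | succ k hk ih =>
          intro hk2
          have hk' := ih (by omega)
          rcases hc ((k + 1 : ℕ) : ℤ) (by omega) (by omega) with h | h
          · exact h
          · exact (h3 1 k (-((k + 1 : ℕ) : ℤ)) hP1 hk' h (by omega) (by omega) (by omega)
              (by push_cast; ring)).elim
      have hall' : ∀ k : ℤ, 1 ≤ k → k ≤ q → k ≠ 2 → P k := by
        intro k h1 h2 h22
        rcases eq_or_lt_of_le h1 with h | h
        · rw [← h]; exact hP1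
        · have h := hall k.toNat (by omega) (by omega)
          have e : ((k.toNat : ℕ) : ℤ) = k := by omega
          rw [e] at h
          exact h
      intro j hj hjn
      by_contra hn
      have ht := htop j hj
      by_cases hjq : -j ≤ q
      · exact has j hj (hall' (-j) (by omega) hjq (by omega))
      · by_cases hj2 : -j - q = 2
        · exact h3 (q - 1) 3 j (hall' (q - 1) (by omega) (by omega) (by omega)) hP3 hj
            (by omega) (by omega) (by omega) (by omega)
        · exact h3 q (-j - q) j (hall' q (by omega) le_rfl (by omega))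
            (hall' (-j - q) (by omega) (by omega) hj2) hj
            (by omega) (by omega) (by omega) (by ring)
    · right
      have hPm3 : P (-3) := by
        rcases hc 3 (by norm_num) (by omega) with h | h
        · exact absurd h hP3
        · exact h
      have hPm4 : P (-4) := by
        rcases hc 4 (by norm_num) (by omega) with h | h
        · exact (h4 4 1 (-2) (-3) h hP1 hPm2 hPm3 (by norm_num) (by norm_num) (by norm_num)
            (by norm_num) (by norm_num) (by norm_num) (by norm_num)).elim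
        · exact h
      have hall : ∀ k : ℕ, 2 ≤ k → k ≤ q → P (-(k : ℤ)) := by
        intro k
        induction k using Nat.strong_induction_on with
        | _ k ih =>
          intro hk hk2
          by_cases k2 : k = 2
          · rw [k2]; exact_mod_cast hPm2
          by_cases k3 : k = 3
          · rw [k3]; exact_mod_cast hPm3
          by_cases k4 : k = 4
          · rw [k4]; exact_mod_cast hPm4
          have hk' := ih (k - 2) (by omega) (by omega) (by omega)
          rcases hc (k : ℤ) (by omega) (by omega) with h | h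
          · exact (h3 k (-2) (-((k - 2 : ℕ) : ℤ)) h hPm2 hk' (by omega) (by omega) (by omega)
              (by omega)).elim
          · exact h
      have hall' : ∀ k : ℤ, 2 ≤ k → k ≤ q → P (-k) := by
        intro k h1 h2
        have h := hall k.toNat (by omega) (by omega)
        have e : ((k.toNat : ℕ) : ℤ) = k := by omega
        rw [e] at h
        exact h
      intro j hj hjn
      by_contra hn
      have ht := htop j hj
      by_cases hjq : j ≤ q
      · exact has j hj (hall' j (by omega) hjq)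
      · by_cases hj2 : j = q + 1
        · exact h3 j (-(q - 1)) (-2) hj (hall' (q - 1) (by omega) (by omega)) hPm2
            (by omega) (by omega) (by omega) (by omega)
        · exact h3 j (-q) (-(j - q)) hj (hall' q (by omega) le_rfl)
            (hall' (j - q) (by omega) (by omega))
            (by omega) (by omega) (by omega) (by ring)

/-- The sign pattern. Suppose that `0` is not a nonempty sum and that `1` is a level (`1 • c ∈ A`,
`f = 1`). Then either all levels are positive, or the only negative level is `-2`, or the only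
positive level is `1`. Proof (`z3_three`, and one sum of four elements): let `e k = ±1` be the sign
of the class `k ≤ q`, `e 1 = 1`.
(i) `e 2 = 1`: `e j = 1` for `2 ≤ j ≤ q` by induction (`1 + (j-1) - j = 0`), and a level `-l`,
`q < l < 2 q`, is impossible (`q + (l - q) - l = 0`). All levels are positive.
(ii) `e 2 = -1`, `e 3 = 1`: `e 4 = 1` (`1 + 3 - 4 = 0`), `e j = 1` for `3 ≤ j ≤ q`
(`1 + (j-1) - j`), a level `-l`, `q < l < 2 q`: `q + (l - q) - l = 0` if `l - q ≠ 2`, and
`(q - 1) + 3 - l = 0` if `l = q + 2`. The only negative level is `-2`.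
(iii) `e 2 = e 3 = -1`: `e 4 = -1` (`4 + 1 - 2 - 3 = 0`), `e j = -1` for `5 ≤ j ≤ q`
(`j - 2 - (j - 2) = 0`), a level `l`, `q < l < 2 q`: `l - q - (l - q) = 0` if `l - q ≥ 2`
and `l - (q - 1) - 2 = 0` if `l = q + 1`. The only positive level is `1`. -/
theorem z3_signs (R : Rig n m A c K L N f q 0) (h0 : (0 : ZMod n) ∉ SigmaStar A)
    (h1 : (1 : ℤ) • c ∈ A) (hf1 : f ((1 : ℤ) • c) = 1) :
    (∀ a ∈ A, 0 < f a) ∨ (∀ a ∈ A, f a < 0 → f a = -2) ∨ (∀ a ∈ A, 0 < f a → f a = 1) := by
  have key := z3a_core (P := fun j => ∃ a ∈ A, f a = j) R.q10 ⟨_, h1, hf1⟩ ?_ ?_ ?_ ?_ ?_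
  · rcases key with h | h | h
    · exact Or.inl fun a ha => h (f a) ⟨a, ha, rfl⟩
    · exact Or.inr (Or.inl fun a ha => h (f a) ⟨a, ha, rfl⟩)
    · exact Or.inr (Or.inr fun a ha => h (f a) ⟨a, ha, rfl⟩)
  · intro k hk1 hk2
    rcases z3_cls R hk1 hk2 with h | h
    · exact Or.inl ⟨_, h.1, h.2⟩
    · exact Or.inr ⟨_, h.1, h.2⟩
  · rintro j ⟨a, ha, hfa⟩ ⟨b, hb, hfb⟩
    have e : b = -a := by
      rw [z3_eq R ha, z3_eq R hb, hfa, hfb, neg_smul]
    exact R.asym a ha (e ▸ hb)
  · rintro j ⟨a, ha, hfa⟩
    rw [← hfa]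
    exact R.top a ha
  · rintro i j l ⟨x, hx, hfx⟩ ⟨y, hy, hfy⟩ ⟨z, hz, hfz⟩ hij hil hjl hs
    exact h0 (z3_three R hx hy hz (by rw [hfx, hfy]; exact hij) (by rw [hfx, hfz]; exact hil)
      (by rw [hfy, hfz]; exact hjl) (by rw [hfx, hfy, hfz]; exact hs))
  · rintro i j l t ⟨x, hx, hfx⟩ ⟨y, hy, hfy⟩ ⟨z, hz, hfz⟩ ⟨w, hw, hfw⟩ hij hil hit hjl hjt hlt hs
    exact h0 (z3a_four R hx hy hz hw (by rw [hfx, hfy]; exact hij) (by rw [hfx, hfz]; exact hil)
      (by rw [hfx, hfw]; exact hit) (by rw [hfy, hfz]; exact hjl) (by rw [hfy, hfw]; exact hjt)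
      (by rw [hfz, hfw]; exact hlt) (by rw [hfx, hfy, hfz, hfw]; exact hs))

end Pool.Agent.helper99.EX
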