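import Pool.Agent.helper99.EX.RgB

/-! EX-T5: (Z1) of 4.2: if the sum of the levels is at least `N + 8 s0` there is a nonempty zero sum.
-/

open Finset Pool.Agent.helper43.Rho Pool.Agent.helper43.Asy Pool.Agent.helper43.Ex

set_option linter.unusedSectionVars false

namespace Pool.Agent.helper99.EX

variable {n m : ℕ} [NeZero n] {A F : Finset (ZMod n)} {c : ZMod n} {K L : AddSubgroup (ZMod n)}
  {N : ℕ} {f : ZMod n → ℤ} {Q : ℕ}

/-- both sums are large: `a ∈ F` of level `≤ s0`, `-a ∈ SS (A.erase a)` -/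
theorem z1_two (R : Reg n m A F c K L N f Q) (hlt : (SigmaStar A).card < Fst n m)
    (hp : ((2 * (Q / 50) : ℕ) : ℤ) ≤ sp f A) (hn : ((2 * (Q / 50) : ℕ) : ℤ) ≤ sn f A) :
    (0 : ZMod n) ∈ SigmaStar A := by
  classical
  obtain ⟨s, hs⟩ : ∃ s, s = Q / 50 := ⟨_, rfl⟩
  have h0 := (reg_s0 R).1
  rw [← hs] at hp hn h0
  have hQ := reg_Q30 R
  have h3 := sf_card_pos K
  have h9 : (sf K).card * s ≤ (sf K).card * Q := Nat.mul_le_mul_left _ (by omega)
  obtain ⟨a, haF, has⟩ := exists_small R (Finset.Subset.refl F) (t := s) (by omega) (by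
    rw [Nat.mul_sub]
    have h4 := R.hole
    have h5 : 50 * s + 49 ≥ Q := by omega
    have h6 : (sf K).card * Q ≤ (sf K).card * (50 * s + 49) := Nat.mul_le_mul_left _ h5
    have h7 : (sf K).card * (50 * s + 49) = 50 * ((sf K).card * s) + 49 * (sf K).card := by ring
    have h8 : (sf K).card * 1000 ≤ (sf K).card * s := Nat.mul_le_mul_left _ (by omega)
    omega)
  have haA := R.FA haF
  have hFe : (F ∩ A.erase a).card + 1 = F.card := by
    have h4 : F ∩ A.erase a = F.erase a := by
      ext x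
      simp only [Finset.mem_inter, Finset.mem_erase]
      constructor
      · rintro ⟨h1, h2, _⟩
        exact ⟨h2, h1⟩
      · rintro ⟨h1, h2⟩
        exact ⟨h2, h1, R.FA h2⟩
    rw [h4]
    exact Finset.card_erase_add_one haF
  have hw := win R hlt (Finset.erase_subset a A) (s := s) (by omega) (by omega)
  have hsp : sp f A = sp f (A.erase a) + max (f a) 0 := by
    unfold sp
    rw [Finset.sum_erase_add A _ haA]
  have hsn : sn f A = sn f (A.erase a) + max (-f a) 0 := by
    unfold sn
    rw [Finset.sum_erase_add A _ haA]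
  have ha := R.lvl.mem a (R.AL a haA)
  apply zero_mem_of_neg haA
  have h5 := hw (-f a) (by omega) (by omega) (-(a - f a • c)) (K.neg_mem ha)
  have h6 : -f a • c + -(a - f a • c) = -a := by
    rw [neg_zsmul]
    abel
  rw [h6] at h5
  exact h5

/-- `sn ≤ 2 s0`: `a1 ∈ F` positive of level `≤ 5 s0`, `-a1` is on the level `N - f a1` of the window
of `A+ \ a1` -/
theorem z1_one (R : Reg n m A F c K L N f Q) (hlt : (SigmaStar A).card < Fst n m)
    (hS : (N : ℤ) + ((8 * (Q / 50) : ℕ) : ℤ) ≤ sp f A + sn f A)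
    (hn : sn f A ≤ ((2 * (Q / 50) : ℕ) : ℤ)) : (0 : ZMod n) ∈ SigmaStar A := by
  classical
  obtain ⟨s, hs⟩ : ∃ s, s = Q / 50 := ⟨_, rfl⟩
  have h0 := (reg_s0 R).2
  rw [← hs] at hn hS h0
  have hQ := reg_Q30 R
  have h3 := sf_card_pos K
  have hNQ := reg_N R
  obtain ⟨P, hP⟩ : ∃ P, P = A.filter (fun x => 0 < f x) := ⟨_, rfl⟩
  obtain ⟨D, hD⟩ : ∃ D, D = A.filter (fun x => f x < 0) := ⟨_, rfl⟩
  have hDc : D.card ≤ 2 * s := by
    have h1 : (D.card : ℤ) ≤ sn f A := by
      have h2 : (D.card : ℤ) ≤ sn f D := by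
        unfold sn
        rw [Finset.card_eq_sum_ones, Nat.cast_sum]
        apply Finset.sum_le_sum
        intro x hx
        rw [hD, Finset.mem_filter] at hx
        push_cast
        omega
      exact h2.trans (Pool.Agent.helper99.EX.sn_mono f (by rw [hD]; exact Finset.filter_subset _ _))
    omega
  have hFP : F.card ≤ (F ∩ P).card + 2 * s := by
    have h1 : F ⊆ (F ∩ P) ∪ D := by
      intro x hx
      have hxA := R.FA hx
      have hx0 := R.F0 x hx
      rw [Finset.mem_union, Finset.mem_inter, hP, hD, Finset.mem_filter, Finset.mem_filter]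
      rcases lt_or_gt_of_ne hx0 with h | h
      · exact Or.inr ⟨hxA, h⟩
      · exact Or.inl ⟨hx, hxA, h⟩
    have h2 := (Finset.card_le_card h1).trans (Finset.card_union_le _ _)
    omega
  have h9 : (sf K).card * (5 * s) ≤ (sf K).card * Q := Nat.mul_le_mul_left _ (by omega)
  have h10 : s ≤ (sf K).card * s := Nat.le_mul_of_pos_left s h3
  obtain ⟨a, haFP, has⟩ := exists_small R (Finset.inter_subset_left : F ∩ P ⊆ F) (t := 5 * s)
    (by omega) (by
    rw [Nat.mul_sub]
    have h4 := R.hole
    have h5 : 50 * s + 49 ≥ Q := by omega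
    have h6 : (sf K).card * Q ≤ (sf K).card * (50 * s + 49) := Nat.mul_le_mul_left _ h5
    have h7 : (sf K).card * (50 * s + 49) = 50 * ((sf K).card * s) + 49 * (sf K).card := by ring
    have h8 : (sf K).card * 1000 ≤ (sf K).card * s := Nat.mul_le_mul_left _ (by omega)
    have h11 : (sf K).card * (5 * s) = 5 * ((sf K).card * s) := by ring
    omega)
  have haF := (Finset.mem_inter.1 haFP).1
  have haP := (Finset.mem_inter.1 haFP).2
  have hPA : P ⊆ A := by rw [hP]; exact Finset.filter_subset _ _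
  have haA := hPA haP
  have hfa : 0 < f a := by
    rw [hP] at haP
    exact (Finset.mem_filter.1 haP).2
  have hFe : (F ∩ P.erase a).card + 1 = (F ∩ P).card := by
    have h4 : F ∩ P.erase a = (F ∩ P).erase a := by
      ext x
      simp only [Finset.mem_inter, Finset.mem_erase]
      tauto
    rw [h4]
    exact Finset.card_erase_add_one haFP
  have hw := win R hlt ((Finset.erase_subset a P).trans hPA) (s := 5 * s) (by omega) (by omega)
  have hsnP : sn f (P.erase a) = 0 := by
    unfold sn
    apply Finset.sum_eq_zero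
    intro x hx
    have h1 := Finset.mem_of_mem_erase hx
    rw [hP, Finset.mem_filter] at h1
    omega
  have hspP : sp f P = sp f (P.erase a) + f a := by
    unfold sp
    have h1 := Finset.sum_erase_add P (fun x => max (f x) 0) haP
    rw [← h1]
    congr 1
    omega
  have hspA : sp f P = sp f A := by
    unfold sp
    rw [hP]
    apply Finset.sum_subset (Finset.filter_subset _ _)
    intro x hx hx2
    rw [Finset.mem_filter] at hx2
    have : ¬ 0 < f x := fun h => hx2 ⟨hx, h⟩
    omega
  have ha := R.lvl.mem a (R.AL a haA)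
  have hNc : (N : ℤ) • c ∈ K := (R.lvl.ord _).2 dvd_rfl
  apply zero_mem_of_neg haA
  have h5 := hw ((N : ℤ) - f a) (by push_cast; omega) (by push_cast at *; omega)
    (-(a - f a • c) - (N : ℤ) • c) (K.sub_mem (K.neg_mem ha) hNc)
  have h6 : ((N : ℤ) - f a) • c + (-(a - f a • c) - (N : ℤ) • c) = -a := by
    rw [sub_zsmul]
    abel
  rw [h6] at h5
  exact SS_mono (Finset.erase_subset_erase a hPA) h5

theorem z1 (R : Reg n m A F c K L N f Q) (hlt : (SigmaStar A).card < Fst n m)
    (hS : (N : ℤ) + ((8 * (Q / 50) : ℕ) : ℤ) ≤ sp f A + sn f A) :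
    (0 : ZMod n) ∈ SigmaStar A := by
  rcases le_total ((2 * (Q / 50) : ℕ) : ℤ) (sn f A) with h1 | h1
  · rcases le_total ((2 * (Q / 50) : ℕ) : ℤ) (sp f A) with h2 | h2
    · exact z1_two R hlt h2 h1
    · apply z1_one (reg_neg R) hlt
      · rw [sp_neg, sn_neg]
        omega
      · rw [sn_neg]
        exact h2
  · exact z1_one R hlt hS h1

end Pool.Agent.helper99.EX
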